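import Pool.Agent.TH280.LS.Base
import Pool.Agent.TH496.LS_MOD1
set_option autoImplicit false

/-! # Random signs on the cubes of frequencies -/

open MeasureTheory Set Filter Topology ProbabilityTheory
open scoped ENNReal NNReal

namespace Pool.Agent.Q167.LS

open Pool.Agent.TH280.LS

section kh
variable {Ω : Type} [MeasurableSpace Ω] {P : Measure Ω} [IsProbabilityMeasure P] {ι : Type}
  {ε : ι → Ω → ℝ}

lemma pow4_exp (x : ℝ) : x ^ 4 ≤ 24 * (Real.exp x + Real.exp (-x)) := by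
  have h1 : |x| ^ 4 / (Nat.factorial 4 : ℝ) ≤ Real.exp |x| :=
    Real.pow_div_factorial_le_exp |x| (abs_nonneg x) 4
  have h2 : (Nat.factorial 4 : ℝ) = 24 := by norm_num [Nat.factorial]
  rw [h2, div_le_iff₀ (by norm_num)] at h1
  have h3 : |x| ^ 4 = x ^ 4 := by
    have : |x| ^ 4 = (|x| ^ 2) ^ 2 := by ring
    rw [this, sq_abs]; ring
  have h4 : Real.exp |x| ≤ Real.exp x + Real.exp (-x) := by
    rcases abs_cases x with ⟨h, _⟩ | ⟨h, _⟩ <;> rw [h]
    · linarith [Real.exp_pos (-x)]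
    · linarith [Real.exp_pos x]
  rw [h3] at h1
  linarith

/-- the constant -/
noncomputable def K0 : ℝ := 1 + 48 * Real.exp (1 / 2)

lemma K0_pos : 0 < K0 := by unfold K0; positivity

lemma kh_norm (hm : ∀ k, Measurable (ε k)) (hi : iIndepFun ε P)
    (hv : ∀ k ω, ε k ω ∈ Icc (-1 : ℝ) 1) (h0 : ∀ k, ∫ ω, ε k ω ∂P = 0)
    {p : ℝ} (hp : 0 < p) (hp4 : p ≤ 4) (J : Finset ι) (c : ι → ℝ) (hc : ∑ k ∈ J, c k ^ 2 = 1) :
    ∫⁻ ω, ‖∑ k ∈ J, c k * ε k ω‖ₑ ^ p ∂P ≤ ENNReal.ofReal K0 := by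
  have hsub : ∀ k, HasSubgaussianMGF (ε k) 1 P := by
    intro k
    have h := hasSubgaussianMGF_of_mem_Icc_of_integral_eq_zero (μ := P) (hm k).aemeasurable
      (Eventually.of_forall (hv k)) (h0 k)
    have e1 : ((‖(1 : ℝ) - -1‖₊ / 2) ^ 2 : ℝ≥0) = 1 := by
      rw [← NNReal.coe_inj]
      push_cast
      norm_num
    rwa [e1] at h
  have hi2 : iIndepFun (fun k ω => c k * ε k ω) P :=
    hi.comp (fun k x => c k * x) (fun k => measurable_const_mul (c k))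
  have h := HasSubgaussianMGF.sum_of_iIndepFun (s := J) hi2 (fun k _ => (hsub k).const_mul (c k))
  obtain ⟨X, hX⟩ : ∃ X : Ω → ℝ, X = fun ω => ∑ k ∈ J, c k * ε k ω := ⟨_, rfl⟩
  have hXm : Measurable X := by
    rw [hX]
    exact Finset.measurable_fun_sum _ fun k _ => (hm k).const_mul (c k)
  rw [← hX] at h
  have hpar : ((∑ k ∈ J, (⟨c k ^ 2, sq_nonneg _⟩ * 1 : ℝ≥0) : ℝ≥0) : ℝ) = 1 := by
    rw [NNReal.coe_sum, ← hc]
    refine Finset.sum_congr rfl fun k _ => ?_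
    change c k ^ 2 * (1 : ℝ) = c k ^ 2
    ring
  have g1 := h.mgf_le 1
  have g2 := h.mgf_le (-1)
  have j1 := h.integrable_exp_mul 1
  have j2 := h.integrable_exp_mul (-1)
  rw [hpar] at g1 g2
  unfold mgf at g1 g2
  simp only [one_mul, neg_mul] at g1 g2 j1 j2
  norm_num at g1 g2
  have hpt : ∀ ω, ‖X ω‖ₑ ^ p ≤ ENNReal.ofReal (1 + 24 * (Real.exp (X ω) + Real.exp (-X ω))) := by
    intro ω
    rw [← ofReal_norm, ENNReal.ofReal_rpow_of_nonneg (norm_nonneg _) hp.le, Real.norm_eq_abs]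
    apply ENNReal.ofReal_le_ofReal
    have h5 := pow4_exp (X ω)
    rcases le_total |X ω| 1 with h6 | h6
    · have h7 : |X ω| ^ p ≤ 1 := Real.rpow_le_one (abs_nonneg _) h6 hp.le
      have := Real.exp_pos (X ω)
      have := Real.exp_pos (-X ω)
      linarith
    · have h7 : |X ω| ^ p ≤ |X ω| ^ (4 : ℝ) := Real.rpow_le_rpow_of_exponent_le h6 hp4
      have h8 : |X ω| ^ (4 : ℝ) = X ω ^ 4 := by
        have e1 : |X ω| ^ (4 : ℝ) = |X ω| ^ 4 := by
          rw [← Real.rpow_natCast]; norm_num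
        rw [e1]
        have : |X ω| ^ 4 = (|X ω| ^ 2) ^ 2 := by ring
        rw [this, sq_abs]; ring
      linarith
  have hXs : ∀ ω, ∑ k ∈ J, c k * ε k ω = X ω := fun ω => by rw [hX]
  simp only [hXs]
  have jadd : Integrable (fun ω => 24 * (Real.exp (X ω) + Real.exp (-X ω))) P :=
    (j1.add j2).const_mul 24
  have jint : Integrable (fun ω => 1 + 24 * (Real.exp (X ω) + Real.exp (-X ω))) P :=
    (integrable_const 1).add jadd
  calc ∫⁻ ω, ‖X ω‖ₑ ^ p ∂P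
      ≤ ∫⁻ ω, ENNReal.ofReal (1 + 24 * (Real.exp (X ω) + Real.exp (-X ω))) ∂P :=
        lintegral_mono hpt
    _ = ENNReal.ofReal (∫ ω, (1 + 24 * (Real.exp (X ω) + Real.exp (-X ω))) ∂P) :=
        (ofReal_integral_eq_lintegral_ofReal jint (Eventually.of_forall fun ω => by positivity)).symm
    _ ≤ _ := by
        apply ENNReal.ofReal_le_ofReal
        rw [integral_add (integrable_const 1) jadd, integral_const_mul,
          integral_add j1 j2]
        simp only [integral_const, probReal_univ, smul_eq_mul, mul_one]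
        unfold K0
        norm_num at g1 g2 ⊢
        linarith

lemma kh_real (hm : ∀ k, Measurable (ε k)) (hi : iIndepFun ε P)
    (hv : ∀ k ω, ε k ω ∈ Icc (-1 : ℝ) 1) (h0 : ∀ k, ∫ ω, ε k ω ∂P = 0)
    {p : ℝ} (hp : 0 < p) (hp4 : p ≤ 4) (J : Finset ι) (c : ι → ℝ) :
    ∫⁻ ω, ‖∑ k ∈ J, c k * ε k ω‖ₑ ^ p ∂P ≤
      ENNReal.ofReal (K0 * (∑ k ∈ J, c k ^ 2) ^ (p / 2)) := by
  obtain ⟨S, hS⟩ : ∃ S : ℝ, S = ∑ k ∈ J, c k ^ 2 := ⟨_, rfl⟩
  have hS0 : 0 ≤ S := by rw [hS]; exact Finset.sum_nonneg fun k _ => sq_nonneg _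
  rw [← hS]
  rcases hS0.eq_or_lt with h | h
  · have hz : ∀ k ∈ J, c k = 0 := by
      intro k hk
      have := (Finset.sum_eq_zero_iff_of_nonneg (fun k _ => sq_nonneg (c k))).1
        (by rw [← hS]; exact h.symm) k hk
      exact pow_eq_zero_iff (two_ne_zero) |>.1 this
    have e1 : ∀ ω, ∑ k ∈ J, c k * ε k ω = 0 := fun ω =>
      Finset.sum_eq_zero fun k hk => by rw [hz k hk, zero_mul]
    simp only [e1]
    simp [hp]
  · have hs : 0 < Real.sqrt S := Real.sqrt_pos.2 h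
    have hss : Real.sqrt S ^ 2 = S := Real.sq_sqrt h.le
    have h1 := kh_norm (P := P) hm hi hv h0 hp hp4 J (fun k => c k / Real.sqrt S) (by
      simp only [div_pow, hss]
      rw [← Finset.sum_div, ← hS, div_self h.ne'])
    have e1 : ∀ ω, ‖∑ k ∈ J, c k * ε k ω‖ₑ ^ p = ENNReal.ofReal (S ^ (p / 2)) *
        ‖∑ k ∈ J, c k / Real.sqrt S * ε k ω‖ₑ ^ p := by
      intro ω
      have e2 : ∑ k ∈ J, c k * ε k ω = Real.sqrt S * ∑ k ∈ J, c k / Real.sqrt S * ε k ω := by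
        rw [Finset.mul_sum]
        refine Finset.sum_congr rfl fun k _ => ?_
        field_simp
      rw [e2, enorm_mul, ENNReal.mul_rpow_of_nonneg _ _ hp.le]
      congr 1
      rw [← ofReal_norm, Real.norm_of_nonneg hs.le, ENNReal.ofReal_rpow_of_nonneg hs.le hp.le]
      congr 1
      rw [Real.sqrt_eq_rpow, ← Real.rpow_mul h.le]
      congr 1
      ring
    simp only [e1]
    rw [lintegral_const_mul' _ _ ENNReal.ofReal_ne_top, mul_comm K0,
      ENNReal.ofReal_mul (by positivity)]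
    exact mul_le_mul' le_rfl h1

/-- Khintchine's inequality, complex coefficients, finite sums -/
lemma kh_fin (hm : ∀ k, Measurable (ε k)) (hi : iIndepFun ε P)
    (hv : ∀ k ω, ε k ω ∈ Icc (-1 : ℝ) 1) (h0 : ∀ k, ∫ ω, ε k ω ∂P = 0)
    {p : ℝ} (hp : 2 ≤ p) (hp4 : p ≤ 4) (J : Finset ι) (c : ι → ℂ) :
    ∫⁻ ω, ‖∑ k ∈ J, ((ε k ω : ℝ) : ℂ) * c k‖ₑ ^ p ∂P ≤
      ENNReal.ofReal (16 * K0) * (∑ k ∈ J, ‖c k‖ₑ ^ 2) ^ (p / 2) := by
  have hK := K0_pos
  obtain ⟨S, hS⟩ : ∃ S : ℝ, S = ∑ k ∈ J, ‖c k‖ ^ 2 := ⟨_, rfl⟩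
  have hS0 : 0 ≤ S := by rw [hS]; exact Finset.sum_nonneg fun k _ => sq_nonneg _
  have eS : (∑ k ∈ J, ‖c k‖ₑ ^ 2) ^ (p / 2) = ENNReal.ofReal (S ^ (p / 2)) := by
    rw [← ENNReal.ofReal_rpow_of_nonneg hS0 (by linarith), hS,
      ENNReal.ofReal_sum_of_nonneg (fun k _ => sq_nonneg _)]
    congr 1
    refine Finset.sum_congr rfl fun k _ => ?_
    rw [← ofReal_norm, ENNReal.ofReal_pow (norm_nonneg _)]
  have r1 := kh_real (P := P) hm hi hv h0 (by linarith : 0 < p) hp4 J (fun k => (c k).re)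
  have r2 := kh_real (P := P) hm hi hv h0 (by linarith : 0 < p) hp4 J (fun k => (c k).im)
  have s1 : (∑ k ∈ J, (c k).re ^ 2) ^ (p / 2) ≤ S ^ (p / 2) := by
    refine Real.rpow_le_rpow (Finset.sum_nonneg fun k _ => sq_nonneg _) ?_ (by linarith)
    rw [hS]
    refine Finset.sum_le_sum fun k _ => ?_
    rw [← sq_abs]
    exact pow_le_pow_left₀ (abs_nonneg _) (Complex.abs_re_le_norm _) 2
  have s2 : (∑ k ∈ J, (c k).im ^ 2) ^ (p / 2) ≤ S ^ (p / 2) := by
    refine Real.rpow_le_rpow (Finset.sum_nonneg fun k _ => sq_nonneg _) ?_ (by linarith)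
    rw [hS]
    refine Finset.sum_le_sum fun k _ => ?_
    rw [← sq_abs]
    exact pow_le_pow_left₀ (abs_nonneg _) (Complex.abs_im_le_norm _) 2
  have hpt : ∀ ω, ‖∑ k ∈ J, ((ε k ω : ℝ) : ℂ) * c k‖ₑ ^ p ≤
      8 * (‖∑ k ∈ J, (c k).re * ε k ω‖ₑ ^ p + ‖∑ k ∈ J, (c k).im * ε k ω‖ₑ ^ p) := by
    intro ω
    have e1 : ∑ k ∈ J, ((ε k ω : ℝ) : ℂ) * c k =
        ((∑ k ∈ J, (c k).re * ε k ω : ℝ) : ℂ) +
          ((∑ k ∈ J, (c k).im * ε k ω : ℝ) : ℂ) * Complex.I := by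
      push_cast
      rw [Finset.sum_mul, ← Finset.sum_add_distrib]
      refine Finset.sum_congr rfl fun k _ => ?_
      nth_rewrite 1 [← Complex.re_add_im (c k)]
      ring
    have e2 : ∀ r : ℝ, ‖(r : ℂ)‖ₑ = ‖r‖ₑ := fun r => by
      rw [← ofReal_norm, Complex.norm_real, ofReal_norm]
    have e3 : ‖Complex.I‖ₑ = 1 := by rw [← ofReal_norm, Complex.norm_I]; simp
    rw [e1]
    calc _ ≤ (‖(∑ k ∈ J, (c k).re * ε k ω : ℝ)‖ₑ + ‖(∑ k ∈ J, (c k).im * ε k ω : ℝ)‖ₑ) ^ p := by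
          refine ENNReal.rpow_le_rpow ?_ (by linarith)
          refine (enorm_add_le _ _).trans ?_
          rw [enorm_mul, e2, e2, e3, mul_one]
      _ ≤ 2 ^ (p - 1) * (‖(∑ k ∈ J, (c k).re * ε k ω : ℝ)‖ₑ ^ p +
            ‖(∑ k ∈ J, (c k).im * ε k ω : ℝ)‖ₑ ^ p) :=
          ENNReal.rpow_add_le_mul_rpow_add_rpow _ _ (by linarith)
      _ ≤ _ := by
          refine mul_le_mul' ?_ le_rfl
          calc (2 : ℝ≥0∞) ^ (p - 1) ≤ 2 ^ (3 : ℝ) :=
                ENNReal.rpow_le_rpow_of_exponent_le (by norm_num) (by linarith)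
            _ = 8 := by rw [ENNReal.rpow_ofNat]; norm_num
  have mr : Measurable fun ω => ‖∑ k ∈ J, (c k).re * ε k ω‖ₑ ^ p :=
    (Finset.measurable_fun_sum _ fun k _ => (hm k).const_mul _).enorm.pow_const p
  calc ∫⁻ ω, ‖∑ k ∈ J, ((ε k ω : ℝ) : ℂ) * c k‖ₑ ^ p ∂P
      ≤ ∫⁻ ω, 8 * (‖∑ k ∈ J, (c k).re * ε k ω‖ₑ ^ p + ‖∑ k ∈ J, (c k).im * ε k ω‖ₑ ^ p) ∂P :=
        lintegral_mono hpt
    _ = 8 * ((∫⁻ ω, ‖∑ k ∈ J, (c k).re * ε k ω‖ₑ ^ p ∂P) +
          ∫⁻ ω, ‖∑ k ∈ J, (c k).im * ε k ω‖ₑ ^ p ∂P) := by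
        rw [lintegral_const_mul' _ _ (by norm_num), lintegral_add_left mr]
    _ ≤ 8 * (ENNReal.ofReal (K0 * S ^ (p / 2)) + ENNReal.ofReal (K0 * S ^ (p / 2))) := by
        gcongr
        · exact r1.trans (ENNReal.ofReal_le_ofReal (mul_le_mul_of_nonneg_left s1 hK.le))
        · exact r2.trans (ENNReal.ofReal_le_ofReal (mul_le_mul_of_nonneg_left s2 hK.le))
    _ = ENNReal.ofReal (16 * K0) * (∑ k ∈ J, ‖c k‖ₑ ^ 2) ^ (p / 2) := by
        rw [eS, ENNReal.ofReal_mul hK.le, ENNReal.ofReal_mul (by norm_num)]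
        have : ENNReal.ofReal 16 = 16 := by norm_num
        rw [this]
        ring

/-- Khintchine's inequality for infinite sums -/
lemma kh_inf [Countable ι] (hm : ∀ k, Measurable (ε k)) (hi : iIndepFun ε P)
    (hv : ∀ k ω, ε k ω ∈ Icc (-1 : ℝ) 1) (h0 : ∀ k, ∫ ω, ε k ω ∂P = 0)
    {p : ℝ} (hp : 2 ≤ p) (hp4 : p ≤ 4) (c : ι → ℂ) (X : Ω → ℂ)
    (hX : ∀ ω, HasSum (fun k => ((ε k ω : ℝ) : ℂ) * c k) (X ω)) :
    ∫⁻ ω, ‖X ω‖ₑ ^ p ∂P ≤ ENNReal.ofReal (16 * K0) * (∑' k, ‖c k‖ₑ ^ 2) ^ (p / 2) := by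
  obtain ⟨J, hJ⟩ := exists_seq_tendsto (atTop : Filter (Finset ι))
  have hmJ : ∀ n, Measurable fun ω => ‖∑ k ∈ J n, ((ε k ω : ℝ) : ℂ) * c k‖ₑ ^ p := fun n =>
    (Finset.measurable_fun_sum _ fun k _ =>
      (Complex.measurable_ofReal.comp (hm k)).mul_const _).enorm.pow_const p
  calc ∫⁻ ω, ‖X ω‖ₑ ^ p ∂P
      = ∫⁻ ω, liminf (fun n => ‖∑ k ∈ J n, ((ε k ω : ℝ) : ℂ) * c k‖ₑ ^ p) atTop ∂P := by
        refine lintegral_congr fun ω => ?_
        symm
        apply Tendsto.liminf_eq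
        exact (ENNReal.continuous_rpow_const.tendsto _).comp
          ((continuous_enorm.tendsto _).comp ((hX ω).comp hJ))
    _ ≤ liminf (fun n => ∫⁻ ω, ‖∑ k ∈ J n, ((ε k ω : ℝ) : ℂ) * c k‖ₑ ^ p ∂P) atTop :=
        lintegral_liminf_le hmJ
    _ ≤ _ := by
        refine liminf_le_of_le (by isBoundedDefault) ?_
        intro b hb
        obtain ⟨n, hn⟩ := hb.exists
        refine hn.trans ((kh_fin hm hi hv h0 hp hp4 (J n) c).trans ?_)
        gcongr
        exact ENNReal.sum_le_tsum _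

end kh

section part
variable {m : ℕ}

/-- **random signs turn `L²` into `L^p`** (partition into sets of measure at most `V`) -/
theorem rand_k {Ω : Type} [MeasurableSpace Ω] {P : Measure Ω} [IsProbabilityMeasure P]
    {ε : ℕ → Ω → ℝ} (hm : ∀ k, Measurable (ε k)) (hi : iIndepFun ε P)
    (hv : ∀ k ω, ε k ω ∈ Icc (-1 : ℝ) 1) (h0 : ∀ k, ∫ ω, ε k ω ∂P = 0)
    {κ : (Fin m → ℝ) → ℕ} (hκ : Measurable κ) {V : ℝ≥0∞} (hV : V ≠ ⊤)
    (hκV : ∀ k, volume {η | κ η = k} ≤ V)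
    {p : ℝ} (hp : 2 ≤ p) (hp4 : p ≤ 4) {H : (Fin m → ℝ) → ℂ} (h1 : Integrable H)
    (h2 : MemLp H 2) :
    ∫⁻ y : Fin m → ℝ, ∫⁻ ω, ‖∫ η : Fin m → ℝ, e (∑ i, y i * η i) *
        (((ε (κ η) ω : ℝ) : ℂ) * H η)‖ₑ ^ p ∂P ≤
      ENNReal.ofReal (16 * K0) * V ^ (p / 2 - 1) *
        (∫⁻ η : Fin m → ℝ, ‖H η‖ₑ ^ 2) ^ (p / 2) := by
  obtain ⟨Qc, hQ⟩ : ∃ Qc : ℕ → Set (Fin m → ℝ), Qc = fun k => {η | κ η = k} := ⟨_, rfl⟩
  have Qc_mem : ∀ k η, η ∈ Qc k ↔ κ η = k := fun k η => by rw [hQ]; rfl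
  have Qc_meas : ∀ k, MeasurableSet (Qc k) := fun k => by
    rw [hQ]; exact hκ (measurableSet_singleton k)
  have Qc_vol : ∀ k, volume (Qc k) ≤ V := fun k => by rw [hQ]; exact hκV k
  have Qc_disj : Pairwise (Function.onFun Disjoint Qc) := by
    intro k l hkl
    rw [Function.onFun, Set.disjoint_left]
    intro η h1 h2
    exact hkl (((Qc_mem _ _).1 h1).symm.trans ((Qc_mem _ _).1 h2))
  have Qc_union : (⋃ k, Qc k) = univ := by
    ext η
    simp only [mem_iUnion, mem_univ, iff_true]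
    exact ⟨κ η, (Qc_mem _ _).2 rfl⟩
  obtain ⟨A, hA⟩ : ∃ A : ℝ≥0∞, A = ∫⁻ η : Fin m → ℝ, ‖H η‖ₑ ^ 2 := ⟨_, rfl⟩
  have hAt : A ≠ ⊤ := by
    have h := h2.eLpNorm_lt_top
    rw [eLpNorm_lt_top_iff_lintegral_rpow_enorm_lt_top (by norm_num) (by norm_num)] at h
    rw [hA]
    have h' : ∫⁻ η : Fin m → ℝ, ‖H η‖ₑ ^ 2 < ⊤ := by simpa using h
    exact h'.ne
  obtain ⟨F, hF⟩ : ∃ F : ℕ → (Fin m → ℝ) → ℂ, F = fun k y =>
    ∫ η in Qc k, e (∑ i, y i * η i) * H η := ⟨_, rfl⟩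
  have hec : ∀ y : Fin m → ℝ, Continuous fun η : Fin m → ℝ => e (∑ i, y i * η i) := fun y =>
    continuous_e.comp (by fun_prop)
  -- the sum over the cubes
  have hsum : ∀ y ω, HasSum (fun k => ((ε k ω : ℝ) : ℂ) * F k y)
      (∫ η : Fin m → ℝ, e (∑ i, y i * η i) * (((ε (κ η) ω : ℝ) : ℂ) * H η)) := by
    intro y ω
    have hmeas : AEStronglyMeasurable (fun η : Fin m → ℝ => e (∑ i, y i * η i) *
        (((ε (κ η) ω : ℝ) : ℂ) * H η)) volume := by
      refine (hec y).aestronglyMeasurable.mul (AEStronglyMeasurable.mul ?_ h1.1)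
      refine Measurable.aestronglyMeasurable ?_
      refine Complex.measurable_ofReal.comp ?_
      exact (measurable_of_countable fun k : ℕ => ε k ω).comp hκ
    have hint : Integrable (fun η : Fin m → ℝ => e (∑ i, y i * η i) *
        (((ε (κ η) ω : ℝ) : ℂ) * H η)) := by
      refine h1.norm.mono' hmeas (Eventually.of_forall fun η => ?_)
      rw [norm_mul, norm_e, one_mul, norm_mul, Complex.norm_real, Real.norm_eq_abs]
      exact mul_le_of_le_one_left (norm_nonneg _) (abs_le.2 (hv _ _))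
    have h := hasSum_integral_iUnion (f := fun η : Fin m → ℝ => e (∑ i, y i * η i) *
        (((ε (κ η) ω : ℝ) : ℂ) * H η)) (μ := volume) Qc_meas Qc_disj hint.integrableOn
    rw [Qc_union, setIntegral_univ] at h
    have e1 : (fun k => ((ε k ω : ℝ) : ℂ) * F k y) = fun n => ∫ x : Fin m → ℝ in Qc n,
        e (∑ i, y i * x i) * (((ε (κ x) ω : ℝ) : ℂ) * H x) := by
      funext k
      rw [hF]
      simp only
      rw [← integral_const_mul]
      refine setIntegral_congr_fun (Qc_meas k) fun η hη => ?_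
      have : κ η = k := (Qc_mem _ _).1 hη
      rw [this]
      ring
    rw [e1]
    exact h
  -- measurability
  have hFm : ∀ k, Measurable (F k) := by
    intro k
    rw [hF]
    have hHk : AEStronglyMeasurable H (volume.restrict (Qc k)) := h1.1.restrict
    have hc : Continuous fun y : Fin m → ℝ => ∫ η in Qc k, e (∑ i, y i * η i) * H η := by
      refine continuous_of_dominated (bound := fun η => ‖H η‖) ?_ ?_ h1.norm.restrict ?_
      · intro y
        exact (hec y).aestronglyMeasurable.mul hHk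
      · intro y
        exact Eventually.of_forall fun η => by rw [norm_mul, norm_e, one_mul]
      · exact Eventually.of_forall fun η =>
          (continuous_e.comp (by fun_prop)).mul continuous_const
    exact hc.measurable
  obtain ⟨T, hT⟩ : ∃ T : (Fin m → ℝ) → ℝ≥0∞, T = fun y => ∑' k, ‖F k y‖ₑ ^ 2 := ⟨_, rfl⟩
  have hTm : Measurable T := by
    rw [hT]
    exact Measurable.tsum fun k => (hFm k).enorm.pow_const 2
  have hAsum : ∑' k, ∫⁻ η in Qc k, ‖H η‖ₑ ^ 2 = A := by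
    rw [hA, ← lintegral_iUnion Qc_meas Qc_disj, Qc_union, setLIntegral_univ]
  -- sup bound
  have hTA : ∀ y, T y ≤ V * A := by
    intro y
    rw [← hAsum, hT, ← ENNReal.tsum_mul_left]
    refine ENNReal.tsum_le_tsum fun k => ?_
    rw [hF]
    simp only
    have g1 : ‖∫ η in Qc k, e (∑ i, y i * η i) * H η‖ₑ ≤ ∫⁻ η in Qc k, ‖H η‖ₑ := by
      refine (enorm_integral_le_lintegral_enorm _).trans (le_of_eq ?_)
      refine lintegral_congr fun η => ?_
      rw [enorm_mul, ← ofReal_norm (e _), norm_e, ENNReal.ofReal_one, one_mul]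
    have g2 := Pool.Agent.TH496.MOD.cs_l (volume.restrict (Qc k)) (fun η => ‖H η‖ₑ)
      h1.1.enorm.restrict
    rw [Measure.restrict_apply_univ] at g2
    exact ((pow_le_pow_left' g1 2).trans g2).trans (mul_le_mul' (Qc_vol k) le_rfl)
  have hVA : V * A ≠ ⊤ := ENNReal.mul_ne_top hV hAt
  -- Plancherel
  have hTI : ∫⁻ y, T y = A := by
    rw [hT, lintegral_tsum fun k => ((hFm k).enorm.pow_const 2).aemeasurable, ← hAsum]
    refine tsum_congr fun k => ?_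
    have g1 : Integrable ((Qc k).indicator H) := h1.indicator (Qc_meas k)
    have g2 : MemLp ((Qc k).indicator H) 2 := h2.indicator (Qc_meas k)
    have g3 := ftm_planch _ g1 g2
    have g4 : ∀ y : Fin m → ℝ, (∫ η : Fin m → ℝ, e (∑ i, y i * η i) * (Qc k).indicator H η) =
        F k y := by
      intro y
      rw [hF]
      simp only
      rw [← integral_indicator (Qc_meas k)]
      refine integral_congr_ae (Eventually.of_forall fun η => ?_)
      by_cases hη : η ∈ Qc k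
      · simp only [indicator_of_mem hη]
      · simp only [indicator_of_notMem hη, mul_zero]
    simp only [g4] at g3
    rw [g3, ← lintegral_indicator (Qc_meas k)]
    refine lintegral_congr fun η => ?_
    by_cases hη : η ∈ Qc k
    · simp only [indicator_of_mem hη]
    · simp only [indicator_of_notMem hη]; simp
  have hkh : ∀ y, ∫⁻ ω, ‖∫ η : Fin m → ℝ, e (∑ i, y i * η i) *
        (((ε (κ η) ω : ℝ) : ℂ) * H η)‖ₑ ^ p ∂P ≤
      ENNReal.ofReal (16 * K0) * ((V * A) ^ (p / 2 - 1) * T y) := by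
    intro y
    refine (kh_inf hm hi hv h0 hp hp4 (fun k => F k y) _ (hsum y)).trans ?_
    refine mul_le_mul' le_rfl ?_
    have e1 : ∑' k, ‖F k y‖ₑ ^ 2 = T y := by rw [hT]
    rw [e1]
    rcases eq_or_ne (T y) 0 with hT0 | hT0
    · rw [hT0, ENNReal.zero_rpow_of_pos (by linarith)]; exact zero_le
    · have hTt : T y ≠ ⊤ := ne_top_of_le_ne_top hVA (hTA y)
      calc T y ^ (p / 2) = T y ^ (p / 2 - 1) * T y := by
            nth_rewrite 3 [← ENNReal.rpow_one (T y)]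
            rw [← ENNReal.rpow_add _ _ hT0 hTt]
            congr 1; ring
        _ ≤ (V * A) ^ (p / 2 - 1) * T y :=
            mul_le_mul' (ENNReal.rpow_le_rpow (hTA y) (by linarith)) le_rfl
  calc _ ≤ ∫⁻ y : Fin m → ℝ, ENNReal.ofReal (16 * K0) * ((V * A) ^ (p / 2 - 1) * T y) :=
        lintegral_mono hkh
    _ = ENNReal.ofReal (16 * K0) * ((V * A) ^ (p / 2 - 1) * A) := by
        rw [lintegral_const_mul' _ _ ENNReal.ofReal_ne_top,
          lintegral_const_mul' _ _ (ENNReal.rpow_ne_top_of_nonneg (by linarith) hVA), hTI]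
    _ ≤ _ := by
        rw [← hA, ENNReal.mul_rpow_of_nonneg _ _ (by linarith : 0 ≤ p / 2 - 1), mul_assoc, mul_assoc]
        refine mul_le_mul' le_rfl (mul_le_mul' le_rfl ?_)
        rcases eq_or_ne A 0 with hA0 | hA0
        · rw [hA0, mul_zero]; exact zero_le
        · refine le_of_eq ?_
          nth_rewrite 2 [← ENNReal.rpow_one A]
          rw [← ENNReal.rpow_add _ _ hA0 hAt]
          congr 1; ring

end part

end Pool.Agent.Q167.LS
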