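import Pool.Agent.Q167.LS.Mix
import Pool.Agent.Q167.LS.Rand
import Pool.Agent.TH280.LS.K3
set_option autoImplicit false

/-! # Assembly: the wave equation in Euclidean coordinates -/

open MeasureTheory Set Filter Topology ProbabilityTheory
open scoped ENNReal NNReal FourierTransform RealInnerProductSpace

namespace Pool.Agent.Q167.LS

open Pool.Agent.TH280.LS
open Pool.Agent.TH209.TP (GB Gb meas_Tm Tm_add gb_mc gb_ms int_Tm Ux_bound int_gauss meas_Ux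
  Adm.int)

variable {m : ℕ}

/-- multipliers in the first variables combined with a radial multiplier -/
noncomputable def RMs (m : ℕ) (M : ℝ → ℝ) (σ : (Fin m → ℝ) → ℝ)
    (f : EuclideanSpace ℝ (Fin (m + 1)) → ℂ) (z : EuclideanSpace ℝ (Fin (m + 1))) : ℂ :=
  ∫ ζ : EuclideanSpace ℝ (Fin (m + 1)), e (⟪z, ζ⟫ : ℝ) *
    (((σ (Zc m ζ).2 : ℝ) : ℂ) * (((M ‖ζ‖ : ℝ) : ℂ) * 𝓕 f ζ))

lemma Ux_smul (a : ℝ) (M : ℝ → ℝ) (c : ℂ) (G : ℝ → ℂ) (x : ℝ) :
    Ux a M (fun z => c * G z) x = c * Ux a M G x := by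
  have h1 : ∀ ξ, ft (fun z => c * G z) ξ = c * ft G ξ := by
    intro ξ
    unfold ft
    rw [← integral_const_mul]
    refine integral_congr_ae (Eventually.of_forall fun z => ?_)
    simp only
    ring
  unfold Ux
  rw [← integral_const_mul]
  refine integral_congr_ae (Eventually.of_forall fun ξ => ?_)
  simp only
  rw [h1]
  ring

/-- the operator in coordinates -/
theorem RMs_eq (M : ℝ → ℝ) (hM : Measurable M) {C τ : ℝ} (hτ : 0 < τ)
    (hb : ∀ r, 0 ≤ r → |M r| ≤ C * Real.exp (-(τ * r ^ 2))) {σ : (Fin m → ℝ) → ℝ}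
    (hσ : Measurable σ) (hσ1 : ∀ η, |σ η| ≤ 1) {f : ℝ × (Fin m → ℝ) → ℂ}
    (hf : Integrable f) (z : EuclideanSpace ℝ (Fin (m + 1))) :
    RMs m M σ (fun z => f (Zc m z)) z = ∫ η : Fin m → ℝ, e (∑ i, (Zc m z).2 i * η i) *
      (((σ η : ℝ) : ℂ) * Ux (le2 η) M (GG m f η) (Zc m z).1) := by
  unfold RMs
  have h1 : ∫ ζ : EuclideanSpace ℝ (Fin (m + 1)), e (⟪z, ζ⟫ : ℝ) *
      (((σ (Zc m ζ).2 : ℝ) : ℂ) * (((M ‖ζ‖ : ℝ) : ℂ) * 𝓕 (fun z => f (Zc m z)) ζ)) =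
      ∫ q : ℝ × (Fin m → ℝ), ((σ q.2 : ℝ) : ℂ) *
        (e (∑ i, (Zc m z).2 i * q.2 i) * (e ((Zc m z).1 * q.1) *
        (((M (ra (Real.sqrt (∑ i, q.2 i ^ 2)) q.1) : ℝ) : ℂ) * ft (GG m f q.2) q.1))) := by
    rw [← (Zc_mp m).integral_comp (Zc m).measurableEmbedding]
    refine integral_congr_ae (Filter.Eventually.of_forall fun ζ => ?_)
    simp only
    rw [fourier_GG m hf, ra_eq, ← norm_Zc, ← mul_assoc (e _) (e _), ← e_add, inner_Zc]
    have e1 : (Zc m z).1 * (Zc m ζ).1 + ∑ i : Fin m, (Zc m z).2 i * (Zc m ζ).2 i =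
      ∑ i : Fin m, (Zc m z).2 i * (Zc m ζ).2 i + (Zc m z).1 * (Zc m ζ).1 := add_comm _ _
    rw [e1]
    ring
  rw [h1]
  set K : ℝ := ∫ x, ∫ y, ‖f (x, y)‖ with hK
  have hmeas : AEStronglyMeasurable (fun q : ℝ × (Fin m → ℝ) =>
      e (∑ i, (Zc m z).2 i * q.2 i) * (e ((Zc m z).1 * q.1) *
        (((M (ra (Real.sqrt (∑ i, q.2 i ^ 2)) q.1) : ℝ) : ℂ) * ft (GG m f q.2) q.1))) := by
    have hF : Continuous (𝓕 (fun z => f (Zc m z))) :=
      VectorFourier.fourierIntegral_continuous Real.continuous_fourierChar continuous_inner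
        ((Zc_mp m).integrable_comp_of_integrable hf)
    have h2 : (fun q : ℝ × (Fin m → ℝ) => ft (GG m f q.2) q.1) =
        fun q => 𝓕 (fun z => f (Zc m z)) ((Zc m).symm q) := by
      funext q
      rw [fourier_GG m hf, MeasurableEquiv.apply_symm_apply]
    have h3 : Measurable (fun q : ℝ × (Fin m → ℝ) => ft (GG m f q.2) q.1) := by
      rw [h2]; exact hF.measurable.comp (Zc m).symm.measurable
    have h4 : Measurable (fun q : ℝ × (Fin m → ℝ) => M (ra (Real.sqrt (∑ i, q.2 i ^ 2)) q.1)) := by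
      refine hM.comp ?_
      unfold ra
      fun_prop
    refine Measurable.aestronglyMeasurable ?_
    refine Measurable.mul (measurable_e.comp (by fun_prop)) (Measurable.mul
      (measurable_e.comp (by fun_prop)) (Measurable.mul (Complex.measurable_ofReal.comp h4) h3))
  have hint0 : Integrable (fun q : ℝ × (Fin m → ℝ) =>
      e (∑ i, (Zc m z).2 i * q.2 i) * (e ((Zc m z).1 * q.1) *
        (((M (ra (Real.sqrt (∑ i, q.2 i ^ 2)) q.1) : ℝ) : ℂ) * ft (GG m f q.2) q.1))) := by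
    refine Integrable.mono' (((gauss_int m hτ).const_mul C).mul_const K) hmeas ?_
    refine Filter.Eventually.of_forall fun q => ?_
    rw [norm_mul, norm_mul, norm_mul, norm_e, norm_e, one_mul, one_mul, Complex.norm_real]
    have h5 := hb (ra (Real.sqrt (∑ i, q.2 i ^ 2)) q.1) (Real.sqrt_nonneg _)
    have h6 := norm_ft_GG m hf q.2 q.1
    have h7 : ra (Real.sqrt (∑ i, q.2 i ^ 2)) q.1 ^ 2 = q.1 ^ 2 + ∑ i, q.2 i ^ 2 := by
      rw [ra_eq, Real.sq_sqrt]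
      exact add_nonneg (sq_nonneg _) (Finset.sum_nonneg fun i _ => sq_nonneg _)
    rw [h7] at h5
    rw [Real.norm_eq_abs]
    exact mul_le_mul h5 h6 (norm_nonneg _) ((abs_nonneg _).trans h5)
  have hint : Integrable (fun q : ℝ × (Fin m → ℝ) => ((σ q.2 : ℝ) : ℂ) *
      (e (∑ i, (Zc m z).2 i * q.2 i) * (e ((Zc m z).1 * q.1) *
        (((M (ra (Real.sqrt (∑ i, q.2 i ^ 2)) q.1) : ℝ) : ℂ) * ft (GG m f q.2) q.1)))) := by
    refine hint0.bdd_mul (c := 1) ?_ (Eventually.of_forall fun q => ?_)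
    · exact (Complex.measurable_ofReal.comp (hσ.comp measurable_snd)).aestronglyMeasurable
    · rw [Complex.norm_real, Real.norm_eq_abs]; exact hσ1 _
  rw [Measure.volume_eq_prod, integral_prod_symm _ hint]
  refine integral_congr_ae (Filter.Eventually.of_forall fun η => ?_)
  unfold Ux le2
  simp only
  rw [integral_const_mul, integral_const_mul]
  ring

/-- the solution with a multiplier in the first variables -/
noncomputable def wvs (m : ℕ) (σ : (Fin m → ℝ) → ℝ) (s τ : ℝ)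
    (f0 f1 : EuclideanSpace ℝ (Fin (m + 1)) → ℂ) (t : ℝ)
    (z : EuclideanSpace ℝ (Fin (m + 1))) : ℂ :=
  ∫ ζ : EuclideanSpace ℝ (Fin (m + 1)), e (⟪z, ζ⟫ : ℝ) * (((σ (Zc m ζ).2 : ℝ) : ℂ) *
    (((Real.exp (-(τ * ‖ζ‖ ^ 2)) : ℝ) : ℂ) *
    (((Real.cos (2 * Real.pi * (t * ‖ζ‖)) *
        (1 + 4 * Real.pi ^ 2 * ‖ζ‖ ^ 2) ^ (-(s / 2)) : ℝ) : ℂ) * 𝓕 f0 ζ +
     ((Real.sin (2 * Real.pi * (t * ‖ζ‖)) / (2 * Real.pi * ‖ζ‖) *
        (1 + 4 * Real.pi ^ 2 * ‖ζ‖ ^ 2) ^ ((1 - s) / 2) : ℝ) : ℂ) * 𝓕 f1 ζ)))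

lemma int_piece_s (M : ℝ → ℝ) (hM : Measurable M) {C τ : ℝ} (hτ : 0 < τ)
    (hb : ∀ r, 0 ≤ r → |M r| ≤ C * Real.exp (-(τ * r ^ 2))) {σ : (Fin m → ℝ) → ℝ}
    (hσ : Measurable σ) (hσ1 : ∀ η, |σ η| ≤ 1)
    {f : EuclideanSpace ℝ (Fin (m + 1)) → ℂ} (hf : Integrable f)
    (z : EuclideanSpace ℝ (Fin (m + 1))) :
    Integrable (fun ζ => e (⟪z, ζ⟫ : ℝ) * (((σ (Zc m ζ).2 : ℝ) : ℂ) *
      (((M ‖ζ‖ : ℝ) : ℂ) * 𝓕 f ζ))) := by
  have h := int_piece m M hM hτ hb hf z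
  have h2 : Integrable (fun ζ : EuclideanSpace ℝ (Fin (m + 1)) => ((σ (Zc m ζ).2 : ℝ) : ℂ) *
      (e (⟪z, ζ⟫ : ℝ) * (((M ‖ζ‖ : ℝ) : ℂ) * 𝓕 f ζ))) := by
    refine h.bdd_mul (c := 1) ?_ (Eventually.of_forall fun q => ?_)
    · exact (Complex.measurable_ofReal.comp
        (hσ.comp (measurable_snd.comp (Zc m).measurable))).aestronglyMeasurable
    · rw [Complex.norm_real, Real.norm_eq_abs]; exact hσ1 _
  refine h2.congr (Eventually.of_forall fun ζ => ?_)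
  simp only
  ring

/-- the partial Fourier transform of the solution -/
noncomputable def HH (s τ t : ℝ) (g0 g1 : ℝ × (Fin m → ℝ) → ℂ) (x : ℝ) (η : Fin m → ℝ) : ℂ :=
  Ux (le2 η) (mc s τ t) (GG m g0 η) x + Ux (le2 η) (ms s τ t) (GG m g1 η) x

lemma RMs_congr (M : ℝ → ℝ) (σ : (Fin m → ℝ) → ℝ) {f g : EuclideanSpace ℝ (Fin (m + 1)) → ℂ}
    (h : f =ᵐ[volume] g) : RMs m M σ f = RMs m M σ g := by
  have h1 : 𝓕 f = 𝓕 g := by
    funext ζ
    rw [Real.fourier_eq, Real.fourier_eq]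
    refine integral_congr_ae ?_
    filter_upwards [h] with v hv
    rw [hv]
  funext z
  unfold RMs
  rw [h1]

theorem wvs_eq {s τ t : ℝ} (hs : 0 < s) (hτ : 0 < τ) (ht : |t| ≤ 2) {σ : (Fin m → ℝ) → ℝ}
    (hσ : Measurable σ) (hσ1 : ∀ η, |σ η| ≤ 1)
    {f0 f1 : EuclideanSpace ℝ (Fin (m + 1)) → ℂ} (h0 : Integrable f0) (h1 : Integrable f1)
    {g0 g1 : ℝ × (Fin m → ℝ) → ℂ} (k0 : Integrable g0) (k1 : Integrable g1)
    (m0 : Measurable g0) (m1 : Measurable g1)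
    (e0 : f0 =ᵐ[volume] fun z => g0 (Zc m z)) (e1 : f1 =ᵐ[volume] fun z => g1 (Zc m z))
    (z : EuclideanSpace ℝ (Fin (m + 1))) :
    wvs m σ s τ f0 f1 t z = ∫ η : Fin m → ℝ, e (∑ i, (Zc m z).2 i * η i) *
      (((σ η : ℝ) : ℂ) * HH s τ t g0 g1 (Zc m z).1 η) := by
  have hb0 : ∀ r, 0 ≤ r → |mc s τ t r| ≤ 1 * Real.exp (-(τ * r ^ 2)) := fun r _ => mc_le s τ t r hs
  have hb1 : ∀ r, 0 ≤ r → |ms s τ t r| ≤ 3 * Real.exp (-(τ * r ^ 2)) := fun r hr =>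
    ms_le s τ t r hs ht hr
  have h2 : wvs m σ s τ f0 f1 t z = RMs m (mc s τ t) σ f0 z + RMs m (ms s τ t) σ f1 z := by
    unfold RMs wvs
    rw [← integral_add
      (int_piece_s (mc s τ t) (measurable_mc s τ t) hτ hb0 hσ hσ1 h0 z)
      (int_piece_s (ms s τ t) (measurable_ms s τ t) hτ hb1 hσ hσ1 h1 z)]
    refine integral_congr_ae (Eventually.of_forall fun ζ => ?_)
    simp only
    unfold mc ms
    push_cast
    ring
  have hint : ∀ (M : ℝ → ℝ), Measurable M → Gb M → ∀ g : ℝ × (Fin m → ℝ) → ℂ, Integrable g →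
      Measurable g → Integrable (fun η : Fin m → ℝ => e (∑ i, (Zc m z).2 i * η i) *
        (((σ η : ℝ) : ℂ) * Ux (le2 η) M (GG m g η) (Zc m z).1)) := by
    intro M hM hb g hg hgm
    have h3 := int_Tm hM hb (GG_adm m hg hgm) (Zc m z).2 (Zc m z).1
    have h4 : Integrable (fun η : Fin m → ℝ => ((σ η : ℝ) : ℂ) *
        (e (∑ i, (Zc m z).2 i * η i) * Ux (Real.sqrt (∑ i, η i ^ 2)) M (GG m g η) (Zc m z).1)) := by
      refine h3.bdd_mul (c := 1) ?_ (Eventually.of_forall fun q => ?_)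
      · exact (Complex.measurable_ofReal.comp hσ).aestronglyMeasurable
      · rw [Complex.norm_real, Real.norm_eq_abs]; exact hσ1 _
    refine h4.congr (Eventually.of_forall fun η => ?_)
    unfold le2
    simp only
    ring
  rw [h2, RMs_congr _ _ e0, RMs_congr _ _ e1, RMs_eq _ (measurable_mc s τ t) hτ hb0 hσ hσ1 k0,
    RMs_eq _ (measurable_ms s τ t) hτ hb1 hσ hσ1 k1,
    ← integral_add (hint _ (measurable_mc s τ t) ((gb_mc hs hτ).bd t) g0 k0 m0)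
      (hint _ (measurable_ms s τ t) ((gb_ms hs hτ).bd t) g1 k1 m1)]
  refine integral_congr_ae (Eventually.of_forall fun η => ?_)
  unfold HH
  simp only
  ring

end Pool.Agent.Q167.LS
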