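import Pool.Agent.Q167.LS.Dual
import Pool.Agent.TH73.LS_LS4
set_option autoImplicit false

/-! # The bilinear estimate for two different masses -/

open MeasureTheory Set
open scoped ENNReal

namespace Pool.Agent.Q167.LS

open Pool.Agent.TH280.LS
open Pool.Agent.TH73.LS4

/-- the phase for the bilinear form -/
noncomputable def g2 (a b ζ ξ : ℝ) : ℝ := ra a (ξ + ζ / 2) + ra b (ζ / 2 - ξ)

/-- its derivative -/
noncomputable def g2' (a b ζ ξ : ℝ) : ℝ :=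
  (ξ + ζ / 2) / ra a (ξ + ζ / 2) - (ζ / 2 - ξ) / ra b (ζ / 2 - ξ)

lemma cv_g2 {a b : ℝ} (ha : 0 < a) (hb : 0 < b) (ζ : ℝ) : Cv (g2 a b ζ) (g2' a b ζ) := by
  refine ⟨fun ξ => ?_, ?_, fun ξ => ?_, (ζ / 2) * ((a - b) / (a + b)), ?_⟩
  · have h1 := (ra_deriv ha (ξ + ζ / 2)).comp_add_const ξ (ζ / 2)
    have h2 := (ra_deriv hb (ζ / 2 - ξ)).comp_const_sub (ζ / 2) ξ
    have h3 := h1.add h2
    unfold g2'
    rw [sub_eq_add_neg]
    exact h3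
  · intro x y hxy
    unfold g2'
    have h1 := hp_mono ha (show x + ζ / 2 ≤ y + ζ / 2 by linarith)
    have h2 := hp_mono hb (show ζ / 2 - y ≤ ζ / 2 - x by linarith)
    simp only at h1 h2
    linarith
  · unfold g2'
    have h1 := hp_abs ha (ξ + ζ / 2)
    have h2 := hp_abs hb (ζ / 2 - ξ)
    have h3 := abs_sub ((ξ + ζ / 2) / ra a (ξ + ζ / 2)) ((ζ / 2 - ξ) / ra b (ζ / 2 - ξ))
    linarith
  · unfold g2'
    rw [ra_sin ha, ra_sin hb, sub_eq_zero]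
    have hab : a + b ≠ 0 := by positivity
    have e1 : ((ζ / 2) * ((a - b) / (a + b)) + ζ / 2) / a = ζ / (a + b) := by
      field_simp; ring
    have e2 : (ζ / 2 - (ζ / 2) * ((a - b) / (a + b))) / b = ζ / (a + b) := by
      field_simp; ring
    rw [e1, e2]

lemma cut_mul2 {N : ℝ} (hN : 1 ≤ N) {χ θ : ℝ → ℂ} (hχ : Cut 1 N χ) (hθ : Cut 1 N θ) (ζ : ℝ) :
    Cut 2 N (fun ξ => χ (ξ + ζ / 2) * θ (ζ / 2 - ξ)) := by
  obtain ⟨h1, h2, h3⟩ := hχ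
  obtain ⟨k1, k2, k3⟩ := hθ
  refine ⟨fun ξ => ?_, fun ξ ξ' => ?_, fun ξ hξ => ?_⟩
  · rw [norm_mul]
    exact mul_le_one₀ (h1 _) (norm_nonneg _) (k1 _)
  · have e : χ (ξ + ζ / 2) * θ (ζ / 2 - ξ) - χ (ξ' + ζ / 2) * θ (ζ / 2 - ξ') =
        (χ (ξ + ζ / 2) - χ (ξ' + ζ / 2)) * θ (ζ / 2 - ξ) +
        χ (ξ' + ζ / 2) * (θ (ζ / 2 - ξ) - θ (ζ / 2 - ξ')) := by ring
    rw [e]
    have a1 : ‖(χ (ξ + ζ / 2) - χ (ξ' + ζ / 2)) * θ (ζ / 2 - ξ)‖ ≤ 1 / N * |ξ - ξ'| := by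
      rw [norm_mul]
      have b1 := h2 (ξ + ζ / 2) (ξ' + ζ / 2)
      have b2 : ξ + ζ / 2 - (ξ' + ζ / 2) = ξ - ξ' := by ring
      rw [b2] at b1
      calc ‖χ (ξ + ζ / 2) - χ (ξ' + ζ / 2)‖ * ‖θ (ζ / 2 - ξ)‖ ≤
            (1 / N * |ξ - ξ'|) * 1 :=
            mul_le_mul b1 (k1 _) (norm_nonneg _) (by positivity)
        _ = _ := mul_one _
    have a2 : ‖χ (ξ' + ζ / 2) * (θ (ζ / 2 - ξ) - θ (ζ / 2 - ξ'))‖ ≤ 1 / N * |ξ - ξ'| := by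
      rw [norm_mul]
      have b1 := k2 (ζ / 2 - ξ) (ζ / 2 - ξ')
      have b2 : ζ / 2 - ξ - (ζ / 2 - ξ') = -(ξ - ξ') := by ring
      rw [b2, abs_neg] at b1
      calc ‖χ (ξ' + ζ / 2)‖ * ‖θ (ζ / 2 - ξ) - θ (ζ / 2 - ξ')‖ ≤
            1 * (1 / N * |ξ - ξ'|) :=
            mul_le_mul (h1 _) b1 (norm_nonneg _) (by norm_num)
        _ = _ := one_mul _
    calc _ ≤ ‖(χ (ξ + ζ / 2) - χ (ξ' + ζ / 2)) * θ (ζ / 2 - ξ)‖ +
          ‖χ (ξ' + ζ / 2) * (θ (ζ / 2 - ξ) - θ (ζ / 2 - ξ'))‖ := norm_add_le _ _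
      _ ≤ 1 / N * |ξ - ξ'| + 1 / N * |ξ - ξ'| := add_le_add a1 a2
      _ = 2 / N * |ξ - ξ'| := by ring
  · by_cases c1 : 2 * N < |ξ + ζ / 2|
    · simp only
      rw [h3 _ c1, zero_mul]
    · have c2 : 2 * N < |ζ / 2 - ξ| := by
        by_contra c2
        push Not at c1 c2
        have e : 2 * ξ = (ξ + ζ / 2) - (ζ / 2 - ξ) := by ring
        have h4 := abs_sub (ξ + ζ / 2) (ζ / 2 - ξ)
        rw [← e, abs_mul, abs_two] at h4
        linarith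
      simp only
      rw [k3 _ c2, mul_zero]

/-- the transform in the mean variable -/
noncomputable def b2 (G H : ℝ → ℂ) (ζ v : ℝ) : ℂ :=
  ∫ z : ℝ, (e (-(z * ζ)) * (G (z + v / 2) * H (z - v / 2)))

lemma ft_b2 {G H : ℝ → ℂ} (hG : Integrable G) (hH : Integrable H) (ζ ξ : ℝ) :
    ft (b2 G H ζ) ξ = ft G (ξ + ζ / 2) * ft H (ζ / 2 - ξ) := by
  have h := val_T (int_e hG (ξ + ζ / 2)) (int_e hH (ζ / 2 - ξ))
  have e1 : ft (b2 G H ζ) ξ = ∫ v : ℝ, ∫ z : ℝ,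
      (e (-((z + v / 2) * (ξ + ζ / 2))) * G (z + v / 2)) *
      (e (-((z - v / 2) * (ζ / 2 - ξ))) * H (z - v / 2)) := by
    unfold ft b2
    refine integral_congr_ae (Filter.Eventually.of_forall fun v => ?_)
    simp only
    rw [← integral_const_mul]
    refine integral_congr_ae (Filter.Eventually.of_forall fun z => ?_)
    simp only
    have e2 : e (-((z + v / 2) * (ξ + ζ / 2))) * e (-((z - v / 2) * (ζ / 2 - ξ))) =
        e (-(v * ξ)) * e (-(z * ζ)) := by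
      rw [← e_add, ← e_add]
      congr 1
      ring
    calc e (-(v * ξ)) * (e (-(z * ζ)) * (G (z + v / 2) * H (z - v / 2))) =
          (e (-(v * ξ)) * e (-(z * ζ))) * (G (z + v / 2) * H (z - v / 2)) := by ring
      _ = _ := by rw [← e2]; ring
  rw [e1, h]
  rfl

lemma int_b2 {G H : ℝ → ℂ} (hG : Integrable G) (hH : Integrable H) (ζ : ℝ) :
    Integrable (b2 G H ζ) := by
  have h := (int_T (int_e hG (ζ / 2)) (int_e hH (ζ / 2))).integral_prod_right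
  refine h.congr (Filter.Eventually.of_forall fun v => ?_)
  unfold b2
  simp only
  refine integral_congr_ae (Filter.Eventually.of_forall fun z => ?_)
  simp only
  have e2 : e (-((z + v / 2) * (ζ / 2))) * e (-((z - v / 2) * (ζ / 2))) = e (-(z * ζ)) := by
    rw [← e_add]
    congr 1
    ring
  rw [← e2]
  ring

lemma b2_eq_ft (G H : ℝ → ℂ) (ζ v : ℝ) :
    b2 G H ζ v = ft (fun z => G (z + v / 2) * H (z - v / 2)) ζ := rfl

/-- the bilinear expression -/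
noncomputable def Q2 (a b : ℝ) (χ θ G H : ℝ → ℂ) (t ζ : ℝ) : ℂ :=
  ∫ ξ : ℝ, qq a χ G t (ξ + ζ / 2) * qq b θ H t (ζ / 2 - ξ)

section data

variable {a b N : ℝ} {χ θ G H : ℝ → ℂ} (hN : 1 ≤ N) (hχ : Cut 1 N χ) (hθ : Cut 1 N θ)
  (hG : Integrable G) (hH : Integrable H)

include hN hχ hθ hG hH

lemma Q2_int (t : ℝ) : Integrable (Q2 a b χ θ G H t) :=
  (int_T' (qq_int (a := a) hN hχ hG t) (qq_int (a := b) hN hθ hH t)).integral_prod_right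

lemma Q2_bdd (t ζ : ℝ) : ‖Q2 a b χ θ G H t ζ‖ ≤ (∫ x, ‖H x‖) * ∫ ξ, ‖qq a χ G t ξ‖ := by
  have h1 := (qq_int (a := a) hN hχ hG t).norm
  have e1 : ∫ ξ, ‖qq a χ G t ξ‖ = ∫ ξ, ‖qq a χ G t (ξ + ζ / 2)‖ :=
    (integral_add_right_eq_self (fun ξ => ‖qq a χ G t ξ‖) (ζ / 2)).symm
  rw [e1, ← integral_const_mul]
  unfold Q2
  refine norm_integral_le_of_norm_le ((h1.comp_add_right (ζ / 2)).const_mul _)
    (Filter.Eventually.of_forall fun ξ => ?_)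
  rw [norm_mul, mul_comm]
  exact mul_le_mul_of_nonneg_right (qq_bdd hθ _ _) (norm_nonneg _)

lemma Vx_mul (t x : ℝ) : Vx a χ G t x * Vx b θ H t x =
    ∫ ζ : ℝ, e (x * ζ) * Q2 a b χ θ G H t ζ := by
  have hi : ∀ {c : ℝ} {χ G : ℝ → ℂ}, Cut 1 N χ → Integrable G →
      Integrable (fun ξ => e (x * ξ) * qq c χ G t ξ) := by
    intro c χ G hχ hG
    have h := (qq_int (a := c) hN hχ hG t)
    refine (h.norm).mono' ?_ (Filter.Eventually.of_forall fun ξ => ?_)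
    · have : Continuous fun ξ : ℝ => e (x * ξ) := continuous_e.comp (by fun_prop)
      exact this.aestronglyMeasurable.mul h.1
    · rw [norm_mul, norm_e, one_mul]
  have h := val_T' (hi (c := a) hχ hG) (hi (c := b) hθ hH)
  have e0 : ∀ (c : ℝ) (χ G : ℝ → ℂ), Vx c χ G t x = ∫ ξ, e (x * ξ) * qq c χ G t ξ :=
    fun _ _ _ => rfl
  rw [e0, e0, ← h]
  refine integral_congr_ae (Filter.Eventually.of_forall fun v => ?_)
  simp only
  unfold Q2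
  rw [← integral_const_mul]
  refine integral_congr_ae (Filter.Eventually.of_forall fun z => ?_)
  simp only
  have e2 : e (x * (z + v / 2)) * e (x * (v / 2 - z)) = e (x * v) := by
    rw [← e_add]
    congr 1
    ring
  rw [← e2]
  ring

lemma Vx_mul_four (t : ℝ) : ∫⁻ x : ℝ, ‖Vx a χ G t x * Vx b θ H t x‖ₑ ^ 2 =
    ∫⁻ ζ : ℝ, ‖Q2 a b χ θ G H t ζ‖ₑ ^ 2 := by
  rw [← ift_planch (Q2 a b χ θ G H t) (Q2_int hN hχ hθ hG hH t)
    (memLp_two_of_bdd (Q2_int hN hχ hθ hG hH t) (Q2_bdd hN hχ hθ hG hH t))]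
  refine lintegral_congr fun x => ?_
  rw [← Vx_mul hN hχ hθ hG hH t x]

omit hN hχ hθ in
lemma Q2_eq (t ζ : ℝ) : Q2 a b χ θ G H t ζ =
    ∫ ξ : ℝ, e (t * g2 a b ζ ξ) * ((χ (ξ + ζ / 2) * θ (ζ / 2 - ξ)) * ft (b2 G H ζ) ξ) := by
  unfold Q2
  refine integral_congr_ae (Filter.Eventually.of_forall fun ξ => ?_)
  simp only
  rw [ft_b2 hG hH]
  unfold qq g2
  rw [mul_add, e_add]
  ring

lemma Q2_meas : Measurable (Function.uncurry (Q2 a b χ θ G H)) := by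
  have hc : Continuous (fun p : (ℝ × ℝ) × ℝ =>
      qq a χ G p.1.1 (p.2 + p.1.2 / 2) * qq b θ H p.1.1 (p.1.2 / 2 - p.2)) := by
    have t1 := qq_cont (a := a) hN hχ hG
    have t2 := qq_cont (a := b) hN hθ hH
    have h1 : Continuous (fun p : (ℝ × ℝ) × ℝ => qq a χ G p.1.1 (p.2 + p.1.2 / 2)) :=
      t1.comp (g := fun p : ℝ × ℝ => qq a χ G p.1 p.2)
        (f := fun p : (ℝ × ℝ) × ℝ => (p.1.1, p.2 + p.1.2 / 2)) (by fun_prop)
    have h2 : Continuous (fun p : (ℝ × ℝ) × ℝ => qq b θ H p.1.1 (p.1.2 / 2 - p.2)) :=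
      t2.comp (g := fun p : ℝ × ℝ => qq b θ H p.1 p.2)
        (f := fun p : (ℝ × ℝ) × ℝ => (p.1.1, p.1.2 / 2 - p.2)) (by fun_prop)
    exact h1.mul h2
  have hs : StronglyMeasurable (fun p : ℝ × ℝ => Q2 a b χ θ G H p.1 p.2) :=
    StronglyMeasurable.integral_prod_right (ν := (volume : Measure ℝ))
      (f := fun (p : ℝ × ℝ) (ξ : ℝ) => qq a χ G p.1 (ξ + p.2 / 2) * qq b θ H p.1 (p.2 / 2 - ξ))
      hc.stronglyMeasurable
  exact hs.measurable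

end data

lemma b2_meas {G H : ℝ → ℂ} (hm : Measurable G) (hn : Measurable H) :
    Measurable (Function.uncurry (b2 G H)) := by
  have hc : Measurable (fun p : (ℝ × ℝ) × ℝ =>
      e (-(p.2 * p.1.1)) * (G (p.2 + p.1.2 / 2) * H (p.2 - p.1.2 / 2))) := by
    have h0 := measurable_e
    fun_prop
  have hs : StronglyMeasurable (fun p : ℝ × ℝ => b2 G H p.1 p.2) :=
    StronglyMeasurable.integral_prod_right (ν := (volume : Measure ℝ))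
      (f := fun (p : ℝ × ℝ) (z : ℝ) => e (-(z * p.1)) * (G (z + p.2 / 2) * H (z - p.2 / 2)))
      hc.stronglyMeasurable
  exact hs.measurable

/-- **the bilinear estimate** -/
theorem bil {C1 : ℝ}
    (hD : ∀ (N : ℝ) (g g' : ℝ → ℝ) (χ b : ℝ → ℂ), 1 ≤ N → Cv g g' →
      Cut 2 N χ → Integrable b →
      ∫⁻ t in Icc (-2 : ℝ) 2, ‖∫ ξ : ℝ, e (t * g ξ) * (χ ξ * ft b ξ)‖ₑ ^ 2 ≤
      ENNReal.ofReal (C1 * (1 + Real.log N)) *
      ∫⁻ v : ℝ, (ENNReal.ofReal (Wt N v))⁻¹ * ‖b v‖ₑ ^ 2)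
    {N a b : ℝ} {χ θ G H : ℝ → ℂ} (hN : 1 ≤ N) (ha : 0 < a) (hb : 0 < b) (hχ : Cut 1 N χ)
    (hθ : Cut 1 N θ) (hG : Integrable G) (hm : Measurable G) (hH : Integrable H)
    (hn : Measurable H) :
    ∫⁻ t in Icc (-2 : ℝ) 2, ∫⁻ x : ℝ, ‖Vx a χ G t x * Vx b θ H t x‖ₑ ^ 2 ≤
      ENNReal.ofReal (C1 * (1 + Real.log N)) *
        ∫⁻ v : ℝ, (ENNReal.ofReal (Wt N v))⁻¹ * ∫⁻ z : ℝ, ‖G (z + v / 2) * H (z - v / 2)‖ₑ ^ 2 := by
  have hJ : ∀ᵐ v : ℝ, ∫⁻ ζ, ‖b2 G H ζ v‖ₑ ^ 2 ≤ ∫⁻ z : ℝ, ‖G (z + v / 2) * H (z - v / 2)‖ₑ ^ 2 := by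
    filter_upwards [(int_T hG hH).prod_left_ae] with v hv
    by_cases hfin : ∫⁻ z : ℝ, ‖G (z + v / 2) * H (z - v / 2)‖ₑ ^ 2 = ∞
    · rw [hfin]; exact le_top
    have h2 : MemLp (fun z => G (z + v / 2) * H (z - v / 2)) 2 :=
      memLp_two hv (lt_top_iff_ne_top.2 hfin)
    have h3 := ft_planch _ hv h2
    simp only [b2_eq_ft]
    rw [h3]
  have hbm := b2_meas hm hn
  have hWm : Measurable (fun v => (ENNReal.ofReal (Wt N v))⁻¹) :=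
    ((Wt_meas N).ennreal_ofReal).inv
  calc ∫⁻ t in Icc (-2 : ℝ) 2, ∫⁻ x : ℝ, ‖Vx a χ G t x * Vx b θ H t x‖ₑ ^ 2 =
        ∫⁻ t in Icc (-2 : ℝ) 2, ∫⁻ ζ : ℝ, ‖Q2 a b χ θ G H t ζ‖ₑ ^ 2 :=
        lintegral_congr fun t => Vx_mul_four hN hχ hθ hG hH t
    _ = ∫⁻ ζ : ℝ, ∫⁻ t in Icc (-2 : ℝ) 2, ‖Q2 a b χ θ G H t ζ‖ₑ ^ 2 := by
        apply lintegral_lintegral_swap
        exact ((Q2_meas hN hχ hθ hG hH).enorm.pow_const 2).aemeasurable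
    _ ≤ ∫⁻ ζ : ℝ, ENNReal.ofReal (C1 * (1 + Real.log N)) *
          ∫⁻ v : ℝ, (ENNReal.ofReal (Wt N v))⁻¹ * ‖b2 G H ζ v‖ₑ ^ 2 := by
        refine lintegral_mono fun ζ => ?_
        simp only [Q2_eq hG hH]
        exact hD N _ _ _ _ hN (cv_g2 ha hb ζ) (cut_mul2 hN hχ hθ ζ) (int_b2 hG hH ζ)
    _ = ENNReal.ofReal (C1 * (1 + Real.log N)) *
          ∫⁻ ζ : ℝ, ∫⁻ v : ℝ, (ENNReal.ofReal (Wt N v))⁻¹ * ‖b2 G H ζ v‖ₑ ^ 2 :=
        lintegral_const_mul' _ _ ENNReal.ofReal_ne_top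
    _ = ENNReal.ofReal (C1 * (1 + Real.log N)) *
          ∫⁻ v : ℝ, ∫⁻ ζ : ℝ, (ENNReal.ofReal (Wt N v))⁻¹ * ‖b2 G H ζ v‖ₑ ^ 2 := by
        congr 1
        apply lintegral_lintegral_swap
        exact ((hWm.comp measurable_snd).mul (hbm.enorm.pow_const 2)).aemeasurable
    _ = ENNReal.ofReal (C1 * (1 + Real.log N)) *
          ∫⁻ v : ℝ, (ENNReal.ofReal (Wt N v))⁻¹ * ∫⁻ ζ : ℝ, ‖b2 G H ζ v‖ₑ ^ 2 := by
        congr 1
        refine lintegral_congr fun v => ?_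
        apply lintegral_const_mul
        have h5 : Measurable (fun ζ => b2 G H ζ v) := hbm.comp (measurable_id.prodMk measurable_const)
        exact h5.enorm.pow_const 2
    _ ≤ _ := by
        refine mul_le_mul' le_rfl (lintegral_mono_ae (hJ.mono fun v hv => ?_))
        exact mul_le_mul' le_rfl hv

end Pool.Agent.Q167.LS
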