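import Pool.Agent.Q167.LS.Asm
set_option autoImplicit false

/-! # The two estimates for the wave equation -/

open MeasureTheory Set Filter Topology ProbabilityTheory
open scoped ENNReal NNReal FourierTransform RealInnerProductSpace

namespace Pool.Agent.Q167.LS

open Pool.Agent.TH280.LS
open Pool.Agent.TH209.TP (GB Gb meas_Tm Tm_add gb_mc gb_ms int_Tm Ux_bound int_gauss meas_Ux
  Adm.int)

variable {m : ℕ}

/-- the mixed norm `L^p_x L^2_y`, to the power `p` -/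
noncomputable def Mx (m : ℕ) (p : ℝ) (g : EuclideanSpace ℝ (Fin (m + 1)) → ℂ) : ℝ≥0∞ :=
  ∫⁻ x : ℝ, (∫⁻ y : Fin m → ℝ, ‖g ((Zc m).symm (x, y))‖ₑ ^ 2) ^ (p / 2)

lemma ftm_pl {f : (Fin m → ℝ) → ℂ} (h1 : Integrable f) (h2 : MemLp f 2) :
    ∫⁻ η : Fin m → ℝ, ‖ftm m f η‖ₑ ^ 2 = ∫⁻ y : Fin m → ℝ, ‖f y‖ₑ ^ 2 := by
  rw [← ftm_planch f h1 h2]
  rw [← (Measure.measurePreserving_neg (volume : Measure (Fin m → ℝ))).lintegral_comp_emb
    (MeasurableEquiv.neg (Fin m → ℝ)).measurableEmbedding (fun η => ‖ftm m f η‖ₑ ^ 2)]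
  refine lintegral_congr fun η => ?_
  have : ftm m f (-η) = ∫ y : Fin m → ℝ, e (∑ i, η i * y i) * f y := by
    unfold ftm
    refine integral_congr_ae (Eventually.of_forall fun y => ?_)
    simp only
    congr 2
    rw [← Finset.sum_neg_distrib]
    refine Finset.sum_congr rfl fun i _ => ?_
    simp only [Pi.neg_apply]
    ring
  change ‖ftm m f (-η)‖ₑ ^ 2 = _
  rw [this]

lemma Sd_GG {p : ℝ} (hp : 0 ≤ p) {g : ℝ × (Fin m → ℝ) → ℂ} (hg : Integrable g) :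
    ∫⁻ x : ℝ, Sd volume (GG m g) x ^ (p / 2) ≤
      ∫⁻ x : ℝ, (∫⁻ y : Fin m → ℝ, ‖g (x, y)‖ₑ ^ 2) ^ (p / 2) := by
  refine lintegral_mono_ae ?_
  have h2 : ∀ᵐ x : ℝ, Integrable (fun y : Fin m → ℝ => g (x, y)) := hg.prod_right_ae
  filter_upwards [h2] with x hx
  refine ENNReal.rpow_le_rpow ?_ (by linarith)
  by_cases hfin : ∫⁻ y : Fin m → ℝ, ‖g (x, y)‖ₑ ^ 2 = ⊤
  · rw [hfin]; exact le_top
  have h3 : MemLp (fun y : Fin m → ℝ => g (x, y)) 2 := by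
    refine ⟨hx.1, ?_⟩
    rw [eLpNorm_lt_top_iff_lintegral_rpow_enorm_lt_top (by norm_num) (by norm_num)]
    simpa using lt_top_iff_ne_top.2 hfin
  exact le_of_eq (ftm_pl hx h3)

/-- comparison with the data -/
lemma Mx_data {p : ℝ} {f : EuclideanSpace ℝ (Fin (m + 1)) → ℂ} {g : ℝ × (Fin m → ℝ) → ℂ}
    (h : (fun q => f ((Zc m).symm q)) =ᵐ[volume] g) :
    ∫⁻ x : ℝ, (∫⁻ y : Fin m → ℝ, ‖g (x, y)‖ₑ ^ 2) ^ (p / 2) = Mx m p f := by
  have h1 : ∀ᵐ x : ℝ, ∀ᵐ y : Fin m → ℝ, f ((Zc m).symm (x, y)) = g (x, y) :=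
    Measure.ae_ae_of_ae_prod h
  unfold Mx
  refine lintegral_congr_ae ?_
  filter_upwards [h1] with x hx
  congr 1
  refine lintegral_congr_ae ?_
  filter_upwards [hx] with y hy
  rw [hy]

lemma HH_mem {s τ t : ℝ} (hs : 0 < s) (hτ : 0 < τ) {g0 g1 : ℝ × (Fin m → ℝ) → ℂ}
    (k0 : Integrable g0) (k1 : Integrable g1) (m0 : Measurable g0) (m1 : Measurable g1) (x : ℝ) :
    Integrable (HH s τ t g0 g1 x) ∧ MemLp (HH s τ t g0 g1 x) 2 := by
  obtain ⟨a1, a2⟩ := H_mem (measurable_mc s τ t) ((gb_mc hs hτ).bd t) (GG_adm m k0 m0) x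
  obtain ⟨b1, b2⟩ := H_mem (measurable_ms s τ t) ((gb_ms hs hτ).bd t) (GG_adm m k1 m1) x
  exact ⟨a1.add b1, a2.add b2⟩

/-- the basic bound -/
theorem Z_bound (m : ℕ) (s p : ℝ) (hm : 0 < m) (hs : 0 < s) (hp2 : 2 ≤ p) (hp4 : p ≤ 4) :
    ∃ C : ℝ, 0 < C ∧ ∀ (τ : ℝ) (f0 f1 : EuclideanSpace ℝ (Fin (m + 1)) → ℂ)
    (g0 g1 : ℝ × (Fin m → ℝ) → ℂ), 0 < τ → τ ≤ 1 → Integrable g0 → Integrable g1 →
    Measurable g0 → Measurable g1 → (fun q => f0 ((Zc m).symm q)) =ᵐ[volume] g0 →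
    (fun q => f1 ((Zc m).symm q)) =ᵐ[volume] g1 →
    ∫⁻ t in Icc (1 : ℝ) 2, ∫⁻ x : ℝ, (∫⁻ η : Fin m → ℝ, ‖HH s τ t g0 g1 x η‖ₑ ^ 2) ^ (p / 2) ≤
      ENNReal.ofReal C * (Mx m p f0 + Mx m p f1) := by
  obtain ⟨C, hC, hmix⟩ := mix m s p hm hs hp2 hp4
  refine ⟨8 * C, by positivity, ?_⟩
  intro τ f0 f1 g0 g1 hτ hτ1 k0 k1 m0 m1 e0 e1
  have a0 := GG_adm m k0 m0
  have a1 := GG_adm m k1 m1
  have s0 := Su_meas a0.1 (gb_mc (s := s) hs hτ).meas
  have s1 := Su_meas a1.1 (gb_ms (s := s) hs hτ).meas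
  have c8 : (2 : ℝ≥0∞) ^ (p / 2) * 2 ^ (p / 2 - 1) ≤ 8 := by
    rw [← ENNReal.rpow_add _ _ (by norm_num) (by norm_num)]
    calc (2 : ℝ≥0∞) ^ (p / 2 + (p / 2 - 1)) ≤ 2 ^ (3 : ℝ) :=
          ENNReal.rpow_le_rpow_of_exponent_le (by norm_num) (by linarith)
      _ = 8 := by rw [ENNReal.rpow_ofNat]; norm_num
  have hpt : ∀ t x, (∫⁻ η : Fin m → ℝ, ‖HH s τ t g0 g1 x η‖ₑ ^ 2) ^ (p / 2) ≤
      8 * (Su volume le2 (mc s τ t) (GG m g0) x ^ (p / 2) +
        Su volume le2 (ms s τ t) (GG m g1) x ^ (p / 2)) := by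
    intro t x
    have mm : Measurable (fun η : Fin m → ℝ => ‖Ux (le2 η) (mc s τ t) (GG m g0 η) x‖ₑ ^ 2) := by
      have h := meas_Ux a0.1 (gb_mc (s := s) hs hτ).meas
      have h2 : Measurable fun η : Fin m → ℝ => ((t, x), η) := by fun_prop
      have h3 := h.comp h2
      exact h3.enorm.pow_const 2
    have h1 : ∫⁻ η : Fin m → ℝ, ‖HH s τ t g0 g1 x η‖ₑ ^ 2 ≤
        2 * (Su volume le2 (mc s τ t) (GG m g0) x + Su volume le2 (ms s τ t) (GG m g1) x) := by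
      calc ∫⁻ η : Fin m → ℝ, ‖HH s τ t g0 g1 x η‖ₑ ^ 2
          ≤ ∫⁻ η : Fin m → ℝ, (2 * ‖Ux (le2 η) (mc s τ t) (GG m g0 η) x‖ₑ ^ 2 +
              2 * ‖Ux (le2 η) (ms s τ t) (GG m g1 η) x‖ₑ ^ 2) :=
            lintegral_mono fun η => Pool.Agent.TH496.MOD.sq_add _ _
        _ = _ := by
            rw [lintegral_add_left (mm.const_mul 2), lintegral_const_mul' _ _ (by norm_num),
              lintegral_const_mul' _ _ (by norm_num), mul_add]
            rfl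
    calc (∫⁻ η : Fin m → ℝ, ‖HH s τ t g0 g1 x η‖ₑ ^ 2) ^ (p / 2)
        ≤ (2 * (Su volume le2 (mc s τ t) (GG m g0) x +
            Su volume le2 (ms s τ t) (GG m g1) x)) ^ (p / 2) :=
          ENNReal.rpow_le_rpow h1 (by linarith)
      _ = 2 ^ (p / 2) * (Su volume le2 (mc s τ t) (GG m g0) x +
            Su volume le2 (ms s τ t) (GG m g1) x) ^ (p / 2) :=
          ENNReal.mul_rpow_of_nonneg _ _ (by linarith)
      _ ≤ 2 ^ (p / 2) * (2 ^ (p / 2 - 1) * (Su volume le2 (mc s τ t) (GG m g0) x ^ (p / 2) +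
            Su volume le2 (ms s τ t) (GG m g1) x ^ (p / 2))) := by
          refine mul_le_mul' le_rfl ?_
          exact ENNReal.rpow_add_le_mul_rpow_add_rpow _ _ (by linarith)
      _ ≤ _ := by
          rw [← mul_assoc]
          exact mul_le_mul' c8 le_rfl
  have h0 := (hmix τ (GG m g0) hτ hτ1 a0).1
  have h1 := (hmix τ (GG m g1) hτ hτ1 a1).2
  have d0 := (Sd_GG (by linarith : 0 ≤ p) k0).trans (le_of_eq (Mx_data (p := p) e0))
  have d1 := (Sd_GG (by linarith : 0 ≤ p) k1).trans (le_of_eq (Mx_data (p := p) e1))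
  have mx0 : ∀ t, Measurable fun x : ℝ => Su volume (le2 (m := m)) (mc s τ t) (GG m g0) x ^ (p / 2) :=
    fun t => (s0.comp (measurable_const.prodMk measurable_id)).pow_const _
  have mt0 : Measurable fun t : ℝ => ∫⁻ x : ℝ,
      Su volume (le2 (m := m)) (mc s τ t) (GG m g0) x ^ (p / 2) :=
    Measurable.lintegral_prod_right' (s0.pow_const _)
  calc ∫⁻ t in Icc (1 : ℝ) 2, ∫⁻ x : ℝ, (∫⁻ η : Fin m → ℝ, ‖HH s τ t g0 g1 x η‖ₑ ^ 2) ^ (p / 2)
      ≤ ∫⁻ t in Icc (1 : ℝ) 2, 8 * ((∫⁻ x : ℝ, Su volume (le2 (m := m)) (mc s τ t) (GG m g0) x ^ (p / 2)) +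
          ∫⁻ x : ℝ, Su volume (le2 (m := m)) (ms s τ t) (GG m g1) x ^ (p / 2)) := by
        refine lintegral_mono fun t => ?_
        rw [← lintegral_add_left (mx0 t), ← lintegral_const_mul' _ _ (by norm_num)]
        exact lintegral_mono fun x => hpt t x
    _ = 8 * ((∫⁻ t in Icc (1 : ℝ) 2, ∫⁻ x : ℝ,
          Su volume (le2 (m := m)) (mc s τ t) (GG m g0) x ^ (p / 2)) +
          ∫⁻ t in Icc (1 : ℝ) 2, ∫⁻ x : ℝ,
            Su volume (le2 (m := m)) (ms s τ t) (GG m g1) x ^ (p / 2)) := by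
        rw [lintegral_const_mul' _ _ (by norm_num), lintegral_add_left mt0]
    _ ≤ 8 * (ENNReal.ofReal C * Mx m p f0 + ENNReal.ofReal C * Mx m p f1) := by
        refine mul_le_mul' le_rfl (add_le_add ?_ ?_)
        · exact h0.trans (mul_le_mul' le_rfl d0)
        · exact h1.trans (mul_le_mul' le_rfl d1)
    _ = _ := by
        rw [← mul_add, ← mul_assoc, ENNReal.ofReal_mul (by norm_num)]
        norm_num

/-- measurability of the solution -/
lemma wvs_meas {Ω : Type} [MeasurableSpace Ω] {S : Ω × (Fin m → ℝ) → ℝ} (hS : Measurable S)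
    (s τ : ℝ) {f0 f1 : EuclideanSpace ℝ (Fin (m + 1)) → ℂ} (h0 : Integrable f0)
    (h1 : Integrable f1) :
    Measurable (fun q : Ω × (ℝ × EuclideanSpace ℝ (Fin (m + 1))) =>
      wvs m (fun η => S (q.1, η)) s τ f0 f1 q.2.1 q.2.2) := by
  have h2 : StronglyMeasurable (fun q : (Ω × (ℝ × EuclideanSpace ℝ (Fin (m + 1)))) ×
      EuclideanSpace ℝ (Fin (m + 1)) =>
      e (⟪q.1.2.2, q.2⟫ : ℝ) * (((S (q.1.1, (Zc m q.2).2) : ℝ) : ℂ) *
      (((Real.exp (-(τ * ‖q.2‖ ^ 2)) : ℝ) : ℂ) *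
      (((Real.cos (2 * Real.pi * (q.1.2.1 * ‖q.2‖)) *
      (1 + 4 * Real.pi ^ 2 * ‖q.2‖ ^ 2) ^ (-(s / 2)) : ℝ) : ℂ) * 𝓕 f0 q.2 +
      ((Real.sin (2 * Real.pi * (q.1.2.1 * ‖q.2‖)) / (2 * Real.pi * ‖q.2‖) *
      (1 + 4 * Real.pi ^ 2 * ‖q.2‖ ^ 2) ^ ((1 - s) / 2) : ℝ) : ℂ) * 𝓕 f1 q.2)))) := by
    apply Measurable.stronglyMeasurable
    have e0 := (cont_four h0).measurable
    have e1 := (cont_four h1).measurable
    have hz := (Zc m).measurable
    have hS2 : Measurable (fun q : (Ω × (ℝ × EuclideanSpace ℝ (Fin (m + 1)))) ×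
        EuclideanSpace ℝ (Fin (m + 1)) => S (q.1.1, (Zc m q.2).2)) := by
      refine hS.comp ?_
      exact (measurable_fst.comp measurable_fst).prodMk
        (measurable_snd.comp (hz.comp measurable_snd))
    refine Measurable.mul (measurable_e.comp (by fun_prop)) (Measurable.mul
      (Complex.measurable_ofReal.comp hS2) (Measurable.mul (by fun_prop)
      (Measurable.add (Measurable.mul (Complex.measurable_ofReal.comp (Measurable.mul
        (by fun_prop) (Measurable.pow_const (by fun_prop) _))) (e0.comp measurable_snd))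
       (Measurable.mul (Complex.measurable_ofReal.comp (Measurable.mul
        (by fun_prop) (Measurable.pow_const (by fun_prop) _))) (e1.comp measurable_snd)))))
  exact (h2.integral_prod_right (ν := volume)).measurable

/-- convergence as the regularisation disappears -/
lemma wvs_tendsto {s t : ℝ} (ht : |t| ≤ 2) {σ : (Fin m → ℝ) → ℝ} (hσ : Measurable σ)
    (hσ1 : ∀ η, |σ η| ≤ 1) {f0 f1 : EuclideanSpace ℝ (Fin (m + 1)) → ℂ} (h0 : Integrable f0)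
    (h1 : Integrable f1)
    (hi0 : Integrable (fun ζ => (((1 + 4 * Real.pi ^ 2 * ‖ζ‖ ^ 2) ^ (-(s / 2)) : ℝ) : ℂ) * 𝓕 f0 ζ))
    (hi1 : Integrable (fun ζ => (((1 + 4 * Real.pi ^ 2 * ‖ζ‖ ^ 2) ^ (-(s / 2)) : ℝ) : ℂ) * 𝓕 f1 ζ))
    {u : ℕ → ℝ} (hu0 : ∀ n, 0 ≤ u n) (hul : Tendsto u atTop (𝓝 0))
    (z : EuclideanSpace ℝ (Fin (m + 1))) :
    Tendsto (fun n => wvs m σ s (u n) f0 f1 t z) atTop (𝓝 (wvs m σ s 0 f0 f1 t z)) := by
  unfold wvs
  refine tendsto_integral_of_dominated_convergence (fun ζ =>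
    ‖(((1 + 4 * Real.pi ^ 2 * ‖ζ‖ ^ 2) ^ (-(s / 2)) : ℝ) : ℂ) * 𝓕 f0 ζ‖ +
    3 * ‖(((1 + 4 * Real.pi ^ 2 * ‖ζ‖ ^ 2) ^ (-(s / 2)) : ℝ) : ℂ) * 𝓕 f1 ζ‖) ?_ ?_ ?_ ?_
  · intro n
    have e0 := (cont_four h0).measurable
    have e1 := (cont_four h1).measurable
    have hz : Measurable fun ζ : EuclideanSpace ℝ (Fin (m + 1)) => ((σ (Zc m ζ).2 : ℝ) : ℂ) :=
      Complex.measurable_ofReal.comp (hσ.comp (measurable_snd.comp (Zc m).measurable))
    refine Measurable.aestronglyMeasurable ?_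
    refine Measurable.mul (measurable_e.comp (by fun_prop)) (Measurable.mul hz
      (Measurable.mul (by fun_prop)
      (Measurable.add (Measurable.mul (Complex.measurable_ofReal.comp (Measurable.mul
        (by fun_prop) (Measurable.pow_const (by fun_prop) _))) e0)
       (Measurable.mul (Complex.measurable_ofReal.comp (Measurable.mul
        (by fun_prop) (Measurable.pow_const (by fun_prop) _))) e1))))
  · exact hi0.norm.add (hi1.norm.const_mul 3)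
  · intro n
    refine Eventually.of_forall fun ζ => ?_
    have h := wv_dom m (s := s) (hu0 n) ht f0 f1 z ζ
    refine le_trans ?_ h
    have key : ∀ (a b c : ℂ), ‖b‖ ≤ 1 → ‖a * (b * c)‖ ≤ ‖a * c‖ := by
      intro a b c hb
      rw [norm_mul, norm_mul, norm_mul]
      exact mul_le_mul_of_nonneg_left (mul_le_of_le_one_left (norm_nonneg _) hb) (norm_nonneg _)
    refine key _ _ _ ?_
    rw [Complex.norm_real, Real.norm_eq_abs]
    exact hσ1 _
  · refine Eventually.of_forall fun ζ => ?_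
    refine Tendsto.const_mul _ (Tendsto.const_mul _ (Tendsto.mul_const _ ?_))
    refine (Complex.continuous_ofReal.tendsto _).comp ((Real.continuous_exp.tendsto _).comp ?_)
    exact (hul.mul_const _).neg

lemma liminf_rp {r : ℝ} (hr : 0 ≤ r) (A : ℕ → ℝ≥0∞) :
    (liminf A atTop) ^ r = liminf (fun n => A n ^ r) atTop := by
  have h := Monotone.map_liminf_of_continuousAt (F := atTop) (f := fun x : ℝ≥0∞ => x ^ r)
    (ENNReal.monotone_rpow_of_nonneg hr) A ENNReal.continuous_rpow_const.continuousAt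
    (by isBoundedDefault) (by isBoundedDefault)
  exact h

end Pool.Agent.Q167.LS
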