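import Pool.Agent.Q167.LS.Fin
set_option autoImplicit false

/-! # The mixed norm estimate -/

open MeasureTheory Set Filter Topology ProbabilityTheory
open scoped ENNReal NNReal FourierTransform RealInnerProductSpace

namespace Pool.Agent.Q167.LS

open Pool.Agent.TH280.LS

variable {m : ℕ}

lemma modif {f : EuclideanSpace ℝ (Fin (m + 1)) → ℂ} (hf : Integrable f) :
    ∃ g : ℝ × (Fin m → ℝ) → ℂ, Integrable g ∧ Measurable g ∧
      (fun q => f ((Zc m).symm q)) =ᵐ[volume] g ∧ f =ᵐ[volume] fun z => g (Zc m z) := by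
  have hg : Integrable (fun q => f ((Zc m).symm q)) :=
    ((Zc_mp m).symm _).integrable_comp_of_integrable hf
  have hae := hg.1.ae_eq_mk
  refine ⟨hg.1.mk _, hg.congr hae, hg.1.stronglyMeasurable_mk.measurable, hae, ?_⟩
  have h2 := (Zc_mp m).quasiMeasurePreserving.ae_eq_comp hae
  filter_upwards [h2] with z hz
  simpa using hz

lemma mul_mem {σ : (Fin m → ℝ) → ℝ} (hσ : Measurable σ) (hσ1 : ∀ η, |σ η| ≤ 1)
    {H : (Fin m → ℝ) → ℂ} (h1 : Integrable H) (h2 : MemLp H 2) :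
    Integrable (fun η => ((σ η : ℝ) : ℂ) * H η) ∧ MemLp (fun η => ((σ η : ℝ) : ℂ) * H η) 2 := by
  have hm : AEStronglyMeasurable (fun η => ((σ η : ℝ) : ℂ)) volume :=
    (Complex.measurable_ofReal.comp hσ).aestronglyMeasurable
  have hb : ∀ η, ‖((σ η : ℝ) : ℂ)‖ ≤ 1 := fun η => by
    rw [Complex.norm_real, Real.norm_eq_abs]; exact hσ1 _
  refine ⟨h1.bdd_mul (c := 1) hm (Eventually.of_forall hb), ?_⟩
  refine h2.mono (hm.mul h2.1) (Eventually.of_forall fun η => ?_)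
  rw [norm_mul]
  exact mul_le_of_le_one_left (norm_nonneg _) (hb η)

/-- the mixed norm estimate, regularised -/
theorem mixed_pos (m : ℕ) (s p : ℝ) (hm : 0 < m) (hs : 0 < s) (hp2 : 2 ≤ p) (hp4 : p ≤ 4) :
    ∃ C : ℝ, 0 < C ∧ ∀ (σ : (Fin m → ℝ) → ℝ), Measurable σ → (∀ η, |σ η| ≤ 1) →
    ∀ f0 f1 : EuclideanSpace ℝ (Fin (m + 1)) → ℂ, Integrable f0 → Integrable f1 →
    ∀ τ : ℝ, 0 < τ → τ ≤ 1 →
    ∫⁻ t in Icc (1 : ℝ) 2, Mx m p (wvs m σ s τ f0 f1 t) ≤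
      ENNReal.ofReal C * (Mx m p f0 + Mx m p f1) := by
  obtain ⟨C, hC, hZ⟩ := Z_bound m s p hm hs hp2 hp4
  refine ⟨C, hC, ?_⟩
  intro σ hσ hσ1 f0 f1 h0 h1 τ hτ hτ1
  obtain ⟨g0, k0, m0, e0, d0⟩ := modif h0
  obtain ⟨g1, k1, m1, e1, d1⟩ := modif h1
  refine le_trans ?_ (hZ τ f0 f1 g0 g1 hτ hτ1 k0 k1 m0 m1 e0 e1)
  refine setLIntegral_mono' measurableSet_Icc fun t ht => ?_
  have ht2 : |t| ≤ 2 := by rw [abs_of_nonneg (by linarith [ht.1])]; exact ht.2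
  unfold Mx
  refine lintegral_mono fun x => ENNReal.rpow_le_rpow ?_ (by linarith)
  obtain ⟨a1, a2⟩ := HH_mem (t := t) hs hτ k0 k1 m0 m1 x
  obtain ⟨b1, b2⟩ := mul_mem hσ hσ1 a1 a2
  have h2 : ∀ y : Fin m → ℝ, wvs m σ s τ f0 f1 t ((Zc m).symm (x, y)) =
      ∫ η : Fin m → ℝ, e (∑ i, y i * η i) * (((σ η : ℝ) : ℂ) * HH s τ t g0 g1 x η) := by
    intro y
    rw [wvs_eq hs hτ ht2 hσ hσ1 h0 h1 k0 k1 m0 m1 d0 d1, MeasurableEquiv.apply_symm_apply]
  simp only [h2]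
  rw [ftm_planch _ b1 b2]
  refine lintegral_mono fun η => ?_
  refine pow_le_pow_left' ?_ 2
  rw [enorm_mul]
  have : ‖((σ η : ℝ) : ℂ)‖ₑ ≤ 1 := by
    rw [← ofReal_norm, Complex.norm_real, Real.norm_eq_abs]
    exact ENNReal.ofReal_le_one.2 (hσ1 η)
  exact mul_le_of_le_one_left' this

/-- the mixed norm estimate -/
theorem mixed_all (m : ℕ) (s p : ℝ) (hm : 0 < m) (hs : 0 < s) (hp2 : 2 ≤ p) (hp4 : p ≤ 4) :
    ∃ C : ℝ, 0 < C ∧ ∀ (σ : (Fin m → ℝ) → ℝ), Measurable σ → (∀ η, |σ η| ≤ 1) →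
    ∀ f0 f1 : EuclideanSpace ℝ (Fin (m + 1)) → ℂ, Integrable f0 → Integrable f1 →
    ∀ τ : ℝ, 0 ≤ τ → τ ≤ 1 → (0 < τ ∨
      (Integrable (fun ζ => (((1 + 4 * Real.pi ^ 2 * ‖ζ‖ ^ 2) ^ (-(s / 2)) : ℝ) : ℂ) * 𝓕 f0 ζ) ∧
       Integrable (fun ζ => (((1 + 4 * Real.pi ^ 2 * ‖ζ‖ ^ 2) ^ (-(s / 2)) : ℝ) : ℂ) *
        𝓕 f1 ζ))) →
    ∫⁻ t in Icc (1 : ℝ) 2, Mx m p (wvs m σ s τ f0 f1 t) ≤
      ENNReal.ofReal C * (Mx m p f0 + Mx m p f1) := by
  obtain ⟨C, hC, h⟩ := mixed_pos m s p hm hs hp2 hp4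
  refine ⟨C, hC, ?_⟩
  intro σ hσ hσ1 f0 f1 h0 h1 τ hτ hτ1 hcase
  rcases hτ.eq_or_lt with hτ0 | hτ0
  swap
  · exact h σ hσ hσ1 f0 f1 h0 h1 τ hτ0 hτ1
  subst hτ0
  rcases hcase with hcase | ⟨hi0, hi1⟩
  · exact absurd hcase (lt_irrefl _)
  set R := ENNReal.ofReal C * (Mx m p f0 + Mx m p f1) with hR
  set u : ℕ → ℝ := fun n => 1 / ((n : ℝ) + 1) with hu
  have hu0 : ∀ n, 0 < u n := fun n => by simp only [hu]; positivity
  have hu1 : ∀ n, u n ≤ 1 := by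
    intro n
    simp only [hu]
    rw [div_le_one (by positivity)]
    have : (0 : ℝ) ≤ n := Nat.cast_nonneg n
    linarith
  have hul : Tendsto u atTop (𝓝 0) := tendsto_one_div_add_atTop_nhds_zero_nat
  have hwm : ∀ n, Measurable (fun q : ℝ × EuclideanSpace ℝ (Fin (m + 1)) =>
      wvs m σ s (u n) f0 f1 q.1 q.2) := by
    intro n
    have h2 := wvs_meas (Ω := Unit) (S := fun q => σ q.2) (hσ.comp measurable_snd) s (u n) h0 h1
    have h3 : Measurable fun q : ℝ × EuclideanSpace ℝ (Fin (m + 1)) => (((), q) :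
      Unit × (ℝ × EuclideanSpace ℝ (Fin (m + 1)))) := by fun_prop
    have h4 := h2.comp h3
    exact h4
  have hm3 : ∀ n, Measurable (fun q : (ℝ × ℝ) × (Fin m → ℝ) =>
      ‖wvs m σ s (u n) f0 f1 q.1.1 ((Zc m).symm (q.1.2, q.2))‖ₑ ^ 2) := by
    intro n
    have hz := (Zc m).symm.measurable
    have h3 : Measurable fun q : (ℝ × ℝ) × (Fin m → ℝ) => ((q.1.1, (Zc m).symm (q.1.2, q.2)) :
      ℝ × EuclideanSpace ℝ (Fin (m + 1))) :=
      (measurable_fst.comp measurable_fst).prodMk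
        (hz.comp ((measurable_snd.comp measurable_fst).prodMk measurable_snd))
    have h4 := (hwm n).comp h3
    exact h4.enorm.pow_const 2
  have hm2 : ∀ n, Measurable (fun q : ℝ × ℝ => (∫⁻ y : Fin m → ℝ,
      ‖wvs m σ s (u n) f0 f1 q.1 ((Zc m).symm (q.2, y))‖ₑ ^ 2) ^ (p / 2)) := fun n =>
    (Measurable.lintegral_prod_right' (hm3 n)).pow_const _
  have key : ∀ t ∈ Icc (1 : ℝ) 2, Mx m p (wvs m σ s 0 f0 f1 t) ≤
      liminf (fun n => Mx m p (wvs m σ s (u n) f0 f1 t)) atTop := by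
    intro t ht
    have ht2 : |t| ≤ 2 := by rw [abs_of_nonneg (by linarith [ht.1])]; exact ht.2
    unfold Mx
    calc ∫⁻ x : ℝ, (∫⁻ y : Fin m → ℝ, ‖wvs m σ s 0 f0 f1 t ((Zc m).symm (x, y))‖ₑ ^ 2) ^ (p / 2)
        ≤ ∫⁻ x : ℝ, liminf (fun n => (∫⁻ y : Fin m → ℝ,
            ‖wvs m σ s (u n) f0 f1 t ((Zc m).symm (x, y))‖ₑ ^ 2) ^ (p / 2)) atTop := by
          refine lintegral_mono fun x => ?_
          rw [← liminf_rp (by linarith : 0 ≤ p / 2)]
          refine ENNReal.rpow_le_rpow ?_ (by linarith)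
          calc ∫⁻ y : Fin m → ℝ, ‖wvs m σ s 0 f0 f1 t ((Zc m).symm (x, y))‖ₑ ^ 2
              = ∫⁻ y : Fin m → ℝ, liminf (fun n =>
                  ‖wvs m σ s (u n) f0 f1 t ((Zc m).symm (x, y))‖ₑ ^ 2) atTop := by
                refine lintegral_congr fun y => ?_
                symm
                apply Tendsto.liminf_eq
                exact ((ENNReal.continuous_pow 2).tendsto _).comp
                  ((continuous_enorm.tendsto _).comp (wvs_tendsto ht2 hσ hσ1 h0 h1 hi0 hi1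
                    (fun n => (hu0 n).le) hul _))
            _ ≤ _ := by
                refine lintegral_liminf_le fun n => ?_
                have h3 : Measurable fun y : Fin m → ℝ => (((t, x), y) : (ℝ × ℝ) × (Fin m → ℝ)) := by
                  fun_prop
                have h4 := (hm3 n).comp h3
                exact h4
      _ ≤ _ := by
          refine lintegral_liminf_le fun n => ?_
          have h3 : Measurable fun x : ℝ => ((t, x) : ℝ × ℝ) := by fun_prop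
          have h4 := (hm2 n).comp h3
          exact h4
  calc ∫⁻ t in Icc (1 : ℝ) 2, Mx m p (wvs m σ s 0 f0 f1 t)
      ≤ ∫⁻ t in Icc (1 : ℝ) 2, liminf (fun n => Mx m p (wvs m σ s (u n) f0 f1 t)) atTop :=
        setLIntegral_mono' measurableSet_Icc key
    _ ≤ liminf (fun n => ∫⁻ t in Icc (1 : ℝ) 2, Mx m p (wvs m σ s (u n) f0 f1 t)) atTop :=
        lintegral_liminf_le fun n => Measurable.lintegral_prod_right' (hm2 n)
    _ ≤ R := by
        refine (liminf_le_liminf (v := fun _ => R) (Eventually.of_forall fun n => ?_)).trans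
          (le_of_eq (liminf_const R))
        exact h σ hσ hσ1 f0 f1 h0 h1 (u n) (hu0 n) (hu1 n)


end Pool.Agent.Q167.LS
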