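import Pool.Agent.Q167.LS.MixV
set_option autoImplicit false

/-! # The vector-valued estimate for Klein-Gordon equations on the line -/

open MeasureTheory Set Filter Topology
open scoped ENNReal

namespace Pool.Agent.Q167.LS

open Pool.Agent.TH280.LS
open Pool.Agent.TH209.TP (GB Gb gb_mc gb_ms int_Ux)

variable {Ω : Type} [MeasurableSpace Ω]

/-- the solution of the Klein-Gordon equation -/
noncomputable def kgv (a s τ : ℝ) (g0 g1 : ℝ → ℂ) (t x : ℝ) : ℂ :=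
  ∫ ξ : ℝ, e (x * ξ) * (((Real.exp (-(τ * ra a ξ ^ 2)) : ℝ) : ℂ) *
    (((Real.cos (2 * Real.pi * (t * ra a ξ)) *
        (1 + 4 * Real.pi ^ 2 * ra a ξ ^ 2) ^ (-(s / 2)) : ℝ) : ℂ) * ft g0 ξ +
     ((Real.sin (2 * Real.pi * (t * ra a ξ)) / (2 * Real.pi * ra a ξ) *
        (1 + 4 * Real.pi ^ 2 * ra a ξ ^ 2) ^ ((1 - s) / 2) : ℝ) : ℂ) * ft g1 ξ))

lemma kgv_eq {s τ t : ℝ} (hs : 0 < s) (hτ : 0 < τ) {g0 g1 : ℝ → ℂ} (h0 : Integrable g0)
    (h1 : Integrable g1) (a x : ℝ) :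
    kgv a s τ g0 g1 t x = Ux a (mc s τ t) g0 x + Ux a (ms s τ t) g1 x := by
  unfold kgv Ux
  rw [← integral_add (int_Ux (measurable_mc s τ t) ((gb_mc hs hτ).bd t) h0 a x)
    (int_Ux (measurable_ms s τ t) ((gb_ms hs hτ).bd t) h1 a x)]
  refine integral_congr_ae (Eventually.of_forall fun ξ => ?_)
  simp only
  unfold mc ms
  push_cast
  ring

lemma kgv_meas (s τ : ℝ) {a : Ω → ℝ} (ha : Measurable a) {g0 g1 : Ω → ℝ → ℂ}
    (h0 : Measurable (Function.uncurry g0)) (h1 : Measurable (Function.uncurry g1)) :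
    Measurable (fun z : (ℝ × ℝ) × Ω => kgv (a z.2) s τ (g0 z.2) (g1 z.2) z.1.1 z.1.2) := by
  unfold kgv
  have h : StronglyMeasurable (fun w : ((ℝ × ℝ) × Ω) × ℝ =>
      e (w.1.1.2 * w.2) * (((Real.exp (-(τ * ra (a w.1.2) w.2 ^ 2)) : ℝ) : ℂ) *
      (((Real.cos (2 * Real.pi * (w.1.1.1 * ra (a w.1.2) w.2)) *
        (1 + 4 * Real.pi ^ 2 * ra (a w.1.2) w.2 ^ 2) ^ (-(s / 2)) : ℝ) : ℂ) * ft (g0 w.1.2) w.2 +
      ((Real.sin (2 * Real.pi * (w.1.1.1 * ra (a w.1.2) w.2)) / (2 * Real.pi * ra (a w.1.2) w.2) *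
        (1 + 4 * Real.pi ^ 2 * ra (a w.1.2) w.2 ^ 2) ^ ((1 - s) / 2) : ℝ) : ℂ) *
          ft (g1 w.1.2) w.2))) := by
    refine Measurable.stronglyMeasurable ?_
    have ha0 : Measurable (fun w : ((ℝ × ℝ) × Ω) × ℝ => a w.1.2) := ha.comp (by fun_prop)
    have hr : Measurable (fun w : ((ℝ × ℝ) × Ω) × ℝ => ra (a w.1.2) w.2) := by
      unfold ra
      fun_prop
    have h5 : Measurable fun w : ((ℝ × ℝ) × Ω) × ℝ => (w.1.2, w.2) := by fun_prop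
    have h6 := (ft_measV h0).comp h5
    have h7 := (ft_measV h1).comp h5
    have h6' : Measurable fun w : ((ℝ × ℝ) × Ω) × ℝ => ft (g0 w.1.2) w.2 := h6
    have h7' : Measurable fun w : ((ℝ × ℝ) × Ω) × ℝ => ft (g1 w.1.2) w.2 := h7
    refine (measurable_e.comp (by fun_prop)).mul (Measurable.mul (by fun_prop)
      (Measurable.add (Measurable.mul (Complex.measurable_ofReal.comp (Measurable.mul
        (by fun_prop) (Measurable.pow_const (by fun_prop) _))) h6')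
       (Measurable.mul (Complex.measurable_ofReal.comp (Measurable.mul
        (by fun_prop) (Measurable.pow_const (by fun_prop) _))) h7')))
  exact h.integral_prod_right'.measurable

/-- the estimate, regularised -/
theorem kg_pos (s p : ℝ) (hs : 0 < s) (hp2 : 2 ≤ p) (hp4 : p ≤ 4) :
    ∃ C : ℝ, 0 < C ∧ ∀ {Ω : Type} [MeasurableSpace Ω] (μ : Measure Ω) [SFinite μ] (a : Ω → ℝ)
    (g0 g1 : Ω → ℝ → ℂ), Measurable a → (∀ᵐ ω ∂μ, 0 < a ω) →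
    Measurable (Function.uncurry g0) → Measurable (Function.uncurry g1) →
    (∀ ω, Integrable (g0 ω)) → (∀ ω, Integrable (g1 ω)) → ∀ τ : ℝ, 0 < τ → τ ≤ 1 →
    ∫⁻ t in Icc (1 : ℝ) 2, ∫⁻ x : ℝ,
      (∫⁻ ω, ‖kgv (a ω) s τ (g0 ω) (g1 ω) t x‖ₑ ^ 2 ∂μ) ^ (p / 2) ≤
      ENNReal.ofReal C * ((∫⁻ x : ℝ, Sd μ g0 x ^ (p / 2)) + ∫⁻ x : ℝ, Sd μ g1 x ^ (p / 2)) := by
  obtain ⟨C, hC, hmix⟩ := mixW s p hs hp2 hp4
  refine ⟨8 * C, by positivity, ?_⟩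
  intro Ω _ μ _ a g0 g1 ha hpos hg0 hg1 hi0 hi1 τ hτ hτ1
  have s0 := Su_measV μ ha hg0 (gb_mc (s := s) hs hτ).meas
  have s1 := Su_measV μ ha hg1 (gb_ms (s := s) hs hτ).meas
  have c8 : (2 : ℝ≥0∞) ^ (p / 2) * 2 ^ (p / 2 - 1) ≤ 8 := by
    rw [← ENNReal.rpow_add _ _ (by norm_num) (by norm_num)]
    calc (2 : ℝ≥0∞) ^ (p / 2 + (p / 2 - 1)) ≤ 2 ^ (3 : ℝ) :=
          ENNReal.rpow_le_rpow_of_exponent_le (by norm_num) (by linarith)
      _ = 8 := by rw [ENNReal.rpow_ofNat]; norm_num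
  have hpt : ∀ t x, (∫⁻ ω, ‖kgv (a ω) s τ (g0 ω) (g1 ω) t x‖ₑ ^ 2 ∂μ) ^ (p / 2) ≤
      8 * (Su μ a (mc s τ t) g0 x ^ (p / 2) + Su μ a (ms s τ t) g1 x ^ (p / 2)) := by
    intro t x
    have mm : Measurable (fun ω => ‖Ux (a ω) (mc s τ t) (g0 ω) x‖ₑ ^ 2) := by
      have h := Ux_measV ha hg0 (gb_mc (s := s) hs hτ).meas
      have h2 : Measurable fun ω : Ω => ((t, x), ω) := by fun_prop
      have h3 := h.comp h2
      exact h3.enorm.pow_const 2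
    have h1 : ∫⁻ ω, ‖kgv (a ω) s τ (g0 ω) (g1 ω) t x‖ₑ ^ 2 ∂μ ≤
        2 * (Su μ a (mc s τ t) g0 x + Su μ a (ms s τ t) g1 x) := by
      calc ∫⁻ ω, ‖kgv (a ω) s τ (g0 ω) (g1 ω) t x‖ₑ ^ 2 ∂μ
          ≤ ∫⁻ ω, (2 * ‖Ux (a ω) (mc s τ t) (g0 ω) x‖ₑ ^ 2 +
              2 * ‖Ux (a ω) (ms s τ t) (g1 ω) x‖ₑ ^ 2) ∂μ :=
            lintegral_mono fun ω => by
              rw [kgv_eq hs hτ (hi0 ω) (hi1 ω)]
              exact Pool.Agent.TH496.MOD.sq_add _ _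
        _ = _ := by
            rw [lintegral_add_left (mm.const_mul 2), lintegral_const_mul' _ _ (by norm_num),
              lintegral_const_mul' _ _ (by norm_num), mul_add]
            rfl
    calc (∫⁻ ω, ‖kgv (a ω) s τ (g0 ω) (g1 ω) t x‖ₑ ^ 2 ∂μ) ^ (p / 2)
        ≤ (2 * (Su μ a (mc s τ t) g0 x + Su μ a (ms s τ t) g1 x)) ^ (p / 2) :=
          ENNReal.rpow_le_rpow h1 (by linarith)
      _ = 2 ^ (p / 2) * (Su μ a (mc s τ t) g0 x + Su μ a (ms s τ t) g1 x) ^ (p / 2) :=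
          ENNReal.mul_rpow_of_nonneg _ _ (by linarith)
      _ ≤ 2 ^ (p / 2) * (2 ^ (p / 2 - 1) * (Su μ a (mc s τ t) g0 x ^ (p / 2) +
            Su μ a (ms s τ t) g1 x ^ (p / 2))) := by
          refine mul_le_mul' le_rfl ?_
          exact ENNReal.rpow_add_le_mul_rpow_add_rpow _ _ (by linarith)
      _ ≤ _ := by
          rw [← mul_assoc]
          exact mul_le_mul' c8 le_rfl
  have h0 := (hmix μ a τ g0 ha hpos hg0 hi0 hτ hτ1).1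
  have h1 := (hmix μ a τ g1 ha hpos hg1 hi1 hτ hτ1).2
  have mx0 : ∀ t, Measurable fun x : ℝ => Su μ a (mc s τ t) g0 x ^ (p / 2) := by
    intro t
    have h2 : Measurable fun x : ℝ => ((t, x) : ℝ × ℝ) := by fun_prop
    have h3 := s0.comp h2
    exact h3.pow_const _
  have mt0 : Measurable fun t : ℝ => ∫⁻ x : ℝ, Su μ a (mc s τ t) g0 x ^ (p / 2) :=
    Measurable.lintegral_prod_right' (s0.pow_const _)
  calc ∫⁻ t in Icc (1 : ℝ) 2, ∫⁻ x : ℝ,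
        (∫⁻ ω, ‖kgv (a ω) s τ (g0 ω) (g1 ω) t x‖ₑ ^ 2 ∂μ) ^ (p / 2)
      ≤ ∫⁻ t in Icc (1 : ℝ) 2, 8 * ((∫⁻ x : ℝ, Su μ a (mc s τ t) g0 x ^ (p / 2)) +
          ∫⁻ x : ℝ, Su μ a (ms s τ t) g1 x ^ (p / 2)) := by
        refine lintegral_mono fun t => ?_
        rw [← lintegral_add_left (mx0 t), ← lintegral_const_mul' _ _ (by norm_num)]
        exact lintegral_mono fun x => hpt t x
    _ = 8 * ((∫⁻ t in Icc (1 : ℝ) 2, ∫⁻ x : ℝ, Su μ a (mc s τ t) g0 x ^ (p / 2)) +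
          ∫⁻ t in Icc (1 : ℝ) 2, ∫⁻ x : ℝ, Su μ a (ms s τ t) g1 x ^ (p / 2)) := by
        rw [lintegral_const_mul' _ _ (by norm_num), lintegral_add_left mt0]
    _ ≤ 8 * (ENNReal.ofReal C * (∫⁻ x : ℝ, Sd μ g0 x ^ (p / 2)) +
          ENNReal.ofReal C * ∫⁻ x : ℝ, Sd μ g1 x ^ (p / 2)) :=
        mul_le_mul' le_rfl (add_le_add h0 h1)
    _ = _ := by
        rw [← mul_add, ← mul_assoc, ENNReal.ofReal_mul (by norm_num)]
        norm_num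

/-- domination -/
lemma kg_dom {s τ t r : ℝ} (hτ : 0 ≤ τ) (ht : |t| ≤ 2) (hr : 0 ≤ r) (c u v : ℂ) (hc : ‖c‖ = 1) :
    ‖c * (((Real.exp (-(τ * r ^ 2)) : ℝ) : ℂ) *
    (((Real.cos (2 * Real.pi * (t * r)) * (1 + 4 * Real.pi ^ 2 * r ^ 2) ^ (-(s / 2)) : ℝ) : ℂ) * u +
     ((Real.sin (2 * Real.pi * (t * r)) / (2 * Real.pi * r) *
        (1 + 4 * Real.pi ^ 2 * r ^ 2) ^ ((1 - s) / 2) : ℝ) : ℂ) * v))‖ ≤
    ‖(((1 + 4 * Real.pi ^ 2 * r ^ 2) ^ (-(s / 2)) : ℝ) : ℂ) * u‖ +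
      3 * ‖(((1 + 4 * Real.pi ^ 2 * r ^ 2) ^ (-(s / 2)) : ℝ) : ℂ) * v‖ := by
  have hb := be_ge r
  rw [norm_mul, hc, one_mul, norm_mul, Complex.norm_real, Real.norm_eq_abs,
    abs_of_pos (Real.exp_pos _)]
  have h1 : Real.exp (-(τ * r ^ 2)) ≤ 1 := by
    rw [Real.exp_le_one_iff]
    have : 0 ≤ τ * r ^ 2 := by positivity
    linarith
  refine (mul_le_of_le_one_left (norm_nonneg _) h1).trans ((norm_add_le _ _).trans
    (add_le_add ?_ ?_))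
  · rw [norm_mul, norm_mul, Complex.norm_real, Complex.norm_real, Real.norm_eq_abs,
      Real.norm_eq_abs, abs_mul]
    refine mul_le_mul_of_nonneg_right ?_ (norm_nonneg _)
    exact mul_le_of_le_one_left (abs_nonneg _) (Real.abs_cos_le_one _)
  · rw [norm_mul, norm_mul, Complex.norm_real, Complex.norm_real, Real.norm_eq_abs,
      Real.norm_eq_abs]
    refine le_trans (mul_le_mul_of_nonneg_right
      (b := |Real.sin (2 * Real.pi * (t * r)) / (2 * Real.pi * r) *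
        (1 + 4 * Real.pi ^ 2 * r ^ 2) ^ ((1 - s) / 2)|)
      (c := 3 * |(1 + 4 * Real.pi ^ 2 * r ^ 2) ^ (-(s / 2))|) ?_ (norm_nonneg v))
      (le_of_eq (by ring))
    have h2 := ms_core 0 t r le_rfl ht hr
    have h3 : (1 + 4 * Real.pi ^ 2 * r ^ 2) ^ ((1 - s) / 2) =
        (1 + 4 * Real.pi ^ 2 * r ^ 2) ^ ((1 - 0 : ℝ) / 2) *
          (1 + 4 * Real.pi ^ 2 * r ^ 2) ^ (-(s / 2)) := by
      rw [← Real.rpow_add (by linarith)]
      congr 1; ring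
    rw [h3, ← mul_assoc, abs_mul]
    exact mul_le_mul_of_nonneg_right h2 (abs_nonneg _)

lemma kgv_tendsto {s t : ℝ} (ht : |t| ≤ 2) {g0 g1 : ℝ → ℂ} (h0 : Integrable g0)
    (h1 : Integrable g1) {a : ℝ}
    (hi0 : Integrable (fun ξ => (((1 + 4 * Real.pi ^ 2 * ra a ξ ^ 2) ^ (-(s / 2)) : ℝ) : ℂ) *
      ft g0 ξ))
    (hi1 : Integrable (fun ξ => (((1 + 4 * Real.pi ^ 2 * ra a ξ ^ 2) ^ (-(s / 2)) : ℝ) : ℂ) *
      ft g1 ξ))
    {u : ℕ → ℝ} (hu0 : ∀ n, 0 ≤ u n) (hul : Tendsto u atTop (𝓝 0)) (x : ℝ) :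
    Tendsto (fun n => kgv a s (u n) g0 g1 t x) atTop (𝓝 (kgv a s 0 g0 g1 t x)) := by
  unfold kgv
  refine tendsto_integral_of_dominated_convergence (fun ξ =>
    ‖(((1 + 4 * Real.pi ^ 2 * ra a ξ ^ 2) ^ (-(s / 2)) : ℝ) : ℂ) * ft g0 ξ‖ +
    3 * ‖(((1 + 4 * Real.pi ^ 2 * ra a ξ ^ 2) ^ (-(s / 2)) : ℝ) : ℂ) * ft g1 ξ‖) ?_ ?_ ?_ ?_
  · intro n
    have e0 := (continuous_ft h0).measurable
    have e1 := (continuous_ft h1).measurable
    have hr : Measurable fun ξ : ℝ => ra a ξ := by unfold ra; fun_prop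
    refine Measurable.aestronglyMeasurable ?_
    refine (measurable_e.comp (by fun_prop)).mul (Measurable.mul (by fun_prop)
      (Measurable.add (Measurable.mul (Complex.measurable_ofReal.comp (Measurable.mul
        (by fun_prop) (Measurable.pow_const (by fun_prop) _))) e0)
       (Measurable.mul (Complex.measurable_ofReal.comp (Measurable.mul
        (by fun_prop) (Measurable.pow_const (by fun_prop) _))) e1)))
  · exact hi0.norm.add (hi1.norm.const_mul 3)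
  · intro n
    exact Eventually.of_forall fun ξ => kg_dom (hu0 n) ht (Real.sqrt_nonneg _) _ _ _ (norm_e _)
  · refine Eventually.of_forall fun ξ => ?_
    refine Tendsto.const_mul _ (Tendsto.mul_const _ ?_)
    refine (Complex.continuous_ofReal.tendsto _).comp ((Real.continuous_exp.tendsto _).comp ?_)
    exact (hul.mul_const _).neg

lemma liminf_rpV {r : ℝ} (hr : 0 ≤ r) (A : ℕ → ℝ≥0∞) :
    (liminf A atTop) ^ r = liminf (fun n => A n ^ r) atTop := by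
  have h := Monotone.map_liminf_of_continuousAt (F := atTop) (f := fun x : ℝ≥0∞ => x ^ r)
    (ENNReal.monotone_rpow_of_nonneg hr) A ENNReal.continuous_rpow_const.continuousAt
    (by isBoundedDefault) (by isBoundedDefault)
  exact h

/-- the estimate -/
theorem kg_all (s p : ℝ) (hs : 0 < s) (hp2 : 2 ≤ p) (hp4 : p ≤ 4) :
    ∃ C : ℝ, 0 < C ∧ ∀ {Ω : Type} [MeasurableSpace Ω] (μ : Measure Ω) [SFinite μ] (a : Ω → ℝ)
    (g0 g1 : Ω → ℝ → ℂ), Measurable a → (∀ᵐ ω ∂μ, 0 < a ω) →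
    Measurable (Function.uncurry g0) → Measurable (Function.uncurry g1) →
    (∀ ω, Integrable (g0 ω)) → (∀ ω, Integrable (g1 ω)) → ∀ τ : ℝ, 0 ≤ τ → τ ≤ 1 →
    (0 < τ ∨ ∀ ω,
      Integrable (fun ξ => (((1 + 4 * Real.pi ^ 2 * ra (a ω) ξ ^ 2) ^ (-(s / 2)) : ℝ) : ℂ) *
        ft (g0 ω) ξ) ∧
      Integrable (fun ξ => (((1 + 4 * Real.pi ^ 2 * ra (a ω) ξ ^ 2) ^ (-(s / 2)) : ℝ) : ℂ) *
        ft (g1 ω) ξ)) →
    ∫⁻ t in Icc (1 : ℝ) 2, ∫⁻ x : ℝ,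
      (∫⁻ ω, ‖kgv (a ω) s τ (g0 ω) (g1 ω) t x‖ₑ ^ 2 ∂μ) ^ (p / 2) ≤
      ENNReal.ofReal C * ((∫⁻ x : ℝ, Sd μ g0 x ^ (p / 2)) + ∫⁻ x : ℝ, Sd μ g1 x ^ (p / 2)) := by
  obtain ⟨C, hC, h⟩ := kg_pos s p hs hp2 hp4
  refine ⟨C, hC, ?_⟩
  intro Ω _ μ _ a g0 g1 ha hpos hg0 hg1 hi0 hi1 τ hτ hτ1 hcase
  rcases hτ.eq_or_lt with hτ0 | hτ0
  swap
  · exact h μ a g0 g1 ha hpos hg0 hg1 hi0 hi1 τ hτ0 hτ1
  subst hτ0
  rcases hcase with hcase | hcase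
  · exact absurd hcase (lt_irrefl _)
  set R := ENNReal.ofReal C * ((∫⁻ x : ℝ, Sd μ g0 x ^ (p / 2)) +
    ∫⁻ x : ℝ, Sd μ g1 x ^ (p / 2)) with hR
  set u : ℕ → ℝ := fun n => 1 / ((n : ℝ) + 1) with hu
  have hu0 : ∀ n, 0 < u n := fun n => by simp only [hu]; positivity
  have hu1 : ∀ n, u n ≤ 1 := by
    intro n
    simp only [hu]
    rw [div_le_one (by positivity)]
    have : (0 : ℝ) ≤ n := Nat.cast_nonneg n
    linarith
  have hul : Tendsto u atTop (𝓝 0) := tendsto_one_div_add_atTop_nhds_zero_nat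
  have hm3 : ∀ n, Measurable (fun q : (ℝ × ℝ) × Ω =>
      ‖kgv (a q.2) s (u n) (g0 q.2) (g1 q.2) q.1.1 q.1.2‖ₑ ^ 2) := fun n =>
    (kgv_meas s (u n) ha hg0 hg1).enorm.pow_const 2
  have hm2 : ∀ n, Measurable (fun q : ℝ × ℝ => (∫⁻ ω,
      ‖kgv (a ω) s (u n) (g0 ω) (g1 ω) q.1 q.2‖ₑ ^ 2 ∂μ) ^ (p / 2)) := fun n =>
    (Measurable.lintegral_prod_right' (hm3 n)).pow_const _
  have key : ∀ t ∈ Icc (1 : ℝ) 2, ∫⁻ x : ℝ,
      (∫⁻ ω, ‖kgv (a ω) s 0 (g0 ω) (g1 ω) t x‖ₑ ^ 2 ∂μ) ^ (p / 2) ≤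
      liminf (fun n => ∫⁻ x : ℝ,
        (∫⁻ ω, ‖kgv (a ω) s (u n) (g0 ω) (g1 ω) t x‖ₑ ^ 2 ∂μ) ^ (p / 2)) atTop := by
    intro t ht
    have ht2 : |t| ≤ 2 := by rw [abs_of_nonneg (by linarith [ht.1])]; exact ht.2
    calc ∫⁻ x : ℝ, (∫⁻ ω, ‖kgv (a ω) s 0 (g0 ω) (g1 ω) t x‖ₑ ^ 2 ∂μ) ^ (p / 2)
        ≤ ∫⁻ x : ℝ, liminf (fun n => (∫⁻ ω,
            ‖kgv (a ω) s (u n) (g0 ω) (g1 ω) t x‖ₑ ^ 2 ∂μ) ^ (p / 2)) atTop := by
          refine lintegral_mono fun x => ?_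
          rw [← liminf_rpV (by linarith : 0 ≤ p / 2)]
          refine ENNReal.rpow_le_rpow ?_ (by linarith)
          calc ∫⁻ ω, ‖kgv (a ω) s 0 (g0 ω) (g1 ω) t x‖ₑ ^ 2 ∂μ
              = ∫⁻ ω, liminf (fun n =>
                  ‖kgv (a ω) s (u n) (g0 ω) (g1 ω) t x‖ₑ ^ 2) atTop ∂μ := by
                refine lintegral_congr fun ω => ?_
                symm
                apply Tendsto.liminf_eq
                exact ((ENNReal.continuous_pow 2).tendsto _).comp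
                  ((continuous_enorm.tendsto _).comp (kgv_tendsto ht2 (hi0 ω) (hi1 ω)
                    (hcase ω).1 (hcase ω).2 (fun n => (hu0 n).le) hul _))
            _ ≤ _ := by
                refine lintegral_liminf_le fun n => ?_
                have h3 : Measurable fun ω : Ω => (((t, x), ω) : (ℝ × ℝ) × Ω) := by
                  fun_prop
                have h4 := (hm3 n).comp h3
                exact h4
      _ ≤ _ := by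
          refine lintegral_liminf_le fun n => ?_
          have h3 : Measurable fun x : ℝ => ((t, x) : ℝ × ℝ) := by fun_prop
          have h4 := (hm2 n).comp h3
          exact h4
  calc _ ≤ ∫⁻ t in Icc (1 : ℝ) 2, liminf (fun n => ∫⁻ x : ℝ,
        (∫⁻ ω, ‖kgv (a ω) s (u n) (g0 ω) (g1 ω) t x‖ₑ ^ 2 ∂μ) ^ (p / 2)) atTop :=
        setLIntegral_mono' measurableSet_Icc key
    _ ≤ liminf (fun n => ∫⁻ t in Icc (1 : ℝ) 2, ∫⁻ x : ℝ,
        (∫⁻ ω, ‖kgv (a ω) s (u n) (g0 ω) (g1 ω) t x‖ₑ ^ 2 ∂μ) ^ (p / 2)) atTop :=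
        lintegral_liminf_le fun n => Measurable.lintegral_prod_right' (hm2 n)
    _ ≤ R := by
        refine (liminf_le_liminf (v := fun _ => R) (Eventually.of_forall fun n => ?_)).trans
          (le_of_eq (liminf_const R))
        exact h μ a g0 g1 ha hpos hg0 hg1 hi0 hi1 (u n) (hu0 n) (hu1 n)

end Pool.Agent.Q167.LS
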