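import Pool.Agent.Q167.LS.Fin2
set_option autoImplicit false

/-! # From the mixed norm to the full norm: families of transverse multipliers -/

open MeasureTheory Set Filter Topology ProbabilityTheory
open scoped ENNReal NNReal FourierTransform RealInnerProductSpace

namespace Pool.Agent.Q167.LS

open Pool.Agent.TH280.LS

variable {m : ℕ}

/-- a family of transverse multipliers that maps `L²` to `L^p` -/
def Good (m : ℕ) (p : ℝ) {Ω : Type} [MeasurableSpace Ω] (P : Measure Ω)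
    (S : Ω × (Fin m → ℝ) → ℝ) (K : ℝ≥0∞) : Prop :=
  Measurable S ∧ (∀ q, |S q| ≤ 1) ∧ K ≠ ⊤ ∧ ∀ H : (Fin m → ℝ) → ℂ, Integrable H → MemLp H 2 →
    ∫⁻ y : Fin m → ℝ, ∫⁻ ω, ‖∫ η : Fin m → ℝ, e (∑ i, y i * η i) *
        (((S (ω, η) : ℝ) : ℂ) * H η)‖ₑ ^ p ∂P ≤ K * (∫⁻ η : Fin m → ℝ, ‖H η‖ₑ ^ 2) ^ (p / 2)

/-- the estimate, regularised -/
theorem gen_pos (m : ℕ) (s p : ℝ) (hm : 0 < m) (hs : 0 < s) (hp2 : 2 ≤ p) (hp4 : p ≤ 4) :
    ∃ C : ℝ, 0 < C ∧ ∀ {Ω : Type} [MeasurableSpace Ω] (P : Measure Ω) [SFinite P]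
    (S : Ω × (Fin m → ℝ) → ℝ) (K : ℝ≥0∞), Good m p P S K →
    ∀ f0 f1 : EuclideanSpace ℝ (Fin (m + 1)) → ℂ, Integrable f0 → Integrable f1 →
    ∀ τ : ℝ, 0 < τ → τ ≤ 1 →
    ∫⁻ ω, ∫⁻ t in Icc (1 : ℝ) 2, ∫⁻ z, ‖wvs m (fun η => S (ω, η)) s τ f0 f1 t z‖ₑ ^ p
      ∂volume ∂volume ∂P ≤ ENNReal.ofReal C * K * (Mx m p f0 + Mx m p f1) := by
  obtain ⟨C, hC, hZ⟩ := Z_bound m s p hm hs hp2 hp4
  refine ⟨C, hC, ?_⟩
  intro Ω _ P _ S K hG f0 f1 h0 h1 τ hτ hτ1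
  obtain ⟨hS, hS1, hK, hSK⟩ := hG
  obtain ⟨g0, k0, m0, e0, d0⟩ := modif h0
  obtain ⟨g1, k1, m1, e1, d1⟩ := modif h1
  have hW := wvs_meas hS s τ h0 h1
  have hWp : Measurable (fun q : Ω × (ℝ × EuclideanSpace ℝ (Fin (m + 1))) =>
      ‖wvs m (fun η => S (q.1, η)) s τ f0 f1 q.2.1 q.2.2‖ₑ ^ p) := hW.enorm.pow_const p
  have hσm : ∀ ω, Measurable (fun η : Fin m → ℝ => S (ω, η)) := fun ω =>
    hS.comp (measurable_const.prodMk measurable_id)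
  have hσ1 : ∀ ω (η : Fin m → ℝ), |S (ω, η)| ≤ 1 := fun ω η => hS1 _
  have swap1 : ∫⁻ ω, ∫⁻ t in Icc (1 : ℝ) 2, ∫⁻ z,
      ‖wvs m (fun η => S (ω, η)) s τ f0 f1 t z‖ₑ ^ p ∂volume ∂volume ∂P =
      ∫⁻ t in Icc (1 : ℝ) 2, ∫⁻ z, ∫⁻ ω,
      ‖wvs m (fun η => S (ω, η)) s τ f0 f1 t z‖ₑ ^ p ∂P := by
    have s1 : ∀ ω, ∫⁻ t in Icc (1 : ℝ) 2, ∫⁻ z,
        ‖wvs m (fun η => S (ω, η)) s τ f0 f1 t z‖ₑ ^ p =
        ∫⁻ q, ‖wvs m (fun η => S (ω, η)) s τ f0 f1 q.1 q.2‖ₑ ^ p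
          ∂((volume.restrict (Icc (1 : ℝ) 2)).prod volume) := by
      intro ω
      rw [lintegral_prod]
      exact (hWp.comp (measurable_const.prodMk measurable_id)).aemeasurable
    simp only [s1]
    rw [lintegral_lintegral_swap]
    · rw [lintegral_prod]
      exact (Measurable.lintegral_prod_left' hWp).aemeasurable
    · exact hWp.aemeasurable
  rw [swap1]
  have main : ∀ t ∈ Icc (1 : ℝ) 2, ∫⁻ z, ∫⁻ ω,
      ‖wvs m (fun η => S (ω, η)) s τ f0 f1 t z‖ₑ ^ p ∂P ≤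
      K * ∫⁻ x : ℝ, (∫⁻ η : Fin m → ℝ, ‖HH s τ t g0 g1 x η‖ₑ ^ 2) ^ (p / 2) := by
    intro t ht
    have ht2 : |t| ≤ 2 := by rw [abs_of_nonneg (by linarith [ht.1])]; exact ht.2
    have hzm : Measurable (fun z : EuclideanSpace ℝ (Fin (m + 1)) => ∫⁻ ω,
        ‖wvs m (fun η => S (ω, η)) s τ f0 f1 t z‖ₑ ^ p ∂P) := by
      have h3 : Measurable fun q : Ω × EuclideanSpace ℝ (Fin (m + 1)) => ((q.1, (t, q.2)) :
        Ω × (ℝ × EuclideanSpace ℝ (Fin (m + 1)))) := by fun_prop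
      have h4 := hWp.comp h3
      exact Measurable.lintegral_prod_left' h4
    have h2 := ((Zc_mp m).symm _).lintegral_comp_emb (Zc m).symm.measurableEmbedding
      (fun z => ∫⁻ ω, ‖wvs m (fun η => S (ω, η)) s τ f0 f1 t z‖ₑ ^ p ∂P)
    have hcm : Measurable (fun q : ℝ × (Fin m → ℝ) => ∫⁻ ω,
        ‖wvs m (fun η => S (ω, η)) s τ f0 f1 t ((Zc m).symm q)‖ₑ ^ p ∂P) :=
      hzm.comp (Zc m).symm.measurable
    rw [← h2, Measure.volume_eq_prod, lintegral_prod _ hcm.aemeasurable,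
      ← lintegral_const_mul' _ _ hK]
    refine lintegral_mono fun x => ?_
    obtain ⟨a1, a2⟩ := HH_mem (t := t) hs hτ k0 k1 m0 m1 x
    have h3 : ∀ (y : Fin m → ℝ) (ω : Ω), wvs m (fun η => S (ω, η)) s τ f0 f1 t
        ((Zc m).symm (x, y)) =
        ∫ η : Fin m → ℝ, e (∑ i, y i * η i) *
          (((S (ω, η) : ℝ) : ℂ) * HH s τ t g0 g1 x η) := by
      intro y ω
      rw [wvs_eq hs hτ ht2 (hσm ω) (hσ1 ω) h0 h1 k0 k1 m0 m1 d0 d1,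
        MeasurableEquiv.apply_symm_apply]
    simp only [h3]
    exact hSK _ a1 a2
  calc ∫⁻ t in Icc (1 : ℝ) 2, ∫⁻ z, ∫⁻ ω,
      ‖wvs m (fun η => S (ω, η)) s τ f0 f1 t z‖ₑ ^ p ∂P
      ≤ ∫⁻ t in Icc (1 : ℝ) 2, K * ∫⁻ x : ℝ,
        (∫⁻ η : Fin m → ℝ, ‖HH s τ t g0 g1 x η‖ₑ ^ 2) ^ (p / 2) :=
        setLIntegral_mono' measurableSet_Icc main
    _ = K * ∫⁻ t in Icc (1 : ℝ) 2, ∫⁻ x : ℝ,
        (∫⁻ η : Fin m → ℝ, ‖HH s τ t g0 g1 x η‖ₑ ^ 2) ^ (p / 2) :=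
        lintegral_const_mul' _ _ hK
    _ ≤ K * (ENNReal.ofReal C * (Mx m p f0 + Mx m p f1)) :=
        mul_le_mul' le_rfl (hZ τ f0 f1 g0 g1 hτ hτ1 k0 k1 m0 m1 e0 e1)
    _ = _ := by ring

/-- the estimate -/
theorem gen_all (m : ℕ) (s p : ℝ) (hm : 0 < m) (hs : 0 < s) (hp2 : 2 ≤ p) (hp4 : p ≤ 4) :
    ∃ C : ℝ, 0 < C ∧ ∀ {Ω : Type} [MeasurableSpace Ω] (P : Measure Ω) [SFinite P]
    (S : Ω × (Fin m → ℝ) → ℝ) (K : ℝ≥0∞), Good m p P S K →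
    ∀ f0 f1 : EuclideanSpace ℝ (Fin (m + 1)) → ℂ, Integrable f0 → Integrable f1 →
    ∀ τ : ℝ, 0 ≤ τ → τ ≤ 1 → (0 < τ ∨
      (Integrable (fun ζ => (((1 + 4 * Real.pi ^ 2 * ‖ζ‖ ^ 2) ^ (-(s / 2)) : ℝ) : ℂ) * 𝓕 f0 ζ) ∧
       Integrable (fun ζ => (((1 + 4 * Real.pi ^ 2 * ‖ζ‖ ^ 2) ^ (-(s / 2)) : ℝ) : ℂ) *
        𝓕 f1 ζ))) →
    ∫⁻ ω, ∫⁻ t in Icc (1 : ℝ) 2, ∫⁻ z, ‖wvs m (fun η => S (ω, η)) s τ f0 f1 t z‖ₑ ^ p
      ∂volume ∂volume ∂P ≤ ENNReal.ofReal C * K * (Mx m p f0 + Mx m p f1) := by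
  obtain ⟨C, hC, h⟩ := gen_pos m s p hm hs hp2 hp4
  refine ⟨C, hC, ?_⟩
  intro Ω _ P _ S K hG f0 f1 h0 h1 τ hτ hτ1 hcase
  obtain ⟨hS, hS1, hK, hSK⟩ := id hG
  rcases hτ.eq_or_lt with hτ0 | hτ0
  swap
  · exact h P S K hG f0 f1 h0 h1 τ hτ0 hτ1
  subst hτ0
  rcases hcase with hcase | ⟨hi0, hi1⟩
  · exact absurd hcase (lt_irrefl _)
  set R := ENNReal.ofReal C * K * (Mx m p f0 + Mx m p f1) with hR
  set u : ℕ → ℝ := fun n => 1 / ((n : ℝ) + 1) with hu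
  have hu0 : ∀ n, 0 < u n := fun n => by simp only [hu]; positivity
  have hu1 : ∀ n, u n ≤ 1 := by
    intro n
    simp only [hu]
    rw [div_le_one (by positivity)]
    have : (0 : ℝ) ≤ n := Nat.cast_nonneg n
    linarith
  have hul : Tendsto u atTop (𝓝 0) := tendsto_one_div_add_atTop_nhds_zero_nat
  have hσm : ∀ ω, Measurable (fun η : Fin m → ℝ => S (ω, η)) := fun ω =>
    hS.comp (measurable_const.prodMk measurable_id)
  have hσ1 : ∀ ω (η : Fin m → ℝ), |S (ω, η)| ≤ 1 := fun ω η => hS1 _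
  have hWp : ∀ n, Measurable (fun q : Ω × (ℝ × EuclideanSpace ℝ (Fin (m + 1))) =>
      ‖wvs m (fun η => S (q.1, η)) s (u n) f0 f1 q.2.1 q.2.2‖ₑ ^ p) := fun n =>
    (wvs_meas hS s (u n) h0 h1).enorm.pow_const p
  have hm1 : ∀ n, Measurable (fun q : (Ω × ℝ) × EuclideanSpace ℝ (Fin (m + 1)) =>
      ‖wvs m (fun η => S (q.1.1, η)) s (u n) f0 f1 q.1.2 q.2‖ₑ ^ p) := by
    intro n
    have h3 : Measurable fun q : (Ω × ℝ) × EuclideanSpace ℝ (Fin (m + 1)) =>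
      ((q.1.1, (q.1.2, q.2)) : Ω × (ℝ × EuclideanSpace ℝ (Fin (m + 1)))) := by fun_prop
    have h4 := (hWp n).comp h3
    exact h4
  have hm2 : ∀ n, Measurable (fun q : Ω × ℝ => ∫⁻ z,
      ‖wvs m (fun η => S (q.1, η)) s (u n) f0 f1 q.2 z‖ₑ ^ p) := fun n =>
    Measurable.lintegral_prod_right' (hm1 n)
  calc ∫⁻ ω, ∫⁻ t in Icc (1 : ℝ) 2, ∫⁻ z, ‖wvs m (fun η => S (ω, η)) s 0 f0 f1 t z‖ₑ ^ p
        ∂volume ∂volume ∂P
      ≤ ∫⁻ ω, ∫⁻ t in Icc (1 : ℝ) 2, liminf (fun n => ∫⁻ z,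
          ‖wvs m (fun η => S (ω, η)) s (u n) f0 f1 t z‖ₑ ^ p) atTop ∂volume ∂P := by
        refine lintegral_mono fun ω => setLIntegral_mono' measurableSet_Icc fun t ht => ?_
        have ht2 : |t| ≤ 2 := by rw [abs_of_nonneg (by linarith [ht.1])]; exact ht.2
        calc ∫⁻ z, ‖wvs m (fun η => S (ω, η)) s 0 f0 f1 t z‖ₑ ^ p
            = ∫⁻ z, liminf (fun n =>
                ‖wvs m (fun η => S (ω, η)) s (u n) f0 f1 t z‖ₑ ^ p) atTop := by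
              refine lintegral_congr fun z => ?_
              symm
              apply Tendsto.liminf_eq
              exact (ENNReal.continuous_rpow_const.tendsto _).comp
                ((continuous_enorm.tendsto _).comp (wvs_tendsto ht2 (hσm ω) (hσ1 ω) h0 h1 hi0 hi1
                  (fun n => (hu0 n).le) hul z))
          _ ≤ _ := by
              refine lintegral_liminf_le fun n => ?_
              have h3 : Measurable fun z : EuclideanSpace ℝ (Fin (m + 1)) =>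
                ((ω, (t, z)) : Ω × (ℝ × EuclideanSpace ℝ (Fin (m + 1)))) := by fun_prop
              have h4 := (hWp n).comp h3
              exact h4
    _ ≤ ∫⁻ ω, liminf (fun n => ∫⁻ t in Icc (1 : ℝ) 2, ∫⁻ z,
          ‖wvs m (fun η => S (ω, η)) s (u n) f0 f1 t z‖ₑ ^ p) atTop ∂P := by
        refine lintegral_mono fun ω => ?_
        refine lintegral_liminf_le fun n => ?_
        have h3 : Measurable fun t : ℝ => ((ω, t) : Ω × ℝ) := by fun_prop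
        have h4 := (hm2 n).comp h3
        exact h4
    _ ≤ liminf (fun n => ∫⁻ ω, ∫⁻ t in Icc (1 : ℝ) 2, ∫⁻ z,
          ‖wvs m (fun η => S (ω, η)) s (u n) f0 f1 t z‖ₑ ^ p ∂volume ∂volume ∂P) atTop := by
        refine lintegral_liminf_le fun n => ?_
        exact Measurable.lintegral_prod_right' (hm2 n)
    _ ≤ R := by
        refine (liminf_le_liminf (v := fun _ => R) (Eventually.of_forall fun n => ?_)).trans
          (le_of_eq (liminf_const R))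
        exact h P S K hG f0 f1 h0 h1 (u n) (hu0 n) (hu1 n)

/-- random signs give a good family -/
lemma rand_good {Ω : Type} [MeasurableSpace Ω] {P : Measure Ω} [IsProbabilityMeasure P]
    {ε : ℕ → Ω → ℝ} (hm : ∀ k, Measurable (ε k)) (hi : iIndepFun ε P)
    (hv : ∀ k ω, ε k ω ∈ Icc (-1 : ℝ) 1) (h0 : ∀ k, ∫ ω, ε k ω ∂P = 0)
    {κ : (Fin m → ℝ) → ℕ} (hκ : Measurable κ) {V : ℝ≥0∞} (hV : V ≠ ⊤)
    (hκV : ∀ k, volume {η | κ η = k} ≤ V) {p : ℝ} (hp : 2 ≤ p) (hp4 : p ≤ 4) :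
    Good m p P (fun q => ε (κ q.2) q.1) (ENNReal.ofReal (16 * K0) * V ^ (p / 2 - 1)) := by
  refine ⟨?_, fun q => abs_le.2 (hv _ _), ?_, fun H h1 h2 => ?_⟩
  · have h1 : Measurable (fun q : Ω × ℕ => ε q.2 q.1) :=
      measurable_from_prod_countable_left fun k => hm k
    have h2 : Measurable (fun q : Ω × (Fin m → ℝ) => (q.1, κ q.2)) :=
      measurable_fst.prodMk (hκ.comp measurable_snd)
    exact h1.comp h2
  · exact ENNReal.mul_ne_top ENNReal.ofReal_ne_top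
      (ENNReal.rpow_ne_top_of_nonneg (by linarith) hV)
  · exact rand_k hm hi hv h0 hκ hV hκV hp hp4 h1 h2

end Pool.Agent.Q167.LS
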