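import Pool.Agent.Q167.LS.Gen
set_option autoImplicit false

/-! # Comparison of the mixed norm and the full norm for small transverse supports -/

open MeasureTheory Set Filter Topology ProbabilityTheory
open scoped ENNReal NNReal FourierTransform RealInnerProductSpace

namespace Pool.Agent.Q167.LS

open Pool.Agent.TH280.LS

variable {m : ℕ}

lemma holder_sl {F : (Fin m → ℝ) → ℂ} (hF : AEStronglyMeasurable F volume) {p : ℝ} (hp : 2 ≤ p)
    {b : ℝ≥0∞} (h : volume {y | F y ≠ 0} ≤ b) :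
    (∫⁻ y, ‖F y‖ₑ ^ 2) ^ (p / 2) ≤ b ^ (p / 2 - 1) * ∫⁻ y, ‖F y‖ₑ ^ p := by
  rcases hp.eq_or_lt with h2 | h2
  · subst h2
    norm_num
  obtain ⟨T, hT⟩ : ∃ T, T = toMeasurable volume {y | F y ≠ 0} := ⟨_, rfl⟩
  have hTm : MeasurableSet T := by rw [hT]; exact measurableSet_toMeasurable _ _
  have hTb : volume T ≤ b := by rw [hT, measure_toMeasurable]; exact h
  have hTs : {y | F y ≠ 0} ⊆ T := by rw [hT]; exact subset_toMeasurable _ _
  have hr : 1 < p / 2 := by linarith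
  have hconj : (p / 2).HolderConjugate ((p / 2) / (p / 2 - 1)) := by
    have := Real.HolderConjugate.conjExponent hr
    exact this
  have key := ENNReal.lintegral_mul_le_Lp_mul_Lq volume hconj
    (f := fun y => ‖F y‖ₑ ^ 2) (g := T.indicator 1) (hF.enorm.pow_const 2)
    ((measurable_one.indicator hTm).aemeasurable)
  have e1 : ∫⁻ y : Fin m → ℝ, ((fun y : Fin m → ℝ => ‖F y‖ₑ ^ 2) *
      (T.indicator 1 : (Fin m → ℝ) → ℝ≥0∞)) y = ∫⁻ y, ‖F y‖ₑ ^ 2 := by
    refine lintegral_congr fun y => ?_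
    simp only [Pi.mul_apply]
    by_cases hy : y ∈ T
    · rw [indicator_of_mem hy, Pi.one_apply, mul_one]
    · have : F y = 0 := by
        by_contra hcon
        exact hy (hTs hcon)
      rw [this]
      simp
  have e2 : ∫⁻ y, (‖F y‖ₑ ^ 2) ^ (p / 2) = ∫⁻ y, ‖F y‖ₑ ^ p := by
    refine lintegral_congr fun y => ?_
    rw [← ENNReal.rpow_natCast, ← ENNReal.rpow_mul]
    congr 1
    push_cast
    ring
  have e3 : ∫⁻ y, (T.indicator 1 y : ℝ≥0∞) ^ ((p / 2) / (p / 2 - 1)) = volume T := by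
    have h5 : ∀ y, (T.indicator 1 y : ℝ≥0∞) ^ ((p / 2) / (p / 2 - 1)) = T.indicator 1 y := by
      intro y
      by_cases hy : y ∈ T
      · rw [indicator_of_mem hy, Pi.one_apply, ENNReal.one_rpow]
      · rw [indicator_of_notMem hy, ENNReal.zero_rpow_of_pos]
        exact div_pos (by linarith) (by linarith)
    simp only [h5]
    rw [lintegral_indicator_one hTm]
  rw [e1, e2, e3] at key
  have h6 := ENNReal.rpow_le_rpow key (by linarith : 0 ≤ p / 2)
  refine h6.trans ?_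
  rw [ENNReal.mul_rpow_of_nonneg _ _ (by linarith), ← ENNReal.rpow_mul, ← ENNReal.rpow_mul]
  have e4 : 1 / (p / 2) * (p / 2) = 1 := by field_simp
  have e5 : 1 / (p / 2 / (p / 2 - 1)) * (p / 2) = p / 2 - 1 := by
    have : p / 2 - 1 ≠ 0 := by linarith
    field_simp
  rw [e4, e5, ENNReal.rpow_one, mul_comm]
  exact mul_le_mul' (ENNReal.rpow_le_rpow hTb (by linarith)) le_rfl

/-- Hölder's inequality on the slices -/
lemma Mx_le {f : EuclideanSpace ℝ (Fin (m + 1)) → ℂ} (hf : Integrable f) {p : ℝ} (hp : 2 ≤ p)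
    {b : ℝ≥0∞} (hb : b ≠ ⊤)
    (h : ∀ x : ℝ, volume {y : Fin m → ℝ | f ((Zc m).symm (x, y)) ≠ 0} ≤ b) :
    Mx m p f ≤ b ^ (p / 2 - 1) * ∫⁻ z, ‖f z‖ₑ ^ p := by
  obtain ⟨g, k, mg, e, d⟩ := modif hf
  have h1 : ∀ᵐ x : ℝ, ∀ᵐ y : Fin m → ℝ, f ((Zc m).symm (x, y)) = g (x, y) :=
    Measure.ae_ae_of_ae_prod e
  have h2 : ∫⁻ z, ‖f z‖ₑ ^ p = ∫⁻ x : ℝ, ∫⁻ y : Fin m → ℝ, ‖g (x, y)‖ₑ ^ p := by
    have e1 : ∫⁻ z, ‖f z‖ₑ ^ p = ∫⁻ z, ‖g (Zc m z)‖ₑ ^ p := by
      refine lintegral_congr_ae ?_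
      filter_upwards [d] with z hz
      rw [hz]
    rw [e1, (Zc_mp m).lintegral_comp_emb (Zc m).measurableEmbedding (fun q => ‖g q‖ₑ ^ p),
      Measure.volume_eq_prod, lintegral_prod _ (mg.enorm.pow_const p).aemeasurable]
  rw [h2, ← lintegral_const_mul' _ _ (ENNReal.rpow_ne_top_of_nonneg (by linarith) hb)]
  unfold Mx
  refine lintegral_mono_ae ?_
  filter_upwards [h1] with x hx
  have hgx : Measurable fun y : Fin m → ℝ => g (x, y) := mg.comp measurable_prodMk_left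
  have hF : AEStronglyMeasurable (fun y : Fin m → ℝ => f ((Zc m).symm (x, y))) volume :=
    hgx.aestronglyMeasurable.congr (by filter_upwards [hx] with y hy; rw [hy])
  refine (holder_sl hF hp (h x)).trans (le_of_eq ?_)
  congr 1
  refine lintegral_congr_ae ?_
  filter_upwards [hx] with y hy
  rw [hy]

end Pool.Agent.Q167.LS
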