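import Pool.Agent.Q167.LS.OneV
import Pool.Agent.TH902.LS_T2
import Pool.Agent.TH209.LS_TPa
import Pool.Agent.H438R2.RZ.M1
import Pool.Agent.TH228.LS_T4
set_option autoImplicit false

/-! # The mixed norm estimate in several variables -/

open MeasureTheory Set Filter Topology
open scoped ENNReal

namespace Pool.Agent.Q167.LS

open Pool.Agent.TH280.LS
open Pool.Agent.TH209.TP (GB Gb meas_Tm Tm_add gb_mc gb_ms int_Tm Ux_bound int_gauss meas_Ux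
  Adm.int)

variable {m : ℕ}

/-- the length -/
noncomputable def le2 (η : Fin m → ℝ) : ℝ := Real.sqrt (∑ i, η i ^ 2)

lemma le2_meas : Measurable (le2 (m := m)) := by unfold le2; fun_prop

lemma H_mem {M : ℝ → ℝ} (hM : Measurable M) (hb : Gb M) {G : (Fin m → ℝ) → ℝ → ℂ}
    (hG : Adm m G) (x : ℝ) : Integrable (fun η => Ux (le2 η) M (G η) x) ∧
      MemLp (fun η => Ux (le2 η) M (G η) x) 2 := by
  obtain ⟨K, c, hc, hK, hb⟩ := hb
  obtain ⟨hGm, g, hg, hgb⟩ := id hG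
  have hmeas : Measurable (fun η : Fin m → ℝ => Ux (le2 η) M (G η) x) := by
    have h := meas_Ux hGm (M := fun _ => M) (hM.comp measurable_snd)
    exact h.comp (by fun_prop : Measurable fun η : Fin m → ℝ => (((0 : ℝ), x), η))
  have hγ : ∀ η, ∫ z, ‖G η z‖ ≤ ∫ z, g z := fun η =>
    integral_mono (Adm.int hG η).norm hg (hgb η)
  obtain ⟨B, hB⟩ : ∃ B : ℝ, B = K * (∫ z, g z) * ∫ ξ : ℝ, Real.exp (-c * ξ ^ 2) := ⟨_, rfl⟩
  have h0 : 0 ≤ ∫ ξ : ℝ, Real.exp (-c * ξ ^ 2) := integral_nonneg fun ξ => (Real.exp_pos _).le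
  have hbd : ∀ η : Fin m → ℝ, ‖Ux (le2 η) M (G η) x‖ ≤ B * Real.exp (-(c * ∑ i, η i ^ 2)) := by
    intro η
    refine (Ux_bound hc hK hb (le2 η) x).trans ?_
    have e1 : le2 η ^ 2 = ∑ i, η i ^ 2 := Real.sq_sqrt (Finset.sum_nonneg fun i _ => sq_nonneg _)
    rw [e1, hB]
    refine mul_le_mul_of_nonneg_right ?_ (Real.exp_nonneg _)
    exact mul_le_mul_of_nonneg_right (mul_le_mul_of_nonneg_left (hγ η) hK) h0
  have hB0 : 0 ≤ B := by
    have := (norm_nonneg _).trans (hbd 0)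
    exact nonneg_of_mul_nonneg_left this (Real.exp_pos _)
  refine ⟨((int_gauss m hc).const_mul B).mono' hmeas.aestronglyMeasurable
    (Eventually.of_forall hbd), ?_⟩
  rw [memLp_two_iff_integrable_sq_norm hmeas.aestronglyMeasurable]
  refine ((int_gauss m hc).const_mul (B ^ 2)).mono' (hmeas.norm.pow_const 2).aestronglyMeasurable
    (Eventually.of_forall fun η => ?_)
  rw [Real.norm_of_nonneg (sq_nonneg _)]
  have h1 := pow_le_pow_left₀ (norm_nonneg _) (hbd η) 2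
  refine h1.trans ?_
  rw [mul_pow]
  refine mul_le_mul_of_nonneg_left ?_ (sq_nonneg _)
  have h2 : Real.exp (-(c * ∑ i, η i ^ 2)) ≤ 1 := by
    rw [Real.exp_le_one_iff]
    have : 0 ≤ c * ∑ i, η i ^ 2 := mul_nonneg hc.le (Finset.sum_nonneg fun i _ => sq_nonneg _)
    linarith
  calc Real.exp (-(c * ∑ i, η i ^ 2)) ^ 2 = Real.exp (-(c * ∑ i, η i ^ 2)) *
        Real.exp (-(c * ∑ i, η i ^ 2)) := sq _
    _ ≤ Real.exp (-(c * ∑ i, η i ^ 2)) * 1 := mul_le_mul_of_nonneg_left h2 (Real.exp_nonneg _)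
    _ = _ := mul_one _

/-- Plancherel in `y` -/
lemma planch_y {M : ℝ → ℝ} (hM : Measurable M) (hb : Gb M) {G : (Fin m → ℝ) → ℝ → ℂ}
    (hG : Adm m G) (x : ℝ) :
    ∫⁻ y : Fin m → ℝ, ‖Tm m M G y x‖ₑ ^ 2 = Su volume le2 M G x := by
  obtain ⟨h1, h2⟩ := H_mem hM hb hG x
  exact ftm_planch (fun η => Ux (le2 η) M (G η) x) h1 h2

lemma Su_fin {M : ℝ → ℝ} (hM : Measurable M) (hb : Gb M) {G : (Fin m → ℝ) → ℝ → ℂ}
    (hG : Adm m G) (x : ℝ) : Su volume le2 M G x < ⊤ := by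
  obtain ⟨h1, h2⟩ := H_mem hM hb hG x
  have h := h2.eLpNorm_lt_top
  rw [eLpNorm_lt_top_iff_lintegral_rpow_enorm_lt_top (by norm_num) (by norm_num)] at h
  unfold Su
  simpa using h

lemma Su_meas {G : (Fin m → ℝ) → ℝ → ℂ} (hG : Measurable (Function.uncurry G))
    {M : ℝ → ℝ → ℝ} (hM : Measurable (Function.uncurry M)) :
    Measurable (fun z : ℝ × ℝ => Su volume (le2 (m := m)) (M z.1) G z.2) := by
  unfold Su
  exact Measurable.lintegral_prod_right'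
    (f := fun p : (ℝ × ℝ) × (Fin m → ℝ) => ‖Ux (le2 p.2) (M p.1.1) (G p.2) p.1.2‖ₑ ^ 2)
    ((meas_Ux hG hM).enorm.pow_const 2)

/-- Minkowski -/
lemma mink {Y : Type*} [MeasurableSpace Y] (ν : Measure Y) {A B D : Y → ℂ} (hA : Measurable A)
    (hB : Measurable B) (h : ∀ y, D y = A y + B y) :
    (∫⁻ y, ‖D y‖ₑ ^ 2 ∂ν) ^ (1 / 2 : ℝ) ≤
      (∫⁻ y, ‖A y‖ₑ ^ 2 ∂ν) ^ (1 / 2 : ℝ) + (∫⁻ y, ‖B y‖ₑ ^ 2 ∂ν) ^ (1 / 2 : ℝ) := by
  have h1 := ENNReal.lintegral_Lp_add_le (μ := ν) (p := 2) (f := fun y => ‖A y‖ₑ)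
    (g := fun y => ‖B y‖ₑ) hA.enorm.aemeasurable hB.enorm.aemeasurable (by norm_num)
  simp only [Pi.add_apply, ENNReal.rpow_ofNat] at h1
  refine le_trans ?_ h1
  refine ENNReal.rpow_le_rpow (lintegral_mono fun y => ?_) (by norm_num)
  rw [h]
  exact pow_le_pow_left' (enorm_add_le _ _) 2

lemma Ae (x : ℝ≥0∞) : (x ^ (1 / 2 : ℝ)) ^ 2 = x := by
  rw [← ENNReal.rpow_natCast, ← ENNReal.rpow_mul]; norm_num

lemma Ae4 (x : ℝ≥0∞) : (x ^ (1 / 2 : ℝ)) ^ 4 = x ^ 2 := by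
  rw [← ENNReal.rpow_natCast, ← ENNReal.rpow_mul, ← ENNReal.rpow_natCast]; norm_num

lemma Aep (x : ℝ≥0∞) (p : ℝ) : (x ^ (1 / 2 : ℝ)) ^ p = x ^ (p / 2) := by
  rw [← ENNReal.rpow_mul]; congr 1; ring

/-- restriction of the data in `x` -/
noncomputable def cu (D : Set ℝ) (G : (Fin m → ℝ) → ℝ → ℂ) (η : Fin m → ℝ) (x : ℝ) : ℂ :=
  D.indicator (G η) x

lemma cu_adm {D : Set ℝ} (hD : MeasurableSet D) {G : (Fin m → ℝ) → ℝ → ℂ} (hG : Adm m G) :
    Adm m (cu D G) := by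
  obtain ⟨hGm, g, hg, hb⟩ := hG
  refine ⟨?_, g, hg, fun η x => ?_⟩
  · have h2 : Measurable ((univ ×ˢ D : Set ((Fin m → ℝ) × ℝ)).indicator (Function.uncurry G)) :=
      hGm.indicator (MeasurableSet.univ.prod hD)
    convert h2 using 1
    funext z
    obtain ⟨η, x⟩ := z
    change D.indicator (G η) x = (univ ×ˢ D : Set ((Fin m → ℝ) × ℝ)).indicator
      (Function.uncurry G) (η, x)
    by_cases hx : x ∈ D
    · rw [indicator_of_mem hx, indicator_of_mem (show (η, x) ∈ univ ×ˢ D from ⟨trivial, hx⟩)]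
      rfl
    · rw [indicator_of_notMem hx, indicator_of_notMem (fun h => hx h.2)]
  · unfold cu
    by_cases hx : x ∈ D
    · rw [indicator_of_mem hx]; exact hb η x
    · rw [indicator_of_notMem hx, norm_zero]
      exact (norm_nonneg _).trans (hb η x)

lemma cu_add (D : Set ℝ) (G : (Fin m → ℝ) → ℝ → ℂ) (η : Fin m → ℝ) (x : ℝ) :
    G η x = cu D G η x + cu Dᶜ G η x := by
  unfold cu
  by_cases hx : x ∈ D
  · rw [indicator_of_mem hx, indicator_of_notMem (fun h : x ∈ Dᶜ => h hx), add_zero]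
  · rw [indicator_of_notMem hx, indicator_of_mem (show x ∈ Dᶜ from hx), zero_add]

lemma Sd_cu (D : Set ℝ) (G : (Fin m → ℝ) → ℝ → ℂ) (x : ℝ) :
    Sd volume (cu D G) x = D.indicator (Sd volume G) x := by
  unfold Sd cu
  by_cases hx : x ∈ D
  · simp only [indicator_of_mem hx]
  · simp only [indicator_of_notMem hx]; simp

lemma split_bound {M : ℝ → ℝ} (hM : Measurable M) (hb : Gb M) {G : (Fin m → ℝ) → ℝ → ℂ}
    (hG : Adm m G) {D : Set ℝ} (hD : MeasurableSet D) (x : ℝ) :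
    Su volume (le2 (m := m)) M G x ^ (1 / 2 : ℝ) ≤
      Su volume (le2 (m := m)) M (cu D G) x ^ (1 / 2 : ℝ) +
      Su volume (le2 (m := m)) M (cu Dᶜ G) x ^ (1 / 2 : ℝ) := by
  have a1 := cu_adm hD hG
  have a2 := cu_adm hD.compl hG
  have hM2 : Measurable (Function.uncurry fun _ : ℝ => M) := hM.comp measurable_snd
  have m0 : ∀ G' : (Fin m → ℝ) → ℝ → ℂ, Adm m G' → Measurable (fun y => Tm m M G' y x) := by
    intro G' hG'
    have h := meas_Tm hG'.1 hM2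
    have h2 : Measurable fun y : Fin m → ℝ => ((0 : ℝ), x, y) := by fun_prop
    have h3 := h.comp h2
    exact h3
  have m1 := m0 _ a1
  have m2 := m0 _ a2
  have hT : ∀ y, Tm m M G y x = Tm m M (cu D G) y x + Tm m M (cu Dᶜ G) y x := fun y =>
    Tm_add hM hb a1 a2 (cu_add D G) y x
  have h := mink volume m1 m2 hT
  rw [planch_y hM hb hG, planch_y hM hb a1, planch_y hM hb a2] at h
  exact h

theorem interpV (p : ℝ) (hp2 : 2 < p) (hp4 : p < 4) : ∃ C : ℝ, 0 < C ∧ ∀ (m : ℕ)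
    (M : ℝ → ℝ → ℝ) (C2 C4 : ℝ), GB M → 0 < C2 → 0 < C4 →
    (∀ G : (Fin m → ℝ) → ℝ → ℂ, Adm m G →
      ∫⁻ t in Icc (1 : ℝ) 2, ∫⁻ x : ℝ, Su volume le2 (M t) G x ≤
        ENNReal.ofReal C2 * ∫⁻ x : ℝ, Sd volume G x) →
    (∀ G : (Fin m → ℝ) → ℝ → ℂ, Adm m G →
      ∫⁻ t in Icc (1 : ℝ) 2, ∫⁻ x : ℝ, Su volume le2 (M t) G x ^ 2 ≤
        ENNReal.ofReal C4 * ∫⁻ x : ℝ, Sd volume G x ^ 2) →
    ∀ G : (Fin m → ℝ) → ℝ → ℂ, Adm m G →
      ∫⁻ t in Icc (1 : ℝ) 2, ∫⁻ x : ℝ, Su volume le2 (M t) G x ^ (p / 2) ≤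
        ENNReal.ofReal (C * C2 ^ ((4 - p) / 2) * C4 ^ ((p - 2) / 2)) *
          ∫⁻ x : ℝ, Sd volume G x ^ (p / 2) := by
  obtain ⟨C, hC, HC⟩ := Pool.Agent.H438R2.RZ.marc24 p hp2 hp4
  refine ⟨C, hC, ?_⟩
  intro m M C2 C4 hM hC2 hC4 H2 H4 G hG
  have hp0 : 0 < p / 2 := by linarith
  by_cases hfin : ∫⁻ x : ℝ, Sd volume G x ^ (p / 2) = ⊤
  · rw [hfin, ENNReal.mul_top (ENNReal.ofReal_pos.2 (by positivity)).ne']
    exact le_top
  have hSd := Sd_meas volume hG.1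
  have hae : ∀ᵐ x : ℝ, Sd volume G x < ⊤ := by
    have h1 := ae_lt_top (hSd.pow_const (p / 2)) hfin
    filter_upwards [h1] with x hx
    by_contra hcon
    rw [not_lt, top_le_iff] at hcon
    rw [hcon, ENNReal.top_rpow_of_pos hp0] at hx
    exact lt_irrefl _ hx
  obtain ⟨f, hf⟩ : ∃ f : ℝ → ℝ, f = fun x => Real.sqrt (Sd volume G x).toReal := ⟨_, rfl⟩
  have hfm : Measurable f := by rw [hf]; exact hSd.ennreal_toReal.sqrt
  have hf0 : ∀ x, 0 ≤ f x := fun x => by rw [hf]; exact Real.sqrt_nonneg _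
  have hfe : ∀ᵐ x : ℝ, ENNReal.ofReal (f x) = Sd volume G x ^ (1 / 2 : ℝ) := by
    filter_upwards [hae] with x hx
    rw [hf]
    simp only
    rw [Real.sqrt_eq_rpow, ← ENNReal.ofReal_rpow_of_nonneg ENNReal.toReal_nonneg (by norm_num),
      ENNReal.ofReal_toReal hx.ne]
  obtain ⟨F, hF⟩ : ∃ F : ℝ × ℝ → ℝ, F = fun z =>
    Real.sqrt (Su volume (le2 (m := m)) (M z.1) G z.2).toReal := ⟨_, rfl⟩
  have hSu := Su_meas hG.1 hM.meas
  have hFm : Measurable F := by rw [hF]; exact hSu.ennreal_toReal.sqrt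
  have hF0 : ∀ z, 0 ≤ F z := fun z => by rw [hF]; exact Real.sqrt_nonneg _
  have hMt : ∀ t, Measurable (M t) := fun t => hM.meas.comp measurable_prodMk_left
  have hFe : ∀ z, ENNReal.ofReal (F z) =
      Su volume (le2 (m := m)) (M z.1) G z.2 ^ (1 / 2 : ℝ) := by
    intro z
    rw [hF]
    simp only
    rw [Real.sqrt_eq_rpow, ← ENNReal.ofReal_rpow_of_nonneg ENNReal.toReal_nonneg (by norm_num),
      ENNReal.ofReal_toReal (Su_fin (hMt _) (hM.bd _) hG _).ne]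
  have lint : ∀ {K : ℝ × ℝ → ℝ≥0∞}, Measurable K →
      ∫⁻ z, K z ∂(((volume : Measure ℝ).restrict (Icc (1 : ℝ) 2)).prod volume) =
        ∫⁻ t in Icc (1 : ℝ) 2, ∫⁻ x : ℝ, K (t, x) := fun hK => lintegral_prod _ hK.aemeasurable
  have key := HC (volume : Measure ℝ) (((volume : Measure ℝ).restrict (Icc (1 : ℝ) 2)).prod
    volume) F f hFm hfm hF0 hf0 C2 C4 hC2 hC4 ?_
  · have e1 : ∫⁻ x, ENNReal.ofReal (f x) ^ p = ∫⁻ x : ℝ, Sd volume G x ^ (p / 2) := by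
      refine lintegral_congr_ae ?_
      filter_upwards [hfe] with x hx
      rw [hx, Aep]
    rw [e1, lint (hFm.ennreal_ofReal.pow_const p)] at key
    simp only [hFe, Aep] at key
    exact key
  · intro l hl
    obtain ⟨D, hD⟩ : ∃ D : Set ℝ, D = {x | l < f x} := ⟨_, rfl⟩
    have hDm : MeasurableSet D := by rw [hD]; exact measurableSet_lt measurable_const hfm
    have a1 := cu_adm hDm hG
    have a2 := cu_adm hDm.compl hG
    have s1 := Su_meas a1.1 hM.meas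
    have s2 := Su_meas a2.1 hM.meas
    refine ⟨fun z => Su volume (le2 (m := m)) (M z.1) (cu D G) z.2 ^ (1 / 2 : ℝ),
      fun z => Su volume (le2 (m := m)) (M z.1) (cu Dᶜ G) z.2 ^ (1 / 2 : ℝ),
      s1.pow_const _, s2.pow_const _, Filter.Eventually.of_forall fun z => ?_, ?_, ?_⟩
    · rw [hFe z]
      exact split_bound (hMt z.1) (hM.bd z.1) hG hDm z.2
    · simp only [Ae]
      rw [lint s1]
      refine (H2 _ a1).trans (le_of_eq ?_)
      congr 1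
      have e1 : ∫⁻ x, Sd volume (cu D G) x = ∫⁻ x in D, Sd volume G x := by
        rw [← lintegral_indicator hDm]
        exact lintegral_congr fun x => Sd_cu D G x
      rw [e1, ← hD]
      refine setLIntegral_congr_fun_ae hDm ?_
      filter_upwards [hfe] with x hx _
      rw [hx, Ae]
    · simp only [Ae4]
      rw [lint (s2.pow_const 2)]
      refine (H4 _ a2).trans (le_of_eq ?_)
      congr 1
      have e1 : ∫⁻ x, Sd volume (cu Dᶜ G) x ^ 2 = ∫⁻ x in Dᶜ, Sd volume G x ^ 2 := by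
        rw [← lintegral_indicator hDm.compl]
        refine lintegral_congr fun x => ?_
        rw [Sd_cu]
        by_cases hx : x ∈ Dᶜ
        · rw [indicator_of_mem hx, indicator_of_mem hx]
        · rw [indicator_of_notMem hx, indicator_of_notMem hx]; simp
      have e2 : {x | f x ≤ l} = Dᶜ := by
        rw [hD]; ext x; simp
      rw [e1, e2]
      refine setLIntegral_congr_fun_ae hDm.compl ?_
      filter_upwards [hfe] with x hx _
      rw [hx, Ae4]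

/-- **the mixed norm estimate** -/
theorem mix (m : ℕ) (s p : ℝ) (hm : 0 < m) (hs : 0 < s) (hp2 : 2 ≤ p) (hp4 : p ≤ 4) :
    ∃ C : ℝ, 0 < C ∧ ∀ (τ : ℝ) (G : (Fin m → ℝ) → ℝ → ℂ), 0 < τ → τ ≤ 1 → Adm m G →
    (∫⁻ t in Icc (1 : ℝ) 2, ∫⁻ x : ℝ, Su volume le2 (mc s τ t) G x ^ (p / 2) ≤
      ENNReal.ofReal C * ∫⁻ x : ℝ, Sd volume G x ^ (p / 2)) ∧
    (∫⁻ t in Icc (1 : ℝ) 2, ∫⁻ x : ℝ, Su volume le2 (ms s τ t) G x ^ (p / 2) ≤
      ENNReal.ofReal C * ∫⁻ x : ℝ, Sd volume G x ^ (p / 2)) := by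
  obtain ⟨C2, hC2, K2'⟩ := Pool.Agent.TH902.T2.t2_thm m s hs
  have K2 : ∀ (τ : ℝ) (G : (Fin m → ℝ) → ℝ → ℂ), 0 < τ → Adm m G →
      (∫⁻ t in Icc (1 : ℝ) 2, ∫⁻ x : ℝ, Su volume le2 (mc s τ t) G x ≤
        ENNReal.ofReal C2 * ∫⁻ x : ℝ, Sd volume G x) ∧
      (∫⁻ t in Icc (1 : ℝ) 2, ∫⁻ x : ℝ, Su volume le2 (ms s τ t) G x ≤
        ENNReal.ofReal C2 * ∫⁻ x : ℝ, Sd volume G x) := by
    intro τ G hτ hG
    have h := K2' τ G hτ hG
    have b1 := gb_mc (s := s) hs hτ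
    have b2 := gb_ms (s := s) hs hτ
    have e1 : ∀ t x, ∫⁻ y : Fin m → ℝ, ‖Tm m (mc s τ t) G y x‖ₑ ^ 2 =
        Su volume le2 (mc s τ t) G x := fun t x =>
      planch_y (b1.meas.comp measurable_prodMk_left) (b1.bd t) hG x
    have e2 : ∀ t x, ∫⁻ y : Fin m → ℝ, ‖Tm m (ms s τ t) G y x‖ₑ ^ 2 =
        Su volume le2 (ms s τ t) G x := fun t x =>
      planch_y (b2.meas.comp measurable_prodMk_left) (b2.bd t) hG x
    simp only [e1, e2] at h
    exact h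
  obtain ⟨C4, hC4, K4'⟩ := onev s hs
  have K4 : ∀ (τ : ℝ) (G : (Fin m → ℝ) → ℝ → ℂ), 0 < τ → τ ≤ 1 → Adm m G →
      (∫⁻ t in Icc (1 : ℝ) 2, ∫⁻ x : ℝ, Su volume le2 (mc s τ t) G x ^ 2 ≤
        ENNReal.ofReal C4 * ∫⁻ x : ℝ, Sd volume G x ^ 2) ∧
      (∫⁻ t in Icc (1 : ℝ) 2, ∫⁻ x : ℝ, Su volume le2 (ms s τ t) G x ^ 2 ≤
        ENNReal.ofReal C4 * ∫⁻ x : ℝ, Sd volume G x ^ 2) := by
    intro τ G hτ hτ1 hG
    exact K4' volume le2 τ G le2_meas hG.1 (Pool.Agent.TH228.T4.ae_pos hm) (Adm.int hG) hτ hτ1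
  rcases hp2.eq_or_lt with h | h
  · subst h
    refine ⟨C2, hC2, fun τ G hτ hτ1 hG => ?_⟩
    have h3 := K2 τ G hτ hG
    have e1 : (2 : ℝ) / 2 = 1 := by norm_num
    simp only [e1, ENNReal.rpow_one]
    exact h3
  · rcases hp4.eq_or_lt with h' | h'
    · subst h'
      refine ⟨C4, hC4, fun τ G hτ hτ1 hG => ?_⟩
      have h3 := K4 τ G hτ hτ1 hG
      have e1 : (4 : ℝ) / 2 = 2 := by norm_num
      simp only [e1, ENNReal.rpow_ofNat]
      exact h3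
    · obtain ⟨C, hC, HC⟩ := interpV p h h'
      refine ⟨C * C2 ^ ((4 - p) / 2) * C4 ^ ((p - 2) / 2), by positivity,
        fun τ G hτ hτ1 hG => ⟨?_, ?_⟩⟩
      · exact HC m (mc s τ) C2 C4 (gb_mc hs hτ) hC2 hC4
          (fun G' hG' => (K2 τ G' hτ hG').1) (fun G' hG' => (K4 τ G' hτ hτ1 hG').1) G hG
      · exact HC m (ms s τ) C2 C4 (gb_ms hs hτ) hC2 hC4
          (fun G' hG' => (K2 τ G' hτ hG').2) (fun G' hG' => (K4 τ G' hτ hτ1 hG').2) G hG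

end Pool.Agent.Q167.LS
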