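import Pool.Agent.Q167.LS.Mix
import Pool.Agent.TH280.LS.K3
set_option autoImplicit false

/-! # The vector-valued estimate for `2 ≤ p ≤ 4` over arbitrary measure spaces -/

open MeasureTheory Set Filter Topology
open scoped ENNReal

namespace Pool.Agent.Q167.LS

open Pool.Agent.TH280.LS
open Pool.Agent.TH209.TP (GB Gb gb_mc gb_ms int_Ux)

variable {Ω : Type} [MeasurableSpace Ω]

lemma ft_measV {G : Ω → ℝ → ℂ} (hG : Measurable (Function.uncurry G)) :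
    Measurable (fun z : Ω × ℝ => ft (G z.1) z.2) := by
  unfold ft
  have h : StronglyMeasurable (fun w : (Ω × ℝ) × ℝ =>
      e (-(w.2 * w.1.2)) * G w.1.1 w.2) := by
    refine Measurable.stronglyMeasurable ?_
    refine (measurable_e.comp (by fun_prop)).mul ?_
    exact hG.comp (by fun_prop : Measurable fun w : (Ω × ℝ) × ℝ => (w.1.1, w.2))
  exact h.integral_prod_right'.measurable

lemma Ux_measV {a : Ω → ℝ} (ha : Measurable a) {G : Ω → ℝ → ℂ}
    (hG : Measurable (Function.uncurry G)) {M : ℝ → ℝ → ℝ}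
    (hM : Measurable (Function.uncurry M)) :
    Measurable (fun z : (ℝ × ℝ) × Ω => Ux (a z.2) (M z.1.1) (G z.2) z.1.2) := by
  unfold Ux
  have h : StronglyMeasurable (fun w : ((ℝ × ℝ) × Ω) × ℝ =>
      e (w.1.1.2 * w.2) * (((M w.1.1.1 (ra (a w.1.2) w.2) : ℝ) : ℂ) * ft (G w.1.2) w.2)) := by
    refine Measurable.stronglyMeasurable ?_
    refine (measurable_e.comp (by fun_prop)).mul (Measurable.mul ?_ ?_)
    · refine Complex.measurable_ofReal.comp ?_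
      have h0 : Measurable (fun w : ((ℝ × ℝ) × Ω) × ℝ => a w.1.2) :=
        ha.comp (by fun_prop)
      have h1 : Measurable (fun w : ((ℝ × ℝ) × Ω) × ℝ => ra (a w.1.2) w.2) := by
        unfold ra
        fun_prop
      have h3 : Measurable (fun w : ((ℝ × ℝ) × Ω) × ℝ => w.1.1.1) := by fun_prop
      have h2 : Measurable (fun w : ((ℝ × ℝ) × Ω) × ℝ => (w.1.1.1, ra (a w.1.2) w.2)) :=
        h3.prodMk h1
      have h4 := hM.comp h2
      exact h4
    · have h5 : Measurable fun w : ((ℝ × ℝ) × Ω) × ℝ => (w.1.2, w.2) := by fun_prop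
      have h6 := (ft_measV hG).comp h5
      exact h6
  exact h.integral_prod_right'.measurable

lemma Su_measV (μ : Measure Ω) [SFinite μ] {a : Ω → ℝ} (ha : Measurable a) {G : Ω → ℝ → ℂ}
    (hG : Measurable (Function.uncurry G)) {M : ℝ → ℝ → ℝ}
    (hM : Measurable (Function.uncurry M)) :
    Measurable (fun z : ℝ × ℝ => Su μ a (M z.1) G z.2) := by
  unfold Su
  exact Measurable.lintegral_prod_right'
    (f := fun p : (ℝ × ℝ) × Ω => ‖Ux (a p.2) (M p.1.1) (G p.2) p.1.2‖ₑ ^ 2)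
    ((Ux_measV ha hG hM).enorm.pow_const 2)

/-- `L²` bound for one mass -/
lemma Ux_l2 {M : ℝ → ℝ} (hM : Measurable M) (hb : Gb M) {B : ℝ} (hB : 0 < B)
    (hMB : ∀ r, 0 ≤ r → |M r| ≤ B) {G : ℝ → ℂ} (hG : Integrable G) (a : ℝ) :
    ∫⁻ x, ‖Ux a M G x‖ₑ ^ 2 ≤ ENNReal.ofReal (B ^ 2) * ∫⁻ x, ‖G x‖ₑ ^ 2 := by
  by_cases hfin : ∫⁻ x, ‖G x‖ₑ ^ 2 = ⊤
  · rw [hfin, ENNReal.mul_top (ENNReal.ofReal_pos.2 (by positivity)).ne']
    exact le_top
  have h2 : MemLp G 2 := by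
    refine ⟨hG.1, ?_⟩
    rw [eLpNorm_lt_top_iff_lintegral_rpow_enorm_lt_top (by norm_num) (by norm_num)]
    simpa using lt_top_iff_ne_top.2 hfin
  obtain ⟨q, hq⟩ : ∃ q : ℝ → ℂ, q = fun ξ => ((M (ra a ξ) : ℝ) : ℂ) * ft G ξ := ⟨_, rfl⟩
  have hqi : Integrable q := by
    have h := int_Ux hM hb hG a 0
    refine h.congr (Eventually.of_forall fun ξ => ?_)
    simp only [zero_mul, e_zero, one_mul, hq]
  have hqb : ∀ ξ, ‖q ξ‖ ≤ B * ‖ft G ξ‖ := by
    intro ξ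
    rw [hq]
    simp only
    rw [norm_mul, Complex.norm_real, Real.norm_eq_abs]
    exact mul_le_mul_of_nonneg_right (hMB _ (Real.sqrt_nonneg _)) (norm_nonneg _)
  have hq2 : MemLp q 2 := by
    refine Pool.Agent.TH902.T2.memLp_two_of_bound hqi (K := B * ∫ z, ‖G z‖) fun ξ => ?_
    exact (hqb ξ).trans (mul_le_mul_of_nonneg_left (norm_ft_le _ _) hB.le)
  have e1 : ∫⁻ x, ‖Ux a M G x‖ₑ ^ 2 = ∫⁻ ξ, ‖q ξ‖ₑ ^ 2 := by
    rw [← ift_planch q hqi hq2]
    refine lintegral_congr fun x => ?_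
    unfold Ux
    rw [hq]
  rw [e1, ← ft_planch G hG h2, ← lintegral_const_mul' _ _ ENNReal.ofReal_ne_top]
  refine lintegral_mono fun ξ => ?_
  have h3 : ‖q ξ‖ₑ ≤ ENNReal.ofReal B * ‖ft G ξ‖ₑ := by
    rw [← ofReal_norm, ← ofReal_norm, ← ENNReal.ofReal_mul hB.le]
    exact ENNReal.ofReal_le_ofReal (hqb ξ)
  refine (pow_le_pow_left' h3 2).trans (le_of_eq ?_)
  rw [mul_pow, ENNReal.ofReal_pow hB.le]

/-- the case `p = 2` -/
lemma t2V {M : ℝ → ℝ → ℝ} (hM : GB M) {B : ℝ} (hB : 0 < B)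
    (hMB : ∀ t ∈ Icc (1 : ℝ) 2, ∀ r, 0 ≤ r → |M t r| ≤ B) (μ : Measure Ω) [SFinite μ]
    {a : Ω → ℝ} (ha : Measurable a) {G : Ω → ℝ → ℂ} (hG : Measurable (Function.uncurry G))
    (hint : ∀ ω, Integrable (G ω)) :
    ∫⁻ t in Icc (1 : ℝ) 2, ∫⁻ x : ℝ, Su μ a (M t) G x ≤
      ENNReal.ofReal (B ^ 2) * ∫⁻ x, Sd μ G x := by
  have hMt : ∀ t, Measurable (M t) := fun t => hM.meas.comp measurable_prodMk_left
  have h1 : ∀ t ∈ Icc (1 : ℝ) 2, ∫⁻ x : ℝ, Su μ a (M t) G x ≤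
      ENNReal.ofReal (B ^ 2) * ∫⁻ x, Sd μ G x := by
    intro t ht
    unfold Su Sd
    have m1 : Measurable (fun q : ℝ × Ω => ‖Ux (a q.2) (M t) (G q.2) q.1‖ₑ ^ 2) := by
      have h := Ux_measV ha hG hM.meas
      have h2 : Measurable fun q : ℝ × Ω => ((t, q.1), q.2) := by fun_prop
      have h3 := h.comp h2
      exact h3.enorm.pow_const 2
    have m2 : Measurable (fun q : ℝ × Ω => ‖G q.2 q.1‖ₑ ^ 2) :=
      (hG.comp measurable_swap).enorm.pow_const 2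
    have w1 : ∫⁻ x : ℝ, ∫⁻ ω, ‖Ux (a ω) (M t) (G ω) x‖ₑ ^ 2 ∂μ =
        ∫⁻ ω, ∫⁻ x : ℝ, ‖Ux (a ω) (M t) (G ω) x‖ₑ ^ 2 ∂volume ∂μ :=
      lintegral_lintegral_swap m1.aemeasurable
    have w2 : ∫⁻ x : ℝ, ∫⁻ ω, ‖G ω x‖ₑ ^ 2 ∂μ = ∫⁻ ω, ∫⁻ x : ℝ, ‖G ω x‖ₑ ^ 2 ∂volume ∂μ :=
      lintegral_lintegral_swap m2.aemeasurable
    rw [w1, w2, ← lintegral_const_mul' _ _ ENNReal.ofReal_ne_top]
    exact lintegral_mono fun ω => Ux_l2 (hMt t) (hM.bd t) hB (hMB t ht) (hint ω) (a ω)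
  calc ∫⁻ t in Icc (1 : ℝ) 2, ∫⁻ x : ℝ, Su μ a (M t) G x
      ≤ ∫⁻ _ in Icc (1 : ℝ) 2, ENNReal.ofReal (B ^ 2) * ∫⁻ x, Sd μ G x :=
        setLIntegral_mono' measurableSet_Icc h1
    _ = _ := by
        rw [setLIntegral_const, Real.volume_Icc]
        norm_num

/-- restriction of the data in `x` -/
noncomputable def cuV (D : Set ℝ) (G : Ω → ℝ → ℂ) (ω : Ω) (x : ℝ) : ℂ :=
  D.indicator (G ω) x

lemma cuV_meas {D : Set ℝ} (hD : MeasurableSet D) {G : Ω → ℝ → ℂ}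
    (hG : Measurable (Function.uncurry G)) : Measurable (Function.uncurry (cuV D G)) := by
  have h2 : Measurable ((univ ×ˢ D : Set (Ω × ℝ)).indicator (Function.uncurry G)) :=
    hG.indicator (MeasurableSet.univ.prod hD)
  convert h2 using 1
  funext z
  obtain ⟨ω, x⟩ := z
  change D.indicator (G ω) x = (univ ×ˢ D : Set (Ω × ℝ)).indicator
    (Function.uncurry G) (ω, x)
  by_cases hx : x ∈ D
  · rw [indicator_of_mem hx, indicator_of_mem (show (ω, x) ∈ univ ×ˢ D from ⟨trivial, hx⟩)]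
    rfl
  · rw [indicator_of_notMem hx, indicator_of_notMem (fun h => hx h.2)]

omit [MeasurableSpace Ω] in
lemma cuV_int {D : Set ℝ} (hD : MeasurableSet D) {G : Ω → ℝ → ℂ}
    (hG : ∀ ω, Integrable (G ω)) (ω : Ω) : Integrable (cuV D G ω) := (hG ω).indicator hD

omit [MeasurableSpace Ω] in
lemma cuV_add (D : Set ℝ) (G : Ω → ℝ → ℂ) (ω : Ω) :
    G ω = fun x => cuV D G ω x + cuV Dᶜ G ω x := by
  funext x
  unfold cuV
  by_cases hx : x ∈ D
  · rw [indicator_of_mem hx, indicator_of_notMem (fun h : x ∈ Dᶜ => h hx), add_zero]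
  · rw [indicator_of_notMem hx, indicator_of_mem (show x ∈ Dᶜ from hx), zero_add]

lemma Sd_cuV (μ : Measure Ω) (D : Set ℝ) (G : Ω → ℝ → ℂ) (x : ℝ) :
    Sd μ (cuV D G) x = D.indicator (Sd μ G) x := by
  unfold Sd cuV
  by_cases hx : x ∈ D
  · simp only [indicator_of_mem hx]
  · simp only [indicator_of_notMem hx]; simp

lemma ft_addV {F H : ℝ → ℂ} (hF : Integrable F) (hH : Integrable H) (ξ : ℝ) :
    ft (fun x => F x + H x) ξ = ft F ξ + ft H ξ := by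
  have key : ∀ K : ℝ → ℂ, Integrable K → Integrable (fun x => e (-(x * ξ)) * K x) := by
    intro K hK
    refine hK.bdd_mul (c := 1) ?_ (Eventually.of_forall fun x => by rw [norm_e])
    exact (continuous_e.comp (by fun_prop)).aestronglyMeasurable
  unfold ft
  rw [← integral_add (key F hF) (key H hH)]
  refine integral_congr_ae (Eventually.of_forall fun x => ?_)
  simp only
  ring

lemma Ux_addV {M : ℝ → ℝ} (hM : Measurable M) (hb : Gb M) {F H : ℝ → ℂ} (hF : Integrable F)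
    (hH : Integrable H) (a x : ℝ) :
    Ux a M (fun x => F x + H x) x = Ux a M F x + Ux a M H x := by
  unfold Ux
  rw [← integral_add (int_Ux hM hb hF a x) (int_Ux hM hb hH a x)]
  refine integral_congr_ae (Eventually.of_forall fun ξ => ?_)
  simp only
  rw [ft_addV hF hH]
  ring

lemma split_boundV (μ : Measure Ω) {M : ℝ → ℝ} (hM : Measurable M) (hb : Gb M) {a : Ω → ℝ}
    (ha : Measurable a) {G : Ω → ℝ → ℂ} (hG : Measurable (Function.uncurry G))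
    (hint : ∀ ω, Integrable (G ω)) {D : Set ℝ} (hD : MeasurableSet D) (x : ℝ) :
    Su μ a M G x ^ (1 / 2 : ℝ) ≤
      Su μ a M (cuV D G) x ^ (1 / 2 : ℝ) + Su μ a M (cuV Dᶜ G) x ^ (1 / 2 : ℝ) := by
  have hM2 : Measurable (Function.uncurry fun _ : ℝ => M) := hM.comp measurable_snd
  have m0 : ∀ G' : Ω → ℝ → ℂ, Measurable (Function.uncurry G') →
      Measurable (fun ω => Ux (a ω) M (G' ω) x) := by
    intro G' hG'
    have h := Ux_measV ha hG' hM2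
    have h2 : Measurable fun ω : Ω => (((0 : ℝ), x), ω) := by fun_prop
    have h3 := h.comp h2
    exact h3
  have hT : ∀ ω, Ux (a ω) M (G ω) x =
      Ux (a ω) M (cuV D G ω) x + Ux (a ω) M (cuV Dᶜ G ω) x := by
    intro ω
    rw [← Ux_addV hM hb (cuV_int hD hint ω) (cuV_int hD.compl hint ω), ← cuV_add]
  exact mink μ (m0 _ (cuV_meas hD hG)) (m0 _ (cuV_meas hD.compl hG)) hT

lemma tend_min (x : ℝ≥0∞) (p : ℝ) :
    Tendsto (fun n : ℕ => (min x (n : ℝ≥0∞)) ^ p) atTop (𝓝 (x ^ p)) := by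
  refine (ENNReal.continuous_rpow_const.tendsto _).comp ?_
  have h : Tendsto (fun n : ℕ => min x (n : ℝ≥0∞)) atTop (𝓝 (min x ⊤)) :=
    tendsto_const_nhds.min ENNReal.tendsto_nat_nhds_top
  rwa [min_top_right] at h

theorem interpW (p : ℝ) (hp2 : 2 < p) (hp4 : p < 4) : ∃ C : ℝ, 0 < C ∧
    ∀ {Ω : Type} [MeasurableSpace Ω] (μ : Measure Ω) [SFinite μ] (a : Ω → ℝ)
    (M : ℝ → ℝ → ℝ) (C2 C4 : ℝ), Measurable a → GB M → 0 < C2 → 0 < C4 →
    (∀ G : Ω → ℝ → ℂ, Measurable (Function.uncurry G) → (∀ ω, Integrable (G ω)) →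
      ∫⁻ t in Icc (1 : ℝ) 2, ∫⁻ x : ℝ, Su μ a (M t) G x ≤
        ENNReal.ofReal C2 * ∫⁻ x : ℝ, Sd μ G x) →
    (∀ G : Ω → ℝ → ℂ, Measurable (Function.uncurry G) → (∀ ω, Integrable (G ω)) →
      ∫⁻ t in Icc (1 : ℝ) 2, ∫⁻ x : ℝ, Su μ a (M t) G x ^ 2 ≤
        ENNReal.ofReal C4 * ∫⁻ x : ℝ, Sd μ G x ^ 2) →
    ∀ G : Ω → ℝ → ℂ, Measurable (Function.uncurry G) → (∀ ω, Integrable (G ω)) →
      ∫⁻ t in Icc (1 : ℝ) 2, ∫⁻ x : ℝ, Su μ a (M t) G x ^ (p / 2) ≤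
        ENNReal.ofReal (C * C2 ^ ((4 - p) / 2) * C4 ^ ((p - 2) / 2)) *
          ∫⁻ x : ℝ, Sd μ G x ^ (p / 2) := by
  obtain ⟨C, hC, HC⟩ := Pool.Agent.H438R2.RZ.marc24 p hp2 hp4
  refine ⟨C, hC, ?_⟩
  intro Ω _ μ _ a M C2 C4 ha hM hC2 hC4 H2 H4 G hG hint
  have hp0 : 0 < p / 2 := by linarith
  by_cases hfin : ∫⁻ x : ℝ, Sd μ G x ^ (p / 2) = ⊤
  · rw [hfin, ENNReal.mul_top (ENNReal.ofReal_pos.2 (by positivity)).ne']
    exact le_top
  have hSd := Sd_meas μ hG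
  have hae : ∀ᵐ x : ℝ, Sd μ G x < ⊤ := by
    have h1 := ae_lt_top (hSd.pow_const (p / 2)) hfin
    filter_upwards [h1] with x hx
    by_contra hcon
    rw [not_lt, top_le_iff] at hcon
    rw [hcon, ENNReal.top_rpow_of_pos hp0] at hx
    exact lt_irrefl _ hx
  obtain ⟨f, hf⟩ : ∃ f : ℝ → ℝ, f = fun x => Real.sqrt (Sd μ G x).toReal := ⟨_, rfl⟩
  have hfm : Measurable f := by rw [hf]; exact hSd.ennreal_toReal.sqrt
  have hf0 : ∀ x, 0 ≤ f x := fun x => by rw [hf]; exact Real.sqrt_nonneg _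
  have hfe : ∀ᵐ x : ℝ, ENNReal.ofReal (f x) = Sd μ G x ^ (1 / 2 : ℝ) := by
    filter_upwards [hae] with x hx
    rw [hf]
    simp only
    rw [Real.sqrt_eq_rpow, ← ENNReal.ofReal_rpow_of_nonneg ENNReal.toReal_nonneg (by norm_num),
      ENNReal.ofReal_toReal hx.ne]
  have hSu := Su_measV μ ha hG hM.meas
  have hMt : ∀ t, Measurable (M t) := fun t => hM.meas.comp measurable_prodMk_left
  have lint : ∀ {K : ℝ × ℝ → ℝ≥0∞}, Measurable K →
      ∫⁻ z, K z ∂(((volume : Measure ℝ).restrict (Icc (1 : ℝ) 2)).prod volume) =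
        ∫⁻ t in Icc (1 : ℝ) 2, ∫⁻ x : ℝ, K (t, x) := fun hK => lintegral_prod _ hK.aemeasurable
  obtain ⟨S, hS⟩ : ∃ S : ℝ × ℝ → ℝ≥0∞, S = fun z => Su μ a (M z.1) G z.2 ^ (1 / 2 : ℝ) := ⟨_, rfl⟩
  have hSm : Measurable S := by rw [hS]; exact hSu.pow_const _
  have hSz : ∀ t x, S (t, x) ^ p = Su μ a (M t) G x ^ (p / 2) := by
    intro t x
    rw [hS]
    exact Aep _ _
  -- truncation
  have trunc : ∀ n : ℕ, ∫⁻ z, (min (S z) (n : ℝ≥0∞)) ^ p
      ∂(((volume : Measure ℝ).restrict (Icc (1 : ℝ) 2)).prod volume) ≤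
        ENNReal.ofReal (C * C2 ^ ((4 - p) / 2) * C4 ^ ((p - 2) / 2)) *
          ∫⁻ x : ℝ, Sd μ G x ^ (p / 2) := by
    intro n
    obtain ⟨F, hF⟩ : ∃ F : ℝ × ℝ → ℝ, F = fun z => (min (S z) (n : ℝ≥0∞)).toReal := ⟨_, rfl⟩
    have hFm : Measurable F := by
      rw [hF]; exact (hSm.min measurable_const).ennreal_toReal
    have hF0 : ∀ z, 0 ≤ F z := fun z => by rw [hF]; exact ENNReal.toReal_nonneg
    have hFe : ∀ z, ENNReal.ofReal (F z) = min (S z) (n : ℝ≥0∞) := by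
      intro z
      rw [hF]
      exact ENNReal.ofReal_toReal (ne_top_of_le_ne_top (ENNReal.natCast_ne_top n)
        (min_le_right _ _))
    have key := HC (volume : Measure ℝ) (((volume : Measure ℝ).restrict (Icc (1 : ℝ) 2)).prod
      volume) F f hFm hfm hF0 hf0 C2 C4 hC2 hC4 ?_
    · have e1 : ∫⁻ x, ENNReal.ofReal (f x) ^ p = ∫⁻ x : ℝ, Sd μ G x ^ (p / 2) := by
        refine lintegral_congr_ae ?_
        filter_upwards [hfe] with x hx
        rw [hx, Aep]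
      rw [e1] at key
      simp only [hFe] at key
      exact key
    · intro l hl
      obtain ⟨D, hD⟩ : ∃ D : Set ℝ, D = {x | l < f x} := ⟨_, rfl⟩
      have hDm : MeasurableSet D := by rw [hD]; exact measurableSet_lt measurable_const hfm
      have a1 := cuV_meas hDm hG
      have a2 := cuV_meas hDm.compl hG
      have s1 := Su_measV μ ha a1 hM.meas
      have s2 := Su_measV μ ha a2 hM.meas
      refine ⟨fun z => Su μ a (M z.1) (cuV D G) z.2 ^ (1 / 2 : ℝ),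
        fun z => Su μ a (M z.1) (cuV Dᶜ G) z.2 ^ (1 / 2 : ℝ),
        s1.pow_const _, s2.pow_const _, Filter.Eventually.of_forall fun z => ?_, ?_, ?_⟩
      · rw [hFe z]
        refine (min_le_left _ _).trans ?_
        rw [hS]
        exact split_boundV μ (hMt z.1) (hM.bd z.1) ha hG hint hDm z.2
      · simp only [Ae]
        rw [lint s1]
        refine (H2 _ a1 (cuV_int hDm hint)).trans (le_of_eq ?_)
        congr 1
        have e1 : ∫⁻ x, Sd μ (cuV D G) x = ∫⁻ x in D, Sd μ G x := by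
          rw [← lintegral_indicator hDm]
          exact lintegral_congr fun x => Sd_cuV μ D G x
        rw [e1, ← hD]
        refine setLIntegral_congr_fun_ae hDm ?_
        filter_upwards [hfe] with x hx _
        rw [hx, Ae]
      · simp only [Ae4]
        rw [lint (s2.pow_const 2)]
        refine (H4 _ a2 (cuV_int hDm.compl hint)).trans (le_of_eq ?_)
        congr 1
        have e1 : ∫⁻ x, Sd μ (cuV Dᶜ G) x ^ 2 = ∫⁻ x in Dᶜ, Sd μ G x ^ 2 := by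
          rw [← lintegral_indicator hDm.compl]
          refine lintegral_congr fun x => ?_
          rw [Sd_cuV]
          by_cases hx : x ∈ Dᶜ
          · rw [indicator_of_mem hx, indicator_of_mem hx]
          · rw [indicator_of_notMem hx, indicator_of_notMem hx]; simp
        have e2 : {x | f x ≤ l} = Dᶜ := by
          rw [hD]; ext x; simp
        rw [e1, e2]
        refine setLIntegral_congr_fun_ae hDm.compl ?_
        filter_upwards [hfe] with x hx _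
        rw [hx, Ae4]
  have e3 : ∫⁻ t in Icc (1 : ℝ) 2, ∫⁻ x : ℝ, Su μ a (M t) G x ^ (p / 2) =
      ∫⁻ z, S z ^ p ∂(((volume : Measure ℝ).restrict (Icc (1 : ℝ) 2)).prod volume) := by
    rw [lint (hSm.pow_const p)]
    simp only [hSz]
  rw [e3]
  calc ∫⁻ z, S z ^ p ∂(((volume : Measure ℝ).restrict (Icc (1 : ℝ) 2)).prod volume)
      = ∫⁻ z, liminf (fun n : ℕ => (min (S z) (n : ℝ≥0∞)) ^ p) atTop
          ∂(((volume : Measure ℝ).restrict (Icc (1 : ℝ) 2)).prod volume) := by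
        refine lintegral_congr fun z => ?_
        exact ((tend_min (S z) p).liminf_eq).symm
    _ ≤ liminf (fun n : ℕ => ∫⁻ z, (min (S z) (n : ℝ≥0∞)) ^ p
          ∂(((volume : Measure ℝ).restrict (Icc (1 : ℝ) 2)).prod volume)) atTop :=
        lintegral_liminf_le fun n => (hSm.min measurable_const).pow_const p
    _ ≤ _ := by
        refine (liminf_le_liminf (v := fun _ => ENNReal.ofReal (C * C2 ^ ((4 - p) / 2) *
          C4 ^ ((p - 2) / 2)) * ∫⁻ x : ℝ, Sd μ G x ^ (p / 2))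
          (Eventually.of_forall fun n => trunc n)).trans (le_of_eq (liminf_const _))

/-- **the vector-valued estimate** -/
theorem mixW (s p : ℝ) (hs : 0 < s) (hp2 : 2 ≤ p) (hp4 : p ≤ 4) :
    ∃ C : ℝ, 0 < C ∧ ∀ {Ω : Type} [MeasurableSpace Ω] (μ : Measure Ω) [SFinite μ] (a : Ω → ℝ)
    (τ : ℝ) (G : Ω → ℝ → ℂ), Measurable a → (∀ᵐ ω ∂μ, 0 < a ω) →
    Measurable (Function.uncurry G) → (∀ ω, Integrable (G ω)) → 0 < τ → τ ≤ 1 →
    (∫⁻ t in Icc (1 : ℝ) 2, ∫⁻ x : ℝ, Su μ a (mc s τ t) G x ^ (p / 2) ≤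
      ENNReal.ofReal C * ∫⁻ x : ℝ, Sd μ G x ^ (p / 2)) ∧
    (∫⁻ t in Icc (1 : ℝ) 2, ∫⁻ x : ℝ, Su μ a (ms s τ t) G x ^ (p / 2) ≤
      ENNReal.ofReal C * ∫⁻ x : ℝ, Sd μ G x ^ (p / 2)) := by
  obtain ⟨C4, hC4, K4⟩ := onev s hs
  have bc : ∀ τ : ℝ, 0 < τ → ∀ t ∈ Icc (1 : ℝ) 2, ∀ r, 0 ≤ r → |mc s τ t r| ≤ 3 := by
    intro τ hτ t ht r hr
    refine (mc_le s τ t r hs).trans ?_
    have h2 : Real.exp (-(τ * r ^ 2)) ≤ 1 := by
      rw [Real.exp_le_one_iff]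
      have : 0 ≤ τ * r ^ 2 := by positivity
      linarith
    linarith
  have bs : ∀ τ : ℝ, 0 < τ → ∀ t ∈ Icc (1 : ℝ) 2, ∀ r, 0 ≤ r → |ms s τ t r| ≤ 3 := by
    intro τ hτ t ht r hr
    have ht2 : |t| ≤ 2 := by rw [abs_of_nonneg (by linarith [ht.1])]; exact ht.2
    refine (ms_le s τ t r hs ht2 hr).trans ?_
    have h2 : Real.exp (-(τ * r ^ 2)) ≤ 1 := by
      rw [Real.exp_le_one_iff]
      have : 0 ≤ τ * r ^ 2 := by positivity
      linarith
    linarith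
  have e9 : (3 : ℝ) ^ 2 = 9 := by norm_num
  rcases hp2.eq_or_lt with h | h
  · subst h
    refine ⟨9, by norm_num, fun {Ω} _ μ _ a τ G ha hpos hG hint hτ hτ1 => ?_⟩
    have e1 : (2 : ℝ) / 2 = 1 := by norm_num
    simp only [e1, ENNReal.rpow_one]
    rw [← e9]
    exact ⟨t2V (gb_mc hs hτ) (by norm_num) (bc τ hτ) μ ha hG hint,
      t2V (gb_ms hs hτ) (by norm_num) (bs τ hτ) μ ha hG hint⟩
  · rcases hp4.eq_or_lt with h' | h'
    · subst h'
      refine ⟨C4, hC4, fun {Ω} _ μ _ a τ G ha hpos hG hint hτ hτ1 => ?_⟩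
      have h3 := K4 μ a τ G ha hG hpos hint hτ hτ1
      have e1 : (4 : ℝ) / 2 = 2 := by norm_num
      simp only [e1, ENNReal.rpow_ofNat]
      exact h3
    · obtain ⟨C, hC, HC⟩ := interpW p h h'
      refine ⟨C * 9 ^ ((4 - p) / 2) * C4 ^ ((p - 2) / 2), by positivity,
        fun {Ω} _ μ _ a τ G ha hpos hG hint hτ hτ1 => ⟨?_, ?_⟩⟩
      · refine HC μ a (mc s τ) 9 C4 ha (gb_mc hs hτ) (by norm_num) hC4
          (fun G' hG' hi' => ?_) (fun G' hG' hi' => (K4 μ a τ G' ha hG' hpos hi' hτ hτ1).1) G hG hint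
        rw [← e9]
        exact t2V (gb_mc hs hτ) (by norm_num) (bc τ hτ) μ ha hG' hi'
      · refine HC μ a (ms s τ) 9 C4 ha (gb_ms hs hτ) (by norm_num) hC4
          (fun G' hG' hi' => ?_) (fun G' hG' hi' => (K4 μ a τ G' ha hG' hpos hi' hτ hτ1).2) G hG hint
        rw [← e9]
        exact t2V (gb_ms hs hτ) (by norm_num) (bs τ hτ) μ ha hG' hi'

end Pool.Agent.Q167.LS
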