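import Pool.Agent.TH496.LS_MOD
set_option autoImplicit false

/-! # The modulus of continuity for convex phases with a critical point -/

open MeasureTheory Set Filter Asymptotics
open scoped ENNReal Topology

namespace Pool.Agent.Q167.LS

open Pool.Agent.TH280.LS
open Pool.Agent.TH496.MOD

/-- convex functions with derivative bounded by `2` and with a critical point -/
def Cv (g g' : ℝ → ℝ) : Prop := (∀ ξ, HasDerivAt g (g' ξ) ξ) ∧ Monotone g' ∧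
  (∀ ξ, |g' ξ| ≤ 2) ∧ ∃ ξ0, g' ξ0 = 0

def S_MOD2 : Prop := ∃ C : ℝ, 0 < C ∧ ∀ (N : ℝ) (g g' : ℝ → ℝ) (χ φ : ℝ → ℂ), 1 ≤ N → Cv g g' →
  Cut 2 N χ → Measurable φ → MemLp φ 2 (volume.restrict (Icc (-2 : ℝ) 2)) →
  (∀ τ : ℝ, 0 < τ → ∫⁻ ξ : ℝ, ‖χ (ξ + τ) * Ph φ (g (ξ + τ)) - χ ξ * Ph φ (g ξ)‖ₑ ^ 2 ≤
    ENNReal.ofReal (C * τ) * ∫⁻ t in Icc (-2 : ℝ) 2, ‖φ t‖ₑ ^ 2) ∧
  (∀ τ : ℝ, 0 < τ → τ ≤ 1 → ∫⁻ ξ : ℝ, ‖χ (ξ + τ) * Ph φ (g (ξ + τ)) - χ ξ * Ph φ (g ξ)‖ₑ ^ 2 ≤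
    ENNReal.ofReal (C * τ ^ 2) * ∫⁻ t in Icc (-2 : ℝ) 2, ‖φ t‖ₑ ^ 2)

/-- odd extension -/
noncomputable def fp (g' : ℝ → ℝ) (ξ : ℝ) : ℝ := if 0 ≤ ξ then g' ξ else -g' (-ξ)

lemma ev_abs {g g' : ℝ → ℝ} (h1 : ∀ ξ, HasDerivAt g (g' ξ) ξ) (h2 : Monotone g')
    (h3 : ∀ ξ, |g' ξ| ≤ 2) (h0 : g' 0 = 0) : Ev (fun ξ => g |ξ|) (fp g') := by
  refine ⟨fun ξ => ?_, ?_, fun ξ => ?_, fun ξ => ?_⟩
  · rcases lt_trichotomy ξ 0 with hξ | hξ | hξ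
    · have e1 : fp g' ξ = -g' (-ξ) := by unfold fp; rw [if_neg (not_le.2 hξ)]
      rw [e1]
      have h4 : HasDerivAt (fun x => g (-x)) (-g' (-ξ)) ξ := by
        have := (h1 (-ξ)).comp ξ (hasDerivAt_neg ξ)
        rw [mul_neg_one] at this
        exact this
      refine h4.congr_of_eventuallyEq ?_
      filter_upwards [eventually_lt_nhds hξ] with x hx
      rw [abs_of_neg hx]
    · subst hξ
      have e1 : fp g' 0 = 0 := by unfold fp; rw [if_pos le_rfl, h0]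
      rw [e1, hasDerivAt_iff_isLittleO_nhds_zero]
      have h4 := h1 0
      rw [h0, hasDerivAt_iff_isLittleO_nhds_zero] at h4
      have h5 : Tendsto (fun x : ℝ => |x|) (𝓝 0) (𝓝 0) := by
        have := (continuous_abs (G := ℝ)).tendsto 0
        simpa using this
      have h6 := h4.comp_tendsto h5
      have h7 := (isLittleO_abs_right (u := fun x : ℝ => x)).1 h6
      simpa [Function.comp_def] using h7
    · have e1 : fp g' ξ = g' ξ := by unfold fp; rw [if_pos hξ.le]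
      rw [e1]
      refine (h1 ξ).congr_of_eventuallyEq ?_
      filter_upwards [eventually_gt_nhds hξ] with x hx
      rw [abs_of_pos hx]
  · intro x y hxy
    unfold fp
    split_ifs with hx hy hy
    · exact h2 hxy
    · exact absurd (hx.trans hxy) hy
    · have a1 : g' 0 ≤ g' (-x) := h2 (by linarith [not_le.1 hx])
      have a2 : g' 0 ≤ g' y := h2 hy
      linarith
    · have := h2 (show -y ≤ -x by linarith)
      linarith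
  · unfold fp
    split_ifs with hx
    · exact h3 ξ
    · rw [abs_neg]; exact h3 _
  · simp only [abs_neg]

lemma cv_cont {g g' : ℝ → ℝ} (h : Cv g g') : Continuous g :=
  continuous_iff_continuousAt.2 fun x => (h.1 x).continuousAt

lemma cv_meas {g g' : ℝ → ℝ} (h : Cv g g') : Measurable g := (cv_cont h).measurable

lemma cv_lip {g g' : ℝ → ℝ} (h : Cv g g') (a b : ℝ) : |g b - g a| ≤ 2 * |b - a| := by
  have := Convex.norm_image_sub_le_of_norm_hasDerivWithin_le (f := g) (f' := g')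
    (s := univ) (x := a) (y := b) (C := 2)
    (fun x _ => (h.1 x).hasDerivWithinAt) (fun x _ => h.2.2.1 x) convex_univ
    (mem_univ _) (mem_univ _)
  simpa [Real.norm_eq_abs] using this

lemma total2 {g g' : ℝ → ℝ} (h : Cv g g') {φ : ℝ → ℂ} (hm : Measurable φ)
    (h2 : MemLp φ 2 (volume.restrict (Icc (-2 : ℝ) 2)))
    {τ m n : ℝ} {M : ℝ≥0∞} (hτ : 0 < τ) (hm1 : min 1 (2 * τ) ≤ m) (hn0 : 0 ≤ n)
    (hn : 1 / 2 < τ → 12 * τ ≤ n)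
    (hM : ∀ ξ, ‖Ph φ (g (ξ + τ)) - Ph φ (g ξ)‖ₑ ^ 2 ≤ M) :
    ∫⁻ ξ, ‖Ph φ (g (ξ + τ)) - Ph φ (g ξ)‖ₑ ^ 2 ≤
      2 * (ENNReal.ofReal (m * τ * (4 * Real.pi) ^ 2 + n) *
        ∫⁻ t in Icc (-2 : ℝ) 2, ‖φ t‖ₑ ^ 2) + ENNReal.ofReal τ * M := by
  obtain ⟨c1, c2, c3, ξ0, c4⟩ := h
  have ev1 : Ev (fun ξ => g (ξ0 + |ξ|)) (fp fun ξ => g' (ξ0 + ξ)) := by
    refine ev_abs (g := fun ξ => g (ξ0 + ξ)) (fun ξ => ?_) (fun x y hxy => c2 (by linarith))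
      (fun ξ => c3 _) (by rw [add_zero]; exact c4)
    have := (c1 (ξ0 + ξ)).comp_const_add ξ0 ξ
    exact this
  have ev2 : Ev (fun ξ => g (ξ0 - |ξ|)) (fp fun ξ => -g' (ξ0 - ξ)) := by
    refine ev_abs (g := fun ξ => g (ξ0 - ξ)) (fun ξ => ?_)
      (fun x y hxy => neg_le_neg (c2 (by linarith)))
      (fun ξ => by rw [abs_neg]; exact c3 _) (by rw [sub_zero, c4, neg_zero])
    have := (c1 (ξ0 - ξ)).comp_const_sub ξ0 ξ
    exact this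
  have p1 := plus ev1 hm h2 hτ hm1 hn0 hn
  have p2 := plus ev2 hm h2 hτ hm1 hn0 hn
  obtain ⟨F, hF⟩ : ∃ F : ℝ → ℝ≥0∞, F = fun ξ => ‖Ph φ (g (ξ + τ)) - Ph φ (g ξ)‖ₑ ^ 2 := ⟨_, rfl⟩
  obtain ⟨R, hR⟩ : ∃ R : ℝ≥0∞, R = ENNReal.ofReal (m * τ * (4 * Real.pi) ^ 2 + n) *
        ∫⁻ t in Icc (-2 : ℝ) 2, ‖φ t‖ₑ ^ 2 := ⟨_, rfl⟩
  rw [← hR] at p1 p2
  have q1 : ∫⁻ ξ in Ici ξ0, F ξ ≤ R := by
    refine le_trans (le_of_eq ?_) p1
    rw [← lintegral_indicator measurableSet_Ici, ← lintegral_indicator measurableSet_Ici,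
      ← lintegral_add_right_eq_self _ ξ0]
    refine lintegral_congr fun ξ => ?_
    by_cases hξ : (0 : ℝ) ≤ ξ
    · rw [indicator_of_mem (show ξ + ξ0 ∈ Ici ξ0 by simpa using hξ),
        indicator_of_mem (show ξ ∈ Ici (0 : ℝ) from hξ), hF]
      simp only
      rw [abs_of_nonneg hξ, abs_of_nonneg (by linarith : 0 ≤ ξ + τ)]
      have e1 : ξ + ξ0 + τ = ξ0 + (ξ + τ) := by ring
      rw [e1, add_comm ξ ξ0]
    · rw [indicator_of_notMem (show ξ + ξ0 ∉ Ici ξ0 by simpa using hξ),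
        indicator_of_notMem (show ξ ∉ Ici (0 : ℝ) from hξ)]
  have q2 : ∫⁻ ξ in Iic (ξ0 - τ), F ξ ≤ R := by
    refine le_trans (le_of_eq ?_) p2
    rw [← lintegral_indicator measurableSet_Iic, ← lintegral_indicator measurableSet_Ici,
      ← lintegral_sub_left_eq_self _ (ξ0 - τ)]
    refine lintegral_congr fun ξ => ?_
    by_cases hξ : (0 : ℝ) ≤ ξ
    · rw [indicator_of_mem (show ξ0 - τ - ξ ∈ Iic (ξ0 - τ) by simpa using hξ),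
        indicator_of_mem (show ξ ∈ Ici (0 : ℝ) from hξ), hF]
      simp only
      rw [abs_of_nonneg hξ, abs_of_nonneg (by linarith : 0 ≤ ξ + τ)]
      have e1 : ξ0 - τ - ξ + τ = ξ0 - ξ := by ring
      have e2 : ξ0 - τ - ξ = ξ0 - (ξ + τ) := by ring
      rw [e1, e2, ← enorm_neg, neg_sub]
    · rw [indicator_of_notMem (show ξ0 - τ - ξ ∉ Iic (ξ0 - τ) by simpa using hξ),
        indicator_of_notMem (show ξ ∉ Ici (0 : ℝ) from hξ)]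
  have q3 : ∫⁻ ξ in Icc (ξ0 - τ) ξ0, F ξ ≤ ENNReal.ofReal τ * M := by
    calc ∫⁻ ξ in Icc (ξ0 - τ) ξ0, F ξ
        ≤ ∫⁻ _ in Icc (ξ0 - τ) ξ0, M := lintegral_mono fun ξ => by rw [hF]; exact hM ξ
      _ = _ := by rw [setLIntegral_const, Real.volume_Icc, sub_sub_cancel, mul_comm]
  have h1 : ∫⁻ ξ, F ξ ≤ (∫⁻ ξ in Iic (ξ0 - τ), F ξ) +
      ((∫⁻ ξ in Icc (ξ0 - τ) ξ0, F ξ) + ∫⁻ ξ in Ici ξ0, F ξ) := by
    rw [← setLIntegral_univ]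
    refine (lintegral_mono_set (fun ξ _ => ?_ :
      (univ : Set ℝ) ⊆ Iic (ξ0 - τ) ∪ (Icc (ξ0 - τ) ξ0 ∪ Ici ξ0))).trans
        ((lintegral_union_le _ _ _).trans (add_le_add le_rfl (lintegral_union_le _ _ _)))
    rcases le_total ξ (ξ0 - τ) with h3 | h3
    · exact Or.inl h3
    · rcases le_total ξ ξ0 with h4 | h4
      · exact Or.inr (Or.inl ⟨h3, h4⟩)
      · exact Or.inr (Or.inr h4)
  have h1' : ∫⁻ ξ, ‖Ph φ (g (ξ + τ)) - Ph φ (g ξ)‖ₑ ^ 2 = ∫⁻ ξ, F ξ := by rw [hF]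
  rw [h1', ← hR]
  calc ∫⁻ ξ, F ξ ≤ R + (ENNReal.ofReal τ * M + R) :=
        h1.trans (add_le_add q2 (add_le_add q3 q1))
    _ = 2 * R + ENNReal.ofReal τ * M := by ring

/-- the general step -/
lemma step2 {N τ c m n q : ℝ} (hN : 1 ≤ N) {χ : ℝ → ℂ} (hχ : Cut 2 N χ)
    {g g' : ℝ → ℝ} (h : Cv g g') {φ : ℝ → ℂ} (hm : Measurable φ)
    (h2 : MemLp φ 2 (volume.restrict (Icc (-2 : ℝ) 2)))
    (hτ : 0 < τ) (hm1 : min 1 (2 * τ) ≤ m) (hn0 : 0 ≤ n) (hq0 : 0 ≤ q)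
    (hn : 1 / 2 < τ → 12 * τ ≤ n)
    (hM : ∀ ξ, ‖Ph φ (g (ξ + τ)) - Ph φ (g ξ)‖ₑ ^ 2 ≤
      ENNReal.ofReal q * ∫⁻ t in Icc (-2 : ℝ) 2, ‖φ t‖ₑ ^ 2)
    (hc : ∀ ξ, ‖χ (ξ + τ) - χ ξ‖ ≤ c) {K : ℝ}
    (hK : 64 * N * c ^ 2 + 4 * (m * τ * (4 * Real.pi) ^ 2 + n) + 2 * (τ * q) ≤ K) :
    ∫⁻ ξ : ℝ, ‖χ (ξ + τ) * Ph φ (g (ξ + τ)) - χ ξ * Ph φ (g ξ)‖ₑ ^ 2 ≤
      ENNReal.ofReal K * ∫⁻ t in Icc (-2 : ℝ) 2, ‖φ t‖ₑ ^ 2 := by
  have hm0 : 0 ≤ m := le_trans (le_min zero_le_one (by linarith)) hm1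
  have ht := total2 h hm h2 hτ hm1 hn0 hn hM
  have hcp := cutPart hN hχ hc (V := fun ξ => ‖Ph φ (g (ξ + τ))‖ₑ ^ 2)
    (fun ξ => Ph_sup hm (g (ξ + τ)))
  have hg := cv_meas h
  have hPhm : Measurable (Ph φ) := (continuous_Ph hm h2).measurable
  set A := ∫⁻ t in Icc (-2 : ℝ) 2, ‖φ t‖ₑ ^ 2 with hA
  have hFm : Measurable fun ξ => 2 * ‖Ph φ (g (ξ + τ)) - Ph φ (g ξ)‖ₑ ^ 2 :=
    ((((hPhm.comp (hg.comp (measurable_id.add_const τ))).sub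
      (hPhm.comp hg)).enorm).pow_const 2).const_mul 2
  calc ∫⁻ ξ : ℝ, ‖χ (ξ + τ) * Ph φ (g (ξ + τ)) - χ ξ * Ph φ (g ξ)‖ₑ ^ 2
      ≤ ∫⁻ ξ : ℝ, (2 * (‖χ (ξ + τ) - χ ξ‖ₑ ^ 2 * ‖Ph φ (g (ξ + τ))‖ₑ ^ 2) +
          2 * ‖Ph φ (g (ξ + τ)) - Ph φ (g ξ)‖ₑ ^ 2) := by
        refine lintegral_mono fun ξ => ?_
        have e1 : χ (ξ + τ) * Ph φ (g (ξ + τ)) - χ ξ * Ph φ (g ξ) =
          (χ (ξ + τ) - χ ξ) * Ph φ (g (ξ + τ)) + χ ξ * (Ph φ (g (ξ + τ)) - Ph φ (g ξ)) := by ring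
        simp only [e1]
        refine (sq_add _ _).trans ?_
        rw [enorm_mul, mul_pow]
        refine add_le_add le_rfl (mul_le_mul_right ?_ _)
        rw [enorm_mul, mul_pow]
        have h3 : ‖χ ξ‖ₑ ^ 2 ≤ 1 := by
          rw [← ofReal_norm, ← ENNReal.ofReal_pow (norm_nonneg _)]
          rw [ENNReal.ofReal_le_one]
          exact pow_le_one₀ (norm_nonneg _) (hχ.1 ξ)
        calc ‖χ ξ‖ₑ ^ 2 * ‖Ph φ (g (ξ + τ)) - Ph φ (g ξ)‖ₑ ^ 2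
            ≤ 1 * ‖Ph φ (g (ξ + τ)) - Ph φ (g ξ)‖ₑ ^ 2 := mul_le_mul_left h3 _
          _ = _ := one_mul _
    _ = 2 * (∫⁻ ξ : ℝ, ‖χ (ξ + τ) - χ ξ‖ₑ ^ 2 * ‖Ph φ (g (ξ + τ))‖ₑ ^ 2) +
          2 * ∫⁻ ξ : ℝ, ‖Ph φ (g (ξ + τ)) - Ph φ (g ξ)‖ₑ ^ 2 := by
        rw [lintegral_add_right _ hFm, lintegral_const_mul' _ _ (by norm_num),
          lintegral_const_mul' _ _ (by norm_num)]
    _ ≤ 2 * (ENNReal.ofReal (8 * N * c ^ 2) * (4 * A)) +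
          2 * (2 * (ENNReal.ofReal (m * τ * (4 * Real.pi) ^ 2 + n) * A) +
            ENNReal.ofReal τ * (ENNReal.ofReal q * A)) :=
        add_le_add (mul_le_mul_right hcp _) (mul_le_mul_right ht _)
    _ = ENNReal.ofReal (64 * N * c ^ 2 + 4 * (m * τ * (4 * Real.pi) ^ 2 + n) + 2 * (τ * q)) *
          A := by
        have p1 : 0 ≤ 8 * N * c ^ 2 := by positivity
        have p2 : 0 ≤ m * τ * (4 * Real.pi) ^ 2 + n := by positivity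
        have p3 : 0 ≤ τ * q := by positivity
        rw [show 64 * N * c ^ 2 = 8 * (8 * N * c ^ 2) by ring]
        generalize 8 * N * c ^ 2 = u1 at p1 ⊢
        generalize m * τ * (4 * Real.pi) ^ 2 + n = u2 at p2 ⊢
        rw [ENNReal.ofReal_add (by positivity) (by positivity),
          ENNReal.ofReal_add (by positivity) (by positivity),
          ENNReal.ofReal_mul (p := 8) (by norm_num), ENNReal.ofReal_mul (p := 4) (by norm_num),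
          ENNReal.ofReal_mul (p := 2) (by norm_num), ENNReal.ofReal_mul (p := τ) hτ.le]
        have q8 : ENNReal.ofReal 8 = 8 := by norm_num
        have q4 : ENNReal.ofReal 4 = 4 := by norm_num
        have q2 : ENNReal.ofReal 2 = 2 := by norm_num
        rw [q8, q4, q2]
        ring
    _ ≤ _ := mul_le_mul_left (ENNReal.ofReal_le_ofReal hK) _

theorem mod2 : S_MOD2 := by
  refine ⟨1000 + 40 * (4 * Real.pi) ^ 2, by positivity, ?_⟩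
  intro N g g' χ φ hN h hχ hm h2
  have hN0 : 0 < N := by linarith
  have hP : 0 ≤ (4 * Real.pi) ^ 2 := by positivity
  have hcut1 : ∀ τ : ℝ, 0 < τ → ∀ ξ, ‖χ (ξ + τ) - χ ξ‖ ≤ 2 / N * τ := by
    intro τ hτ ξ
    have := hχ.2.1 (ξ + τ) ξ
    rwa [add_sub_cancel_left, abs_of_pos hτ] at this
  have hcut2 : ∀ τ : ℝ, ∀ ξ, ‖χ (ξ + τ) - χ ξ‖ ≤ 2 := by
    intro τ ξ
    refine (norm_sub_le _ _).trans ?_
    linarith [hχ.1 (ξ + τ), hχ.1 ξ]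
  constructor
  · intro τ hτ
    have hM : ∀ ξ, ‖Ph φ (g (ξ + τ)) - Ph φ (g ξ)‖ₑ ^ 2 ≤
        ENNReal.ofReal 16 * ∫⁻ t in Icc (-2 : ℝ) 2, ‖φ t‖ₑ ^ 2 := by
      intro ξ
      refine (sq_sub _ _).trans ?_
      refine (add_le_add (mul_le_mul_right (Ph_sup hm _) _)
        (mul_le_mul_right (Ph_sup hm _) _)).trans (le_of_eq ?_)
      have : ENNReal.ofReal 16 = 16 := by norm_num
      rw [this]; ring
    rcases le_or_gt τ N with hle | hlt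
    · refine step2 hN hχ h hm h2 (m := 1) (n := 12 * τ) (q := 16) (c := 2 / N * τ) hτ
        (min_le_left _ _) (by positivity) (by norm_num) (fun _ => le_rfl) hM (hcut1 τ hτ) ?_
      have e1 : 64 * N * (2 / N * τ) ^ 2 = 256 * τ * (τ / N) := by field_simp; ring
      have e2 : τ / N ≤ 1 := by rw [div_le_one hN0]; exact hle
      have e3 : 256 * τ * (τ / N) ≤ 256 * τ := by
        have : 0 ≤ 256 * τ := by positivity
        nlinarith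
      rw [e1]
      nlinarith [mul_nonneg hτ.le hP]
    · refine step2 hN hχ h hm h2 (m := 1) (n := 12 * τ) (q := 16) (c := 2) hτ
        (min_le_left _ _) (by positivity) (by norm_num) (fun _ => le_rfl) hM (hcut2 τ) ?_
      nlinarith [mul_nonneg hτ.le hP]
  · intro τ hτ hτ1
    have hM : ∀ ξ, ‖Ph φ (g (ξ + τ)) - Ph φ (g ξ)‖ₑ ^ 2 ≤
        ENNReal.ofReal ((2 * τ) ^ 2 * (4 * (4 * Real.pi) ^ 2)) *
          ∫⁻ t in Icc (-2 : ℝ) 2, ‖φ t‖ₑ ^ 2 := by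
      intro ξ
      refine (Ph_lip hm h2 _ _).trans ?_
      rw [← mul_assoc, ← ENNReal.ofReal_mul (by positivity)]
      refine mul_le_mul_left (ENNReal.ofReal_le_ofReal ?_) _
      apply mul_le_mul_of_nonneg_right _ (by positivity)
      have := cv_lip h ξ (ξ + τ)
      rw [add_sub_cancel_left, abs_of_pos hτ] at this
      rw [← sq_abs]
      exact pow_le_pow_left₀ (abs_nonneg _) this 2
    refine step2 hN hχ h hm h2 (m := 2 * τ) (n := 24 * τ ^ 2)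
      (q := (2 * τ) ^ 2 * (4 * (4 * Real.pi) ^ 2)) (c := 2 / N * τ) hτ
      (min_le_right _ _) (by positivity) (by positivity) ?_ hM (hcut1 τ hτ) ?_
    · intro h3; nlinarith
    · have e1 : 64 * N * (2 / N * τ) ^ 2 = 256 * τ ^ 2 * (1 / N) := by field_simp; ring
      have e2 : 1 / N ≤ 1 := by rw [div_le_one hN0]; exact hN
      have e3 : 256 * τ ^ 2 * (1 / N) ≤ 256 * τ ^ 2 := by
        have : 0 ≤ 256 * τ ^ 2 := by positivity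
        nlinarith
      have e4 : τ ^ 3 ≤ τ ^ 2 := by nlinarith [sq_nonneg τ]
      have e5 : 2 * (τ * ((2 * τ) ^ 2 * (4 * (4 * Real.pi) ^ 2))) =
        32 * (τ ^ 3 * (4 * Real.pi) ^ 2) := by ring
      have e6 : τ ^ 3 * (4 * Real.pi) ^ 2 ≤ τ ^ 2 * (4 * Real.pi) ^ 2 :=
        mul_le_mul_of_nonneg_right e4 hP
      have e7 : 4 * (2 * τ * τ * (4 * Real.pi) ^ 2 + 24 * τ ^ 2) =
        8 * (τ ^ 2 * (4 * Real.pi) ^ 2) + 96 * τ ^ 2 := by ring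
      rw [e1, e5, e7]
      have e8 : (1000 + 40 * (4 * Real.pi) ^ 2) * τ ^ 2 =
        1000 * τ ^ 2 + 40 * (τ ^ 2 * (4 * Real.pi) ^ 2) := by ring
      rw [e8]
      have e9 : 0 ≤ τ ^ 2 := by positivity
      linarith

end Pool.Agent.Q167.LS
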