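import Pool.Agent.Q167.LS.SumV
import Pool.Agent.TH312.LS_ONE
set_option autoImplicit false

/-! # The vector valued estimates for the two propagators of the wave equation -/

open MeasureTheory Set Filter Topology
open scoped ENNReal

namespace Pool.Agent.Q167.LS

open Pool.Agent.TH280.LS
open Pool.Agent.TH986.SUM (mu)
open Pool.Agent.TH312.ONE (SyK wa syk_wa syk_wb integrable_wa integrable_wb Ux_mc Ux_ms
  continuous_wa neg_le cont_Vx)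

lemma add_sq2 (x y : ℝ≥0∞) : (x + y) ^ 2 ≤ 2 * x ^ 2 + 2 * y ^ 2 := by
  have h := am_gm x y
  calc (x + y) ^ 2 = x ^ 2 + y ^ 2 + 2 * (x * y) := by ring
    _ ≤ x ^ 2 + y ^ 2 + 2 * (x ^ 2 / 2 + y ^ 2 / 2) := by gcongr
    _ = 2 * x ^ 2 + 2 * y ^ 2 := by
        rw [mul_add, ENNReal.mul_div_cancel (by norm_num) (by norm_num),
          ENNReal.mul_div_cancel (by norm_num) (by norm_num)]
        ring

lemma half_sq (u v : ℂ) : ‖(1 / 2 : ℂ) * (u + v)‖ₑ ^ 2 ≤ ‖u‖ₑ ^ 2 + ‖v‖ₑ ^ 2 := by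
  have h : ‖(1 / 2 : ℂ) * (u + v)‖ ^ 2 ≤ ‖u‖ ^ 2 + ‖v‖ ^ 2 := by
    have h1 : ‖(1 / 2 : ℂ) * (u + v)‖ ≤ (1 / 2) * (‖u‖ + ‖v‖) := by
      rw [norm_mul]
      have : ‖(1 / 2 : ℂ)‖ = 1 / 2 := by simp
      rw [this]
      exact mul_le_mul_of_nonneg_left (norm_add_le _ _) (by norm_num)
    have h2 := pow_le_pow_left₀ (norm_nonneg _) h1 2
    nlinarith [sq_nonneg (‖u‖ - ‖v‖), norm_nonneg u, norm_nonneg v]
  have h' : ‖(1 / 2 : ℂ) * (u + v)‖₊ ^ 2 ≤ ‖u‖₊ ^ 2 + ‖v‖₊ ^ 2 := by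
    rw [← NNReal.coe_le_coe]; push_cast; exact h
  simp only [enorm_eq_nnnorm]
  exact_mod_cast h'

lemma three_sq (u v w : ℂ) : ‖(1 / (2 * Complex.I) : ℂ) * (u - v) + (1 / 2 : ℂ) * w‖ₑ ^ 2 ≤
    ‖u‖ₑ ^ 2 + ‖v‖ₑ ^ 2 + ‖w‖ₑ ^ 2 := by
  have h : ‖(1 / (2 * Complex.I) : ℂ) * (u - v) + (1 / 2 : ℂ) * w‖ ^ 2 ≤
      ‖u‖ ^ 2 + ‖v‖ ^ 2 + ‖w‖ ^ 2 := by
    have h1 : ‖(1 / (2 * Complex.I) : ℂ) * (u - v) + (1 / 2 : ℂ) * w‖ ≤
        (1 / 2) * (‖u‖ + ‖v‖ + ‖w‖) := by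
      refine (norm_add_le _ _).trans ?_
      rw [norm_mul, norm_mul]
      have e1 : ‖(1 / 2 : ℂ)‖ = 1 / 2 := by simp
      have e2 : ‖(1 / (2 * Complex.I) : ℂ)‖ = 1 / 2 := by simp
      rw [e1, e2]
      have := norm_sub_le u v
      linarith
    have h2 := pow_le_pow_left₀ (norm_nonneg _) h1 2
    nlinarith [sq_nonneg (‖u‖ - ‖v‖), sq_nonneg (‖u‖ - ‖w‖), sq_nonneg (‖v‖ - ‖w‖),
      norm_nonneg u, norm_nonneg v, norm_nonneg w]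
  have h' : ‖(1 / (2 * Complex.I) : ℂ) * (u - v) + (1 / 2 : ℂ) * w‖₊ ^ 2 ≤
      ‖u‖₊ ^ 2 + ‖v‖₊ ^ 2 + ‖w‖₊ ^ 2 := by
    rw [← NNReal.coe_le_coe]; push_cast; exact h
  simp only [enorm_eq_nnnorm]
  exact_mod_cast h'

lemma sumKV (s A : ℝ) (hs : 0 < s) (hA : 0 < A) : ∃ C : ℝ, 0 < C ∧
    ∀ {Ω : Type} [MeasurableSpace Ω] (μ : Measure Ω) [SFinite μ] (a : Ω → ℝ) (w : ℝ → ℝ)
    (G : Ω → ℝ → ℂ), Measurable a → Measurable w → Measurable (Function.uncurry G) →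
    (∀ᵐ ω ∂μ, 0 < a ω) → SyK s A w → (∀ ω, Integrable (fun ξ => w (ra (a ω) ξ))) →
    (∀ ω, Integrable (G ω)) →
    ∫⁻ z, Sq μ a (fun ω ξ => ((w (ra (a ω) ξ) : ℝ) : ℂ)) G z ^ 2 ∂mu ≤
      ENNReal.ofReal C * ∫⁻ x, Sd μ G x ^ 2 := by
  obtain ⟨C, hC, h1⟩ := sv_thm s hs
  refine ⟨A ^ 4 * C, by positivity, ?_⟩
  intro Ω _ μ _ a w G ha hwm hG hpos hw hi hint
  have hsy : Sy s (fun r => ((w r / A : ℝ) : ℂ)) := by
    constructor
    · intro r hr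
      rw [Complex.norm_real, Real.norm_eq_abs, abs_div, abs_of_pos hA, div_le_iff₀ hA, mul_comm]
      exact hw.1 r hr
    · intro r r' hr hrr
      rw [← Complex.ofReal_sub, Complex.norm_real, Real.norm_eq_abs, ← sub_div, abs_div,
        abs_of_pos hA, div_le_iff₀ hA, mul_comm]
      exact hw.2 r r' hr hrr
  have h2 := h1 μ a (fun r => ((w r / A : ℝ) : ℂ)) G ha
    (Complex.measurable_ofReal.comp (hwm.div_const A)) hG hpos hsy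
    (fun ω => ((hi ω).div_const A).ofReal) hint
  have e : ∀ ω t x, Vx (a ω) (fun ξ => ((w (ra (a ω) ξ) : ℝ) : ℂ)) (G ω) t x =
      (A : ℂ) * Vx (a ω) (fun ξ => (fun r => ((w r / A : ℝ) : ℂ)) (ra (a ω) ξ)) (G ω) t x := by
    intro ω t x
    unfold Vx
    rw [← integral_const_mul]
    congr 1
    funext ξ
    have hA' : (A : ℂ) ≠ 0 := by exact_mod_cast hA.ne'
    push_cast
    field_simp
  have e2 : ‖(A : ℂ)‖ₑ = ENNReal.ofReal A := by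
    rw [← ofReal_norm, Complex.norm_real, Real.norm_eq_abs, abs_of_pos hA]
  have e3 : ∀ z, Sq μ a (fun ω ξ => ((w (ra (a ω) ξ) : ℝ) : ℂ)) G z ^ 2 =
      ENNReal.ofReal (A ^ 4) *
        Sq μ a (fun ω ξ => (fun r => ((w r / A : ℝ) : ℂ)) (ra (a ω) ξ)) G z ^ 2 := by
    intro z
    have e4 : Sq μ a (fun ω ξ => ((w (ra (a ω) ξ) : ℝ) : ℂ)) G z =
        ENNReal.ofReal (A ^ 2) *
        Sq μ a (fun ω ξ => (fun r => ((w r / A : ℝ) : ℂ)) (ra (a ω) ξ)) G z := by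
      unfold Sq
      rw [← lintegral_const_mul' _ _ ENNReal.ofReal_ne_top]
      refine lintegral_congr fun ω => ?_
      rw [e, enorm_mul, mul_pow, e2, ← ENNReal.ofReal_pow hA.le]
    rw [e4, mul_pow, ← ENNReal.ofReal_pow (by positivity)]
    congr 2
    ring
  simp only [e3]
  rw [lintegral_const_mul' _ _ ENNReal.ofReal_ne_top, ENNReal.ofReal_mul (by positivity), mul_assoc]
  exact mul_le_mul' le_rfl h2

section
variable {Ω : Type} [MeasurableSpace Ω]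

/-- square function of multiplier operators -/
noncomputable def Su (μ : Measure Ω) (a : Ω → ℝ) (M : ℝ → ℝ) (G : Ω → ℝ → ℂ) (x : ℝ) : ℝ≥0∞ :=
  ∫⁻ ω, ‖Ux (a ω) M (G ω) x‖ₑ ^ 2 ∂μ

lemma mu_eq : mu = ((volume : Measure ℝ).restrict (Icc (-2 : ℝ) 2)).prod volume := rfl

lemma mu_lint {F : ℝ × ℝ → ℝ≥0∞} (hF : Measurable F) :
    ∫⁻ z, F z ∂mu = ∫⁻ t in Icc (-2 : ℝ) 2, ∫⁻ x : ℝ, F (t, x) := by
  rw [mu_eq, lintegral_prod _ hF.aemeasurable]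

lemma cosV {C τ s : ℝ} (hτ : 0 < τ) (hs : 0 < s) (μ : Measure Ω) [SFinite μ] {a : Ω → ℝ}
    {G : Ω → ℝ → ℂ} (ha : Measurable a) (hG : Measurable (Function.uncurry G))
    (hint : ∀ ω, Integrable (G ω))
    (h : ∫⁻ z, Sq μ a (fun ω ξ => ((wa τ s (ra (a ω) ξ) : ℝ) : ℂ)) G z ^ 2 ∂mu ≤
      ENNReal.ofReal C * ∫⁻ x, Sd μ G x ^ 2) :
    ∫⁻ t in Icc (1 : ℝ) 2, ∫⁻ x : ℝ, Su μ a (mc s τ t) G x ^ 2 ≤
      4 * ENNReal.ofReal C * ∫⁻ x, Sd μ G x ^ 2 := by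
  have hr : Measurable (fun p : Ω × ℝ => ra (a p.1) p.2) := by
    unfold ra; fun_prop
  have hwm : Measurable (Function.uncurry fun (ω : Ω) (ξ : ℝ) => ((wa τ s (ra (a ω) ξ) : ℝ) : ℂ)) :=
    Complex.measurable_ofReal.comp ((continuous_wa τ s).measurable.comp hr)
  obtain ⟨S, hS⟩ : ∃ S, S = Sq μ a (fun ω ξ => ((wa τ s (ra (a ω) ξ) : ℝ) : ℂ)) G := ⟨_, rfl⟩
  have hSm : Measurable S := by rw [hS]; exact Sq_meas μ ha hwm hG
  have hVm := Vx_meas ha hwm hG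
  rw [← hS] at h
  rw [mu_lint (hSm.pow_const 2)] at h
  have hpt : ∀ t x, Su μ a (mc s τ t) G x ≤ S (t, x) + S (-t, x) := by
    intro t x
    rw [hS]
    unfold Su Sq
    rw [← lintegral_add_left]
    · refine lintegral_mono fun ω => ?_
      rw [Ux_mc t x hτ hs (hint ω)]
      exact half_sq _ _
    · exact ((hVm.comp (measurable_id.prodMk measurable_const)).enorm).pow_const 2
  have hmx : ∀ t, Measurable (fun x => 2 * S (t, x) ^ 2) := fun t =>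
    ((hSm.comp (measurable_const.prodMk measurable_id)).pow_const 2).const_mul 2
  have hm2 : Measurable (fun t => 2 * ∫⁻ x : ℝ, S (t, x) ^ 2) :=
    (Measurable.lintegral_prod_right' (hSm.pow_const 2)).const_mul 2
  calc ∫⁻ t in Icc (1 : ℝ) 2, ∫⁻ x : ℝ, Su μ a (mc s τ t) G x ^ 2
      ≤ ∫⁻ t in Icc (1 : ℝ) 2, (2 * (∫⁻ x : ℝ, S (t, x) ^ 2) + 2 * ∫⁻ x : ℝ, S (-t, x) ^ 2) := by
        refine lintegral_mono fun t => ?_
        rw [← lintegral_const_mul' _ _ (by norm_num), ← lintegral_const_mul' _ _ (by norm_num),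
          ← lintegral_add_left (hmx t)]
        refine lintegral_mono fun x => ?_
        exact (pow_le_pow_left' (hpt t x) 2).trans (add_sq2 _ _)
    _ = 2 * (∫⁻ t in Icc (1 : ℝ) 2, ∫⁻ x : ℝ, S (t, x) ^ 2) +
          2 * ∫⁻ t in Icc (1 : ℝ) 2, ∫⁻ x : ℝ, S (-t, x) ^ 2 := by
        rw [lintegral_add_left hm2, lintegral_const_mul' _ _ (by norm_num),
          lintegral_const_mul' _ _ (by norm_num)]
    _ ≤ 2 * (∫⁻ t in Icc (-2 : ℝ) 2, ∫⁻ x : ℝ, S (t, x) ^ 2) +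
          2 * ∫⁻ t in Icc (-2 : ℝ) 2, ∫⁻ x : ℝ, S (t, x) ^ 2 := by
        refine add_le_add (mul_le_mul' le_rfl (lintegral_mono_set
          (Icc_subset_Icc (by norm_num) le_rfl))) (mul_le_mul' le_rfl ?_)
        exact neg_le (fun t => ∫⁻ x : ℝ, S (t, x) ^ 2)
    _ ≤ 2 * (ENNReal.ofReal C * ∫⁻ x, Sd μ G x ^ 2) +
          2 * (ENNReal.ofReal C * ∫⁻ x, Sd μ G x ^ 2) := by gcongr
    _ = _ := by ring

lemma sinV {C C' τ s : ℝ} (hτ : 0 < τ) (hs : 0 < s) (μ : Measure Ω) [SFinite μ] {a : Ω → ℝ}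
    {G : Ω → ℝ → ℂ} (ha : Measurable a) (hG : Measurable (Function.uncurry G))
    (hpos : ∀ᵐ ω ∂μ, 0 < a ω) (hint : ∀ ω, Integrable (G ω))
    (h : ∫⁻ z, Sq μ a (fun ω ξ =>
        ((2 * Real.pi * ra (a ω) ξ * wa τ (s + 1) (ra (a ω) ξ) : ℝ) : ℂ)) G z ^ 2 ∂mu ≤
      ENNReal.ofReal C * ∫⁻ x, Sd μ G x ^ 2)
    (h' : ∫⁻ z, Sq μ a (fun ω ξ => ((wa τ (s + 1) (ra (a ω) ξ) : ℝ) : ℂ)) G z ^ 2 ∂mu ≤
      ENNReal.ofReal C' * ∫⁻ x, Sd μ G x ^ 2) :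
    ∫⁻ t in Icc (1 : ℝ) 2, ∫⁻ x : ℝ, Su μ a (ms s τ t) G x ^ 2 ≤
      4 * (ENNReal.ofReal C + ENNReal.ofReal C + 64 * ENNReal.ofReal C') *
        ∫⁻ x, Sd μ G x ^ 2 := by
  have hr : Measurable (fun p : Ω × ℝ => ra (a p.1) p.2) := by
    unfold ra; fun_prop
  have hwm : Measurable (Function.uncurry fun (ω : Ω) (ξ : ℝ) =>
      ((2 * Real.pi * ra (a ω) ξ * wa τ (s + 1) (ra (a ω) ξ) : ℝ) : ℂ)) :=
    Complex.measurable_ofReal.comp ((hr.const_mul (2 * Real.pi)).mul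
      ((continuous_wa τ (s + 1)).measurable.comp hr))
  have hwm' : Measurable (Function.uncurry fun (ω : Ω) (ξ : ℝ) =>
      ((wa τ (s + 1) (ra (a ω) ξ) : ℝ) : ℂ)) :=
    Complex.measurable_ofReal.comp ((continuous_wa τ (s + 1)).measurable.comp hr)
  obtain ⟨S, hS⟩ : ∃ S, S = Sq μ a (fun ω ξ =>
    ((2 * Real.pi * ra (a ω) ξ * wa τ (s + 1) (ra (a ω) ξ) : ℝ) : ℂ)) G := ⟨_, rfl⟩
  obtain ⟨S', hS'⟩ : ∃ S', S' = Sq μ a (fun ω ξ => ((wa τ (s + 1) (ra (a ω) ξ) : ℝ) : ℂ)) G :=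
    ⟨_, rfl⟩
  have hSm : Measurable S := by rw [hS]; exact Sq_meas μ ha hwm hG
  have hSm' : Measurable S' := by rw [hS']; exact Sq_meas μ ha hwm' hG
  have hVm := Vx_meas ha hwm hG
  have hVm' := Vx_meas ha hwm' hG
  rw [← hS] at h
  rw [← hS'] at h'
  rw [mu_lint (hSm.pow_const 2)] at h
  rw [mu_lint (hSm'.pow_const 2)] at h'
  obtain ⟨J, hJ⟩ : ∃ J : ℝ → ℝ≥0∞, J = fun x => 4 * ∫⁻ t' in Icc (-2 : ℝ) 2, S' (t', x) := ⟨_, rfl⟩
  have hvol : (volume.restrict (Icc (-2 : ℝ) 2)) univ = 4 := by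
    rw [Measure.restrict_apply MeasurableSet.univ, univ_inter, Real.volume_Icc]
    norm_num
  have hJm : Measurable J := by
    rw [hJ]
    exact (Measurable.lintegral_prod_right' (ν := volume.restrict (Icc (-2 : ℝ) 2))
      (f := fun p : ℝ × ℝ => S' (p.2, p.1)) (hSm'.comp measurable_swap)).const_mul 4
  have hI : ∀ t x, t ∈ Icc (1 : ℝ) 2 → ∫⁻ ω, ‖∫ t' in (-t)..t,
      Vx (a ω) (fun ξ => ((wa τ (s + 1) (ra (a ω) ξ) : ℝ) : ℂ)) (G ω) t' x‖ₑ ^ 2 ∂μ ≤ J x := by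
    intro t x ht
    have hle : -t ≤ t := by linarith [ht.1]
    have m3 : Measurable (fun p : Ω × ℝ => ‖Vx (a p.1)
        (fun ξ => ((wa τ (s + 1) (ra (a p.1) ξ) : ℝ) : ℂ)) (G p.1) p.2 x‖ₑ ^ 2) := by
      have := hVm'.comp (by fun_prop : Measurable fun p : Ω × ℝ => (p.1, (p.2, x)))
      exact this.enorm.pow_const 2
    calc ∫⁻ ω, ‖∫ t' in (-t)..t,
          Vx (a ω) (fun ξ => ((wa τ (s + 1) (ra (a ω) ξ) : ℝ) : ℂ)) (G ω) t' x‖ₑ ^ 2 ∂μ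
        ≤ ∫⁻ ω, 4 * ∫⁻ t' in Icc (-2 : ℝ) 2,
          ‖Vx (a ω) (fun ξ => ((wa τ (s + 1) (ra (a ω) ξ) : ℝ) : ℂ)) (G ω) t' x‖ₑ ^ 2 ∂volume ∂μ := by
          refine lintegral_mono fun ω => ?_
          have h1 : ‖∫ t' in (-t)..t,
              Vx (a ω) (fun ξ => ((wa τ (s + 1) (ra (a ω) ξ) : ℝ) : ℂ)) (G ω) t' x‖ₑ ≤
              ∫⁻ t' in Icc (-2 : ℝ) 2,
              ‖Vx (a ω) (fun ξ => ((wa τ (s + 1) (ra (a ω) ξ) : ℝ) : ℂ)) (G ω) t' x‖ₑ := by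
            rw [intervalIntegral.integral_of_le hle]
            refine (enorm_integral_le_lintegral_enorm _).trans (lintegral_mono_set ?_)
            intro y hy
            exact ⟨by linarith [hy.1, ht.2], by linarith [hy.2, ht.2]⟩
          have h2 : AEMeasurable (fun t' => ‖Vx (a ω)
              (fun ξ => ((wa τ (s + 1) (ra (a ω) ξ) : ℝ) : ℂ)) (G ω) t' x‖ₑ)
              (volume.restrict (Icc (-2 : ℝ) 2)) := by
            have := hVm'.comp (by fun_prop : Measurable fun t' : ℝ => (ω, (t', x)))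
            exact this.enorm.aemeasurable
          have h3 := Pool.Agent.TH496.MOD.cs_l _ _ h2
          rw [hvol] at h3
          exact (pow_le_pow_left' h1 2).trans h3
      _ = 4 * ∫⁻ ω, ∫⁻ t' in Icc (-2 : ℝ) 2,
          ‖Vx (a ω) (fun ξ => ((wa τ (s + 1) (ra (a ω) ξ) : ℝ) : ℂ)) (G ω) t' x‖ₑ ^ 2 ∂volume ∂μ := by
          rw [lintegral_const_mul' _ _ (by norm_num)]
      _ = J x := by
          rw [lintegral_lintegral_swap m3.aemeasurable, hJ, hS']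
          rfl
  have hJ2 : ∀ x, J x ^ 2 ≤ 64 * ∫⁻ t' in Icc (-2 : ℝ) 2, S' (t', x) ^ 2 := by
    intro x
    rw [hJ]
    simp only
    have h2 : AEMeasurable (fun t' => S' (t', x)) (volume.restrict (Icc (-2 : ℝ) 2)) :=
      (hSm'.comp (by fun_prop : Measurable fun t' : ℝ => (t', x))).aemeasurable
    have h3 := Pool.Agent.TH496.MOD.cs_l _ _ h2
    rw [hvol] at h3
    rw [mul_pow]
    calc (4 : ℝ≥0∞) ^ 2 * (∫⁻ t' in Icc (-2 : ℝ) 2, S' (t', x)) ^ 2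
        ≤ 4 ^ 2 * (4 * ∫⁻ t' in Icc (-2 : ℝ) 2, S' (t', x) ^ 2) := by gcongr
      _ = _ := by rw [← mul_assoc]; norm_num
  have hJI : ∫⁻ x, J x ^ 2 ≤ 64 * (ENNReal.ofReal C' * ∫⁻ x, Sd μ G x ^ 2) := by
    calc ∫⁻ x, J x ^ 2 ≤ ∫⁻ x, 64 * ∫⁻ t' in Icc (-2 : ℝ) 2, S' (t', x) ^ 2 :=
          lintegral_mono fun x => hJ2 x
      _ = 64 * ∫⁻ x, ∫⁻ t' in Icc (-2 : ℝ) 2, S' (t', x) ^ 2 :=
          lintegral_const_mul' _ _ (by norm_num)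
      _ = 64 * ∫⁻ t' in Icc (-2 : ℝ) 2, ∫⁻ x, S' (t', x) ^ 2 := by
          rw [lintegral_lintegral_swap]
          exact ((hSm'.comp measurable_swap).pow_const 2).aemeasurable
      _ ≤ _ := mul_le_mul' le_rfl h'
  have hpt : ∀ t x, t ∈ Icc (1 : ℝ) 2 → Su μ a (ms s τ t) G x ≤ S (t, x) + S (-t, x) + J x := by
    intro t x ht
    have m1 : Measurable (fun ω => ‖Vx (a ω) (fun ξ =>
        ((2 * Real.pi * ra (a ω) ξ * wa τ (s + 1) (ra (a ω) ξ) : ℝ) : ℂ)) (G ω) t x‖ₑ ^ 2) :=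
      ((hVm.comp (by fun_prop : Measurable fun ω : Ω => (ω, (t, x)))).enorm).pow_const 2
    have m2 : Measurable (fun ω => ‖Vx (a ω) (fun ξ =>
        ((2 * Real.pi * ra (a ω) ξ * wa τ (s + 1) (ra (a ω) ξ) : ℝ) : ℂ)) (G ω) (-t) x‖ₑ ^ 2) :=
      ((hVm.comp (by fun_prop : Measurable fun ω : Ω => (ω, (-t, x)))).enorm).pow_const 2
    calc Su μ a (ms s τ t) G x ≤ ∫⁻ ω, (‖Vx (a ω) (fun ξ =>
        ((2 * Real.pi * ra (a ω) ξ * wa τ (s + 1) (ra (a ω) ξ) : ℝ) : ℂ)) (G ω) t x‖ₑ ^ 2 +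
        ‖Vx (a ω) (fun ξ =>
        ((2 * Real.pi * ra (a ω) ξ * wa τ (s + 1) (ra (a ω) ξ) : ℝ) : ℂ)) (G ω) (-t) x‖ₑ ^ 2 +
        ‖∫ t' in (-t)..t,
        Vx (a ω) (fun ξ => ((wa τ (s + 1) (ra (a ω) ξ) : ℝ) : ℂ)) (G ω) t' x‖ₑ ^ 2) ∂μ := by
          unfold Su
          refine lintegral_mono_ae ?_
          filter_upwards [hpos] with ω hω
          rw [Ux_ms t x (by linarith [ht.1]) hω hτ hs (hint ω)]
          exact three_sq _ _ _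
      _ ≤ _ := by
          have m12 : Measurable (fun ω => ‖Vx (a ω) (fun ξ =>
            ((2 * Real.pi * ra (a ω) ξ * wa τ (s + 1) (ra (a ω) ξ) : ℝ) : ℂ)) (G ω) t x‖ₑ ^ 2 +
            ‖Vx (a ω) (fun ξ => ((2 * Real.pi * ra (a ω) ξ * wa τ (s + 1) (ra (a ω) ξ) : ℝ) : ℂ))
              (G ω) (-t) x‖ₑ ^ 2) := m1.add m2
          rw [lintegral_add_left m12, lintegral_add_left m1]
          rw [hS]
          exact add_le_add le_rfl (hI t x ht)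
  have hmx : ∀ t, Measurable (fun x => S (t, x) ^ 2) := fun t =>
    (hSm.comp (measurable_const.prodMk measurable_id)).pow_const 2
  have hm2 : Measurable (fun t => ∫⁻ x : ℝ, S (t, x) ^ 2) :=
    Measurable.lintegral_prod_right' (hSm.pow_const 2)
  have four : ∀ x y z : ℝ≥0∞, (x + y + z) ^ 2 ≤ 4 * (x ^ 2 + y ^ 2 + z ^ 2) := by
    intro x y z
    calc (x + y + z) ^ 2 ≤ 2 * (x + y) ^ 2 + 2 * z ^ 2 := add_sq2 _ _
      _ ≤ 2 * (2 * x ^ 2 + 2 * y ^ 2) + (2 + 2) * z ^ 2 := by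
          gcongr
          · exact add_sq2 _ _
          · exact le_self_add
      _ = _ := by ring
  calc ∫⁻ t in Icc (1 : ℝ) 2, ∫⁻ x : ℝ, Su μ a (ms s τ t) G x ^ 2
      ≤ ∫⁻ t in Icc (1 : ℝ) 2, 4 * (((∫⁻ x : ℝ, S (t, x) ^ 2) + ∫⁻ x : ℝ, S (-t, x) ^ 2) +
          ∫⁻ x, J x ^ 2) := by
        refine setLIntegral_mono' measurableSet_Icc fun t ht => ?_
        have hadd : Measurable (fun x => S (t, x) ^ 2 + S (-t, x) ^ 2) :=
          (hmx t).add (hmx (-t))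
        rw [← lintegral_add_left (hmx t), ← lintegral_add_left hadd,
          ← lintegral_const_mul' _ _ (by norm_num)]
        refine lintegral_mono fun x => ?_
        exact (pow_le_pow_left' (hpt t x ht) 2).trans (four _ _ _)
    _ = 4 * (((∫⁻ t in Icc (1 : ℝ) 2, ∫⁻ x : ℝ, S (t, x) ^ 2) +
          ∫⁻ t in Icc (1 : ℝ) 2, ∫⁻ x : ℝ, S (-t, x) ^ 2) + ∫⁻ x, J x ^ 2) := by
        rw [lintegral_const_mul' _ _ (by norm_num)]
        have hm3 : Measurable (fun t => ∫⁻ x : ℝ, S (-t, x) ^ 2) := hm2.comp measurable_neg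
        have hadd : Measurable (fun t => (∫⁻ x : ℝ, S (t, x) ^ 2) +
            ∫⁻ x : ℝ, S (-t, x) ^ 2) := hm2.add hm3
        rw [lintegral_add_left hadd, lintegral_add_left hm2]
        have h1 : ∫⁻ t in Icc (1 : ℝ) 2, (∫⁻ x, J x ^ 2) = ∫⁻ x, J x ^ 2 := by
          rw [lintegral_const, Measure.restrict_apply MeasurableSet.univ, univ_inter,
            Real.volume_Icc]
          norm_num
        rw [h1]
    _ ≤ 4 * ((ENNReal.ofReal C * ∫⁻ x, Sd μ G x ^ 2) +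
          (ENNReal.ofReal C * ∫⁻ x, Sd μ G x ^ 2) +
          64 * (ENNReal.ofReal C' * ∫⁻ x, Sd μ G x ^ 2)) := by
        have h1 : ∫⁻ t in Icc (1 : ℝ) 2, ∫⁻ x : ℝ, S (t, x) ^ 2 ≤
            ENNReal.ofReal C * ∫⁻ x, Sd μ G x ^ 2 :=
          (lintegral_mono_set (Icc_subset_Icc (by norm_num) le_rfl)).trans h
        have h2 : ∫⁻ t in Icc (1 : ℝ) 2, ∫⁻ x : ℝ, S (-t, x) ^ 2 ≤
            ENNReal.ofReal C * ∫⁻ x, Sd μ G x ^ 2 :=
          (neg_le (fun t => ∫⁻ x : ℝ, S (t, x) ^ 2)).trans h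
        gcongr
    _ = _ := by ring

end

/-- **the vector valued `L^4` estimate for the wave propagators** -/
theorem onev (s : ℝ) (hs : 0 < s) : ∃ C : ℝ, 0 < C ∧ ∀ {Ω : Type} [MeasurableSpace Ω]
    (μ : Measure Ω) [SFinite μ] (a : Ω → ℝ) (τ : ℝ) (G : Ω → ℝ → ℂ), Measurable a →
    Measurable (Function.uncurry G) → (∀ᵐ ω ∂μ, 0 < a ω) → (∀ ω, Integrable (G ω)) →
    0 < τ → τ ≤ 1 →
    (∫⁻ t in Icc (1 : ℝ) 2, ∫⁻ x : ℝ, Su μ a (mc s τ t) G x ^ 2 ≤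
      ENNReal.ofReal C * ∫⁻ x, Sd μ G x ^ 2) ∧
    (∫⁻ t in Icc (1 : ℝ) 2, ∫⁻ x : ℝ, Su μ a (ms s τ t) G x ^ 2 ≤
      ENNReal.ofReal C * ∫⁻ x, Sd μ G x ^ 2) := by
  obtain ⟨A1, hA1, hw1⟩ := syk_wa s hs
  obtain ⟨A2, hA2, hw2⟩ := syk_wb s hs
  obtain ⟨A3, hA3, hw3⟩ := syk_wa (s + 1) (by linarith)
  obtain ⟨C1, hC1, h1⟩ := sumKV s A1 hs hA1
  obtain ⟨C2, hC2, h2⟩ := sumKV s A2 hs hA2
  obtain ⟨C3, hC3, h3⟩ := sumKV s A3 hs hA3
  refine ⟨4 * C1 + 4 * (C2 + C2 + 64 * C3), by positivity, ?_⟩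
  intro Ω _ μ _ a τ G ha hG hpos hint hτ hτ1
  have hwam : ∀ u, Measurable (wa τ u) := fun u => (continuous_wa τ u).measurable
  refine ⟨?_, ?_⟩
  · refine (cosV hτ hs μ ha hG hint (h1 μ a (wa τ s) G ha (hwam s) hG hpos (hw1 τ hτ hτ1)
      (fun ω => integrable_wa hτ hs) hint)).trans ?_
    refine mul_le_mul' ?_ le_rfl
    have e : (4 : ℝ≥0∞) * ENNReal.ofReal C1 = ENNReal.ofReal (4 * C1) := by
      rw [ENNReal.ofReal_mul (by norm_num)]; norm_num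
    rw [e]
    refine ENNReal.ofReal_le_ofReal ?_
    have : 0 ≤ 4 * (C2 + C2 + 64 * C3) := by positivity
    linarith
  · refine (sinV hτ hs μ ha hG hpos hint
      (h2 μ a (fun r => 2 * Real.pi * r * wa τ (s + 1) r) G ha
        ((by fun_prop : Measurable fun r : ℝ => 2 * Real.pi * r).mul (hwam _)) hG hpos
        (hw2 τ hτ hτ1) (fun ω => integrable_wb hτ hs) hint)
      (h3 μ a (wa τ (s + 1)) G ha (hwam _) hG hpos ((hw3 τ hτ hτ1).mono (by linarith) hA3.le)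
        (fun ω => integrable_wa hτ (by linarith)) hint)).trans ?_
    refine mul_le_mul' ?_ le_rfl
    have e : 4 * (ENNReal.ofReal C2 + ENNReal.ofReal C2 + 64 * ENNReal.ofReal C3) =
        ENNReal.ofReal (4 * (C2 + C2 + 64 * C3)) := by
      rw [ENNReal.ofReal_mul (by norm_num), ENNReal.ofReal_add (by positivity) (by positivity),
        ENNReal.ofReal_add hC2.le hC2.le, ENNReal.ofReal_mul (by norm_num)]
      norm_num
    rw [e]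
    refine ENNReal.ofReal_le_ofReal ?_
    linarith

end Pool.Agent.Q167.LS
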