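import Pool.Agent.Q167.LS.Hol
set_option autoImplicit false

/-! # Transverse spectra of Sidon type -/

open MeasureTheory Set Filter Topology
open scoped ENNReal NNReal FourierTransform RealInnerProductSpace

namespace Pool.Agent.Q167.LS

open Pool.Agent.TH280.LS

variable {m : ℕ}

/-- the fourth power: `∫ |F|⁴ ≤ G (∫ |H|²)²` if `F` is the Fourier transform of `H` and `H` lives on
a set `S` with `|S ∩ (ζ - S)| ≤ G` -/
theorem sid4 {H : (Fin m → ℝ) → ℂ} (h1 : Integrable H) (h2 : MemLp H 2) {S : Set (Fin m → ℝ)}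
    (hS : MeasurableSet S) (hHS : ∀ η, η ∉ S → H η = 0) {G : ℝ≥0∞}
    (hG : ∀ ζ : Fin m → ℝ, volume {η | η ∈ S ∧ ζ - η ∈ S} ≤ G) (hGt : G ≠ ⊤) :
    ∫⁻ y : Fin m → ℝ, ‖∫ η : Fin m → ℝ, e (∑ i, y i * η i) * H η‖ₑ ^ 4 ≤
      G * (∫⁻ η, ‖H η‖ₑ ^ 2) ^ 2 := by
  obtain ⟨A, hA⟩ : ∃ A : ℝ≥0∞, A = ∫⁻ η : Fin m → ℝ, ‖H η‖ₑ ^ 2 := ⟨_, rfl⟩
  have hAt : A ≠ ⊤ := by
    have h := h2.eLpNorm_lt_top
    rw [eLpNorm_lt_top_iff_lintegral_rpow_enorm_lt_top (by norm_num) (by norm_num)] at h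
    rw [hA]
    have h' : ∫⁻ η : Fin m → ℝ, ‖H η‖ₑ ^ 2 < ⊤ := by simpa using h
    exact h'.ne
  rw [← hA]
  have hprod : Integrable (fun q : (Fin m → ℝ) × (Fin m → ℝ) => H q.2 * H (q.1 - q.2))
      (volume.prod volume) := by
    have h := h1.convolution_integrand (ContinuousLinearMap.mul ℂ ℂ) h1
    simpa using h
  obtain ⟨c, hc⟩ : ∃ c : (Fin m → ℝ) → ℂ, c = fun ζ => ∫ η, H η * H (ζ - η) := ⟨_, rfl⟩
  have hci : Integrable c := by rw [hc]; exact hprod.integral_prod_left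
  have hec : Continuous fun q : (Fin m → ℝ) × (Fin m → ℝ) => e (∑ i, q.1 i * q.2 i) :=
    continuous_e.comp (by fun_prop)
  -- the square
  have hsq : ∀ y : Fin m → ℝ, (∫ η : Fin m → ℝ, e (∑ i, y i * η i) * H η) ^ 2 =
      ∫ ζ : Fin m → ℝ, e (∑ i, y i * ζ i) * c ζ := by
    intro y
    have hy : Continuous fun η : Fin m → ℝ => e (∑ i, y i * η i) := by
      have := hec.comp (by fun_prop : Continuous fun η : Fin m → ℝ => (y, η))
      exact this
    have i1 : Integrable (fun q : (Fin m → ℝ) × (Fin m → ℝ) => e (∑ i, y i * q.1 i) *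
        (H q.2 * H (q.1 - q.2))) (volume.prod volume) := by
      refine hprod.bdd_mul (c := 1) ?_ (Eventually.of_forall fun q => by rw [norm_e])
      exact (hy.comp continuous_fst).aestronglyMeasurable
    have s1 : ∫ ζ : Fin m → ℝ, e (∑ i, y i * ζ i) * c ζ =
        ∫ η : Fin m → ℝ, ∫ ζ : Fin m → ℝ, e (∑ i, y i * ζ i) * (H η * H (ζ - η)) := by
      rw [hc]
      simp only
      have : ∀ ζ : Fin m → ℝ, e (∑ i, y i * ζ i) * ∫ η, H η * H (ζ - η) =
          ∫ η, e (∑ i, y i * ζ i) * (H η * H (ζ - η)) := fun ζ => (integral_const_mul _ _).symm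
      simp only [this]
      exact integral_integral_swap i1
    rw [s1, sq, ← integral_mul_const]
    refine integral_congr_ae (Eventually.of_forall fun η => ?_)
    simp only
    rw [← integral_const_mul]
    rw [← integral_sub_right_eq_self (fun ζ' : Fin m → ℝ => e (∑ i, y i * η i) * H η *
      (e (∑ i, y i * ζ' i) * H ζ')) η]
    refine integral_congr_ae (Eventually.of_forall fun ζ => ?_)
    simp only
    have e1 : e (∑ i, y i * ζ i) = e (∑ i, y i * η i) * e (∑ i, y i * (ζ - η) i) := by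
      rw [← e_add, ← Finset.sum_add_distrib]
      congr 1
      refine Finset.sum_congr rfl fun i _ => ?_
      simp only [Pi.sub_apply]
      ring
    rw [e1]
    ring
  -- the `L²` bound
  have hc2 : ∫⁻ ζ, ‖c ζ‖ₑ ^ 2 ≤ G * A ^ 2 := by
    have hpt : ∀ ζ, ‖c ζ‖ₑ ^ 2 ≤ G * ∫⁻ η, ‖H η‖ₑ ^ 2 * ‖H (ζ - η)‖ₑ ^ 2 := by
      intro ζ
      obtain ⟨D, hD⟩ : ∃ D : Set (Fin m → ℝ), D = {η | η ∈ S ∧ ζ - η ∈ S} := ⟨_, rfl⟩
      have hDm : MeasurableSet D := by
        rw [hD]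
        exact hS.inter ((measurable_const.sub measurable_id) hS)
      have g0 : ‖c ζ‖ₑ ≤ ∫⁻ η in D, ‖H η * H (ζ - η)‖ₑ := by
        rw [hc]
        refine (enorm_integral_le_lintegral_enorm _).trans (le_of_eq ?_)
        rw [← lintegral_indicator hDm]
        refine lintegral_congr fun η => ?_
        by_cases hη : η ∈ D
        · rw [indicator_of_mem hη]
        · rw [indicator_of_notMem hη]
          rw [hD, mem_ofPred_eq, not_and_or] at hη
          rcases hη with h | h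
          · rw [hHS _ h]; simp
          · rw [hHS _ h]; simp
      have hm1 : AEStronglyMeasurable (fun η => H η * H (ζ - η)) volume := by
        refine h1.1.mul ?_
        exact h1.1.comp_measurePreserving (Measure.measurePreserving_sub_left volume ζ)
      have g2 := Pool.Agent.TH496.MOD.cs_l (volume.restrict D) (fun η => ‖H η * H (ζ - η)‖ₑ)
        hm1.enorm.restrict
      rw [Measure.restrict_apply_univ] at g2
      refine ((pow_le_pow_left' g0 2).trans g2).trans ?_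
      refine mul_le_mul' (by rw [hD]; exact hG ζ) ?_
      refine (setLIntegral_le_lintegral _ _).trans (le_of_eq ?_)
      refine lintegral_congr fun η => ?_
      rw [enorm_mul, mul_pow]
    calc ∫⁻ ζ, ‖c ζ‖ₑ ^ 2 ≤ ∫⁻ ζ, G * ∫⁻ η, ‖H η‖ₑ ^ 2 * ‖H (ζ - η)‖ₑ ^ 2 := lintegral_mono hpt
      _ = G * ∫⁻ ζ, ∫⁻ η, ‖H η‖ₑ ^ 2 * ‖H (ζ - η)‖ₑ ^ 2 := lintegral_const_mul' _ _ hGt
      _ = G * ∫⁻ η, ∫⁻ ζ, ‖H η‖ₑ ^ 2 * ‖H (ζ - η)‖ₑ ^ 2 := by
          congr 1
          refine lintegral_lintegral_swap ?_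
          have := hprod.1.enorm.pow_const 2
          refine this.congr (Eventually.of_forall fun q => ?_)
          simp only [Function.uncurry]
          rw [enorm_mul, mul_pow]
      _ = G * ∫⁻ η, ‖H η‖ₑ ^ 2 * A := by
          congr 1
          refine lintegral_congr fun η => ?_
          rw [lintegral_const_mul'' _ ?_, lintegral_sub_right_eq_self (fun z => ‖H z‖ₑ ^ 2) η, ← hA]
          exact (h1.1.comp_measurePreserving (measurePreserving_sub_right volume η)).enorm.pow_const 2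
      _ = G * A ^ 2 := by
          rw [lintegral_mul_const' _ _ hAt, ← hA, sq]
  have hcL : MemLp c 2 := by
    refine ⟨hci.1, ?_⟩
    rw [eLpNorm_lt_top_iff_lintegral_rpow_enorm_lt_top (by norm_num) (by norm_num)]
    have : ∫⁻ ζ, ‖c ζ‖ₑ ^ 2 < ⊤ :=
      hc2.trans_lt (ENNReal.mul_lt_top hGt.lt_top (ENNReal.pow_lt_top hAt.lt_top))
    simpa using this
  have hpl := ftm_planch c hci hcL
  calc ∫⁻ y : Fin m → ℝ, ‖∫ η : Fin m → ℝ, e (∑ i, y i * η i) * H η‖ₑ ^ 4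
      = ∫⁻ y : Fin m → ℝ, ‖∫ ζ : Fin m → ℝ, e (∑ i, y i * ζ i) * c ζ‖ₑ ^ 2 := by
        refine lintegral_congr fun y => ?_
        rw [← hsq y, enorm_pow, ← pow_mul]
    _ = ∫⁻ ζ, ‖c ζ‖ₑ ^ 2 := hpl
    _ ≤ _ := hc2

/-- the power `p` -/
theorem sidp {H : (Fin m → ℝ) → ℂ} (h1 : Integrable H) (h2 : MemLp H 2) {S : Set (Fin m → ℝ)}
    (hS : MeasurableSet S) (hHS : ∀ η, η ∉ S → H η = 0) {G : ℝ≥0∞}
    (hG : ∀ ζ : Fin m → ℝ, volume {η | η ∈ S ∧ ζ - η ∈ S} ≤ G) (hGt : G ≠ ⊤) {p : ℝ}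
    (hp : 2 ≤ p) (hp4 : p ≤ 4) :
    ∫⁻ y : Fin m → ℝ, ‖∫ η : Fin m → ℝ, e (∑ i, y i * η i) * H η‖ₑ ^ p ≤
      G ^ (p / 2 - 1) * (∫⁻ η, ‖H η‖ₑ ^ 2) ^ (p / 2) := by
  obtain ⟨A, hA⟩ : ∃ A : ℝ≥0∞, A = ∫⁻ η : Fin m → ℝ, ‖H η‖ₑ ^ 2 := ⟨_, rfl⟩
  have hAt : A ≠ ⊤ := by
    have h := h2.eLpNorm_lt_top
    rw [eLpNorm_lt_top_iff_lintegral_rpow_enorm_lt_top (by norm_num) (by norm_num)] at h
    rw [hA]
    have h' : ∫⁻ η : Fin m → ℝ, ‖H η‖ₑ ^ 2 < ⊤ := by simpa using h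
    exact h'.ne
  obtain ⟨F, hF⟩ : ∃ F : (Fin m → ℝ) → ℂ, F = fun y => ∫ η : Fin m → ℝ, e (∑ i, y i * η i) * H η :=
    ⟨_, rfl⟩
  have k4 := sid4 h1 h2 hS hHS hG hGt
  have k2 := ftm_planch H h1 h2
  have hFc : Continuous F := by
    rw [hF]
    refine continuous_of_dominated (bound := fun η => ‖H η‖) ?_ ?_ h1.norm ?_
    · intro y
      exact (continuous_e.comp (by fun_prop)).aestronglyMeasurable.mul h1.1
    · intro y
      exact Eventually.of_forall fun η => by rw [norm_mul, norm_e, one_mul]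
    · exact Eventually.of_forall fun η =>
        (continuous_e.comp (by fun_prop)).mul continuous_const
  have hFy : ∀ y, (∫ η : Fin m → ℝ, e (∑ i, y i * η i) * H η) = F y := fun y => by rw [hF]
  simp only [hFy] at k4 k2 ⊢
  rw [← hA] at k4 k2 ⊢
  have hFm := hFc.measurable
  have key := ENNReal.lintegral_mul_norm_pow_le (μ := volume) (f := fun y => ‖F y‖ₑ ^ 2)
    (g := fun y => ‖F y‖ₑ ^ 4) (hFm.enorm.pow_const 2).aemeasurable
    (hFm.enorm.pow_const 4).aemeasurable (p := (4 - p) / 2) (q := (p - 2) / 2)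
    (by linarith) (by linarith) (by ring)
  have e1 : ∀ y, (‖F y‖ₑ ^ 2) ^ ((4 - p) / 2) * (‖F y‖ₑ ^ 4) ^ ((p - 2) / 2) = ‖F y‖ₑ ^ p := by
    intro y
    rw [← ENNReal.rpow_natCast, ← ENNReal.rpow_natCast, ← ENNReal.rpow_mul, ← ENNReal.rpow_mul,
      ← ENNReal.rpow_add_of_nonneg _ _ (by push_cast; linarith) (by push_cast; linarith)]
    congr 1
    push_cast
    ring
  simp only [e1] at key
  rw [k2] at key
  refine key.trans ?_
  calc A ^ ((4 - p) / 2) * (∫⁻ y, ‖F y‖ₑ ^ 4) ^ ((p - 2) / 2)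
      ≤ A ^ ((4 - p) / 2) * (G * A ^ 2) ^ ((p - 2) / 2) :=
        mul_le_mul' le_rfl (ENNReal.rpow_le_rpow k4 (by linarith))
    _ = G ^ (p / 2 - 1) * A ^ (p / 2) := by
        rw [ENNReal.mul_rpow_of_nonneg _ _ (by linarith), ← ENNReal.rpow_natCast,
          ← ENNReal.rpow_mul]
        have e2 : A ^ ((4 - p) / 2) * A ^ (((2 : ℕ) : ℝ) * ((p - 2) / 2)) = A ^ (p / 2) := by
          rw [← ENNReal.rpow_add_of_nonneg _ _ (by linarith) (by push_cast; linarith)]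
          congr 1
          push_cast
          ring
        have e3 : (p - 2) / 2 = p / 2 - 1 := by ring
        rw [mul_left_comm, e2, e3]

end Pool.Agent.Q167.LS
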