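import Pool.Agent.Q167.LS.Sid
set_option autoImplicit false

/-! # Transverse spectra of Sidon type: the class and the example of cubes over `B_2[g]` sets -/

open MeasureTheory Set Filter Topology
open scoped ENNReal NNReal FourierTransform RealInnerProductSpace

namespace Pool.Agent.Q167.LS

open Pool.Agent.TH280.LS

variable {m : ℕ}

lemma sid_good {S : Set (Fin m → ℝ)} (hS : MeasurableSet S) {σ : (Fin m → ℝ) → ℝ}
    (hσ : Measurable σ) (hσ1 : ∀ η, |σ η| ≤ 1) (hσS : ∀ η, η ∉ S → σ η = 0) {G : ℝ≥0∞}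
    (hG : ∀ ζ : Fin m → ℝ, volume {η | η ∈ S ∧ ζ - η ∈ S} ≤ G) (hGt : G ≠ ⊤) {p : ℝ}
    (hp : 2 ≤ p) (hp4 : p ≤ 4) :
    Good m p (Measure.dirac ()) (fun q : Unit × (Fin m → ℝ) => σ q.2) (G ^ (p / 2 - 1)) := by
  refine ⟨hσ.comp measurable_snd, fun q => hσ1 _, ENNReal.rpow_ne_top_of_nonneg (by linarith) hGt,
    fun H h1 h2 => ?_⟩
  obtain ⟨b1, b2⟩ := mul_mem hσ hσ1 h1 h2
  have key := sidp b1 b2 hS (fun η hη => by rw [hσS η hη]; simp) hG hGt hp hp4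
  simp only [lintegral_dirac]
  refine key.trans (mul_le_mul' le_rfl (ENNReal.rpow_le_rpow ?_ (by linarith)))
  refine lintegral_mono fun η => pow_le_pow_left' ?_ 2
  rw [enorm_mul]
  have : ‖((σ η : ℝ) : ℂ)‖ₑ ≤ 1 := by
    rw [← ofReal_norm, Complex.norm_real, Real.norm_eq_abs]
    exact ENNReal.ofReal_le_one.2 (hσ1 η)
  exact mul_le_of_le_one_left' this

lemma cube_vol (k : Fin m → ℤ) : volume {η : Fin m → ℝ | (fun i => ⌊η i⌋) = k} = 1 := by
  have e1 : {η : Fin m → ℝ | (fun i => ⌊η i⌋) = k} = Set.pi univ fun i => Ico (k i : ℝ) (k i + 1) := by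
    ext η
    rw [Set.mem_pi]
    simp only [mem_univ, true_imp_iff, mem_Ico]
    constructor
    · intro h i
      have h2 : (fun i => ⌊η i⌋) = k := h
      rw [← h2]
      exact ⟨Int.floor_le _, Int.lt_floor_add_one _⟩
    · intro h
      change (fun i => ⌊η i⌋) = k
      funext i
      exact Int.floor_eq_iff.2 (h i)
  rw [e1, volume_pi_pi]
  simp [Real.volume_Ico]

lemma floor_meas : Measurable fun η : Fin m → ℝ => fun i => ⌊η i⌋ :=
  measurable_pi_lambda _ fun i => Int.measurable_floor.comp (measurable_pi_apply i)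

lemma cubes_meas (Λ : Set (Fin m → ℤ)) : MeasurableSet {η : Fin m → ℝ | (fun i => ⌊η i⌋) ∈ Λ} :=
  floor_meas (Set.to_countable Λ).measurableSet

/-- unit cubes over a `B_2[g]` set -/
lemma cubes_G (Λ : Set (Fin m → ℤ)) (g : ℕ) (h : ∀ j, {k | k ∈ Λ ∧ j - k ∈ Λ}.encard ≤ g)
    (ζ : Fin m → ℝ) :
    volume {η : Fin m → ℝ | (fun i => ⌊η i⌋) ∈ Λ ∧ (fun i => ⌊(ζ - η) i⌋) ∈ Λ} ≤
      2 ^ m * g := by
  classical
  have hfin : ∀ j, {k | k ∈ Λ ∧ j - k ∈ Λ}.Finite := fun j =>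
    Set.finite_of_encard_le_coe (h j)
  obtain ⟨J, hJ⟩ : ∃ J : (Fin m → Bool) → (Fin m → ℤ), J = fun b i =>
    ⌊ζ i⌋ - (if b i then 1 else 0) := ⟨_, rfl⟩
  have hsub : {η : Fin m → ℝ | (fun i => ⌊η i⌋) ∈ Λ ∧ (fun i => ⌊(ζ - η) i⌋) ∈ Λ} ⊆
      ⋃ b ∈ (Finset.univ : Finset (Fin m → Bool)), ⋃ k ∈ (hfin (J b)).toFinset,
        {η : Fin m → ℝ | (fun i => ⌊η i⌋) = k} := by
    intro η hη
    obtain ⟨h1, h2⟩ := hη
    simp only [mem_iUnion]
    refine ⟨fun i => decide (⌊η i⌋ + ⌊(ζ - η) i⌋ = ⌊ζ i⌋ - 1), Finset.mem_univ _,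
      (fun i => ⌊η i⌋), ?_, rfl⟩
    rw [Set.Finite.mem_toFinset]
    refine ⟨h1, ?_⟩
    have e1 : J (fun i => decide (⌊η i⌋ + ⌊(ζ - η) i⌋ = ⌊ζ i⌋ - 1)) - (fun i => ⌊η i⌋) =
        fun i => ⌊(ζ - η) i⌋ := by
      funext i
      rw [hJ]
      simp only [Pi.sub_apply, decide_eq_true_eq]
      have g1 := Int.floor_le (η i)
      have g2 := Int.lt_floor_add_one (η i)
      have g3 := Int.floor_le (ζ i - η i)
      have g4 := Int.lt_floor_add_one (ζ i - η i)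
      have g5 := Int.floor_le (ζ i)
      have g6 := Int.lt_floor_add_one (ζ i)
      have g7 : ⌊η i⌋ + ⌊ζ i - η i⌋ ≤ ⌊ζ i⌋ := by
        apply Int.le_floor.2
        push_cast
        linarith
      have g8 : ⌊ζ i⌋ - 1 ≤ ⌊η i⌋ + ⌊ζ i - η i⌋ := by
        have : (⌊ζ i⌋ : ℝ) < ⌊η i⌋ + ⌊ζ i - η i⌋ + 2 := by linarith
        have h9 : ⌊ζ i⌋ < ⌊η i⌋ + ⌊ζ i - η i⌋ + 2 := by exact_mod_cast this
        omega
      split_ifs with hc <;> omega
    rw [e1]
    exact h2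
  refine (measure_mono hsub).trans ?_
  refine (measure_biUnion_finset_le _ _).trans ?_
  have hk : ∀ b, volume (⋃ k ∈ (hfin (J b)).toFinset,
      {η : Fin m → ℝ | (fun i => ⌊η i⌋) = k}) ≤ g := by
    intro b
    refine (measure_biUnion_finset_le _ _).trans ?_
    simp only [cube_vol]
    rw [Finset.sum_const, nsmul_eq_mul, mul_one]
    have h3 := h (J b)
    rw [(hfin (J b)).encard_eq_coe_toFinset_card] at h3
    have h4 : (hfin (J b)).toFinset.card ≤ g := by exact_mod_cast h3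
    exact_mod_cast h4
  refine (Finset.sum_le_sum fun b _ => hk b).trans ?_
  rw [Finset.sum_const, nsmul_eq_mul, Finset.card_univ, Fintype.card_fun, Fintype.card_bool,
    Fintype.card_fin]
  push_cast
  exact le_rfl

end Pool.Agent.Q167.LS
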