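import Pool.Agent.Q167.LS.VV
set_option autoImplicit false

/-! # The vector valued estimate for symbols of negative order -/

open MeasureTheory Set Filter Topology
open scoped ENNReal

namespace Pool.Agent.Q167.LS

open Pool.Agent.TH280.LS
open Pool.Agent.TH986.SUM (mu Ps Pm pc continuous_Ps pc_cut pc_int const_sum tendsto_vx
  continuous_ra)

/-- Cauchy–Schwarz with geometric weights -/
lemma geo_sq {q : ℝ} (hq0 : 0 < q) (hq1 : q < 1) (n : ℕ) (b : ℕ → ℝ≥0∞) :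
    (∑ j ∈ Finset.range n, b j) ^ 2 ≤
      ∑ j ∈ Finset.range n, ENNReal.ofReal ((1 - q)⁻¹ * q⁻¹ ^ j) * b j ^ 2 := by
  have h1q : 0 < 1 - q := by linarith
  by_cases hfin : ∀ j ∈ Finset.range n, b j ≠ ⊤
  · obtain ⟨c, hc⟩ : ∃ c : ℕ → ℝ, c = fun j => (b j).toReal := ⟨_, rfl⟩
    have hc0 : ∀ j, 0 ≤ c j := fun j => by rw [hc]; exact ENNReal.toReal_nonneg
    have hbc : ∀ j ∈ Finset.range n, b j = ENNReal.ofReal (c j) := fun j hj => by
      rw [hc]; exact (ENNReal.ofReal_toReal (hfin j hj)).symm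
    have hS : ∑ j ∈ Finset.range n, q ^ j ≤ (1 - q)⁻¹ := by
      rw [← tsum_geometric_of_lt_one hq0.le hq1]
      exact (summable_geometric_of_lt_one hq0.le hq1).sum_le_tsum _ (fun i _ => by positivity)
    have c1 : (∑ j ∈ Finset.range n, c j) ^ 2 ≤
        (∑ j ∈ Finset.range n, q ^ j) * ∑ j ∈ Finset.range n, q⁻¹ ^ j * c j ^ 2 := by
      refine Finset.sum_sq_le_sum_mul_sum_of_sq_le_mul (Finset.range n) (r := fun j => c j)
        (f := fun j => q ^ j) (g := fun j => q⁻¹ ^ j * c j ^ 2) (fun i _ => by positivity)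
        (fun i _ => mul_nonneg (by positivity) (sq_nonneg _)) (fun i _ => le_of_eq ?_)
      have : q ^ i * q⁻¹ ^ i = 1 := by rw [← mul_pow, mul_inv_cancel₀ hq0.ne', one_pow]
      rw [← mul_assoc, this, one_mul]
    have c2 : (∑ j ∈ Finset.range n, c j) ^ 2 ≤
        ∑ j ∈ Finset.range n, ((1 - q)⁻¹ * q⁻¹ ^ j) * c j ^ 2 := by
      refine c1.trans ?_
      calc (∑ j ∈ Finset.range n, q ^ j) * ∑ j ∈ Finset.range n, q⁻¹ ^ j * c j ^ 2
          ≤ (1 - q)⁻¹ * ∑ j ∈ Finset.range n, q⁻¹ ^ j * c j ^ 2 := by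
            refine mul_le_mul_of_nonneg_right hS (Finset.sum_nonneg fun i _ => ?_)
            positivity
        _ = _ := by
            rw [Finset.mul_sum]
            exact Finset.sum_congr rfl fun j _ => by ring
    rw [Finset.sum_congr rfl hbc, ← ENNReal.ofReal_sum_of_nonneg (fun i _ => hc0 i),
      ← ENNReal.ofReal_pow (Finset.sum_nonneg fun i _ => hc0 i)]
    refine (ENNReal.ofReal_le_ofReal c2).trans (le_of_eq ?_)
    rw [ENNReal.ofReal_sum_of_nonneg (fun i _ => by positivity)]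
    refine Finset.sum_congr rfl fun j hj => ?_
    rw [hbc j hj, ENNReal.ofReal_mul (by positivity), ENNReal.ofReal_pow (hc0 j)]
  · push Not at hfin
    obtain ⟨j, hj, hj2⟩ := hfin
    have : ∑ j ∈ Finset.range n, ENNReal.ofReal ((1 - q)⁻¹ * q⁻¹ ^ j) * b j ^ 2 = ⊤ := by
      rw [ENNReal.sum_eq_top]
      refine ⟨j, hj, ?_⟩
      rw [hj2, ENNReal.top_pow (by norm_num), ENNReal.mul_top]
      exact (ENNReal.ofReal_pos.2 (by positivity)).ne'
    rw [this]; exact le_top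

lemma liminf_sq (A : ℕ → ℝ≥0∞) : (liminf A atTop) ^ 2 = liminf (fun n => A n ^ 2) atTop := by
  have h := Monotone.map_liminf_of_continuousAt (F := atTop) (f := fun x : ℝ≥0∞ => x ^ 2)
    (fun x y hxy => pow_le_pow_left' hxy 2) A (ENNReal.continuous_pow 2).continuousAt
    (by isBoundedDefault) (by isBoundedDefault)
  exact h

section
variable {Ω : Type} [MeasurableSpace Ω]

lemma pc_meas {a : Ω → ℝ} (ha : Measurable a) {w : ℝ → ℂ} (hw : Measurable w) (j : ℕ) :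
    Measurable (Function.uncurry fun (ω : Ω) (ξ : ℝ) => pc (a ω) w j ξ) := by
  have hr : Measurable (fun p : Ω × ℝ => ra (a p.1) p.2) := by
    unfold ra; fun_prop
  unfold pc Function.uncurry
  exact (Complex.measurable_ofReal.comp ((continuous_Ps j).measurable.comp hr)).mul (hw.comp hr)

/-- one piece -/
lemma pieceV {C : ℝ} (hC : 0 < C) (hVV : S_VV (fun N => C * (1 + Real.log N) ^ 2))
    (μ : Measure Ω) [SFinite μ] {s : ℝ} (hs : 0 < s) {a : Ω → ℝ} {w : ℝ → ℂ} {G : Ω → ℝ → ℂ}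
    (ha : Measurable a) (hwm : Measurable w) (hG : Measurable (Function.uncurry G))
    (hpos : ∀ᵐ ω ∂μ, 0 < a ω) (hw : Sy s w)
    (hint : ∀ ω, Integrable (G ω)) (j : ℕ) :
    ∫⁻ z, Sq μ a (fun ω => pc (a ω) w j) G z ^ 2 ∂mu ≤
      ENNReal.ofReal ((5 * ((2 : ℝ) ^ j / 2) ^ (-s)) ^ 4 * (C * (1 + j) ^ 2)) *
        ∫⁻ x : ℝ, Sd μ G x ^ 2 := by
  have hK : (0 : ℝ) < 2 ^ j / 2 := by positivity
  have hB : 0 < 5 * ((2 : ℝ) ^ j / 2) ^ (-s) := by
    have := Real.rpow_pos_of_pos hK (-s)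
    positivity
  have hcut := fun ω => pc_cut hs hw (a ω) j
  set B := 5 * ((2 : ℝ) ^ j / 2) ^ (-s) with hBdef
  have hpm := pc_meas ha hwm j
  have h1 := hVV μ (2 ^ j) a (fun ω ξ => ((B⁻¹ : ℝ) : ℂ) * pc (a ω) w j ξ) G
    (one_le_pow₀ (by norm_num)) ha (hpm.const_mul _) hG hpos hcut hint
  have h2 : ∀ z : ℝ × ℝ, Sq μ a (fun ω => pc (a ω) w j) G z ^ 2 = ENNReal.ofReal (B ^ 4) *
      Sq μ a (fun ω ξ => ((B⁻¹ : ℝ) : ℂ) * pc (a ω) w j ξ) G z ^ 2 := by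
    intro z
    have h3 : Sq μ a (fun ω => pc (a ω) w j) G z = ENNReal.ofReal (B ^ 2) *
        Sq μ a (fun ω ξ => ((B⁻¹ : ℝ) : ℂ) * pc (a ω) w j ξ) G z := by
      unfold Sq
      rw [← lintegral_const_mul' _ _ ENNReal.ofReal_ne_top]
      refine lintegral_congr fun ω => ?_
      rw [Pool.Agent.TH986.SUM.vx_const, enorm_mul, mul_pow ‖((B⁻¹ : ℝ) : ℂ)‖ₑ, ← mul_assoc]
      have h3 : ENNReal.ofReal (B ^ 2) * ‖((B⁻¹ : ℝ) : ℂ)‖ₑ ^ 2 = 1 := by
        rw [← ofReal_norm, Complex.norm_real, Real.norm_eq_abs, abs_of_pos (inv_pos.2 hB),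
          ← ENNReal.ofReal_pow (inv_pos.2 hB).le, ← ENNReal.ofReal_mul (by positivity), ← mul_pow,
          mul_inv_cancel₀ hB.ne', one_pow, ENNReal.ofReal_one]
      rw [h3, one_mul]
    rw [h3, mul_pow, ← ENNReal.ofReal_pow (by positivity)]
    congr 2
    ring
  simp only [h2]
  rw [lintegral_const_mul' _ _ ENNReal.ofReal_ne_top, ENNReal.ofReal_mul (by positivity), mul_assoc]
  gcongr
  refine h1.trans (mul_le_mul' (ENNReal.ofReal_le_ofReal ?_) le_rfl)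
  simp only
  rw [Real.log_pow]
  have h4 : Real.log 2 ≤ 1 := by
    have := Real.log_two_lt_d9
    linarith
  have h6 : 0 ≤ Real.log 2 := Real.log_nonneg (by norm_num)
  have h5 : (0 : ℝ) ≤ j := Nat.cast_nonneg j
  have h7 : 0 ≤ (j : ℝ) * Real.log 2 := mul_nonneg h5 h6
  have h8 : (j : ℝ) * Real.log 2 ≤ j := mul_le_of_le_one_right h5 h4
  refine mul_le_mul_of_nonneg_left (pow_le_pow_left₀ (by linarith) (by linarith) 2) hC.le

end

/-- symbols of order `-s` -/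
def S_SV : Prop := ∀ s : ℝ, 0 < s → ∃ C : ℝ, 0 < C ∧ ∀ {Ω : Type} [MeasurableSpace Ω]
  (μ : Measure Ω) [SFinite μ] (a : Ω → ℝ) (w : ℝ → ℂ) (G : Ω → ℝ → ℂ), Measurable a →
  Measurable w → Measurable (Function.uncurry G) → (∀ᵐ ω ∂μ, 0 < a ω) → Sy s w →
  (∀ ω, Integrable (fun ξ => w (ra (a ω) ξ))) → (∀ ω, Integrable (G ω)) →
  ∫⁻ z, Sq μ a (fun ω ξ => w (ra (a ω) ξ)) G z ^ 2 ∂mu ≤ ENNReal.ofReal C * ∫⁻ x, Sd μ G x ^ 2

theorem sv_thm : S_SV := by
  obtain ⟨C, hC, hVV⟩ := vv_thm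
  intro s hs
  obtain ⟨q, hq0, hq1, K, hK0, hK⟩ := const_sum s C hs hC
  refine ⟨K, hK0, ?_⟩
  intro Ω _ μ _ a w G ha hwm hG hpos hw hi hint
  have h1q : 0 < 1 - q := by linarith
  have hpm := fun j => pc_meas ha hwm j
  have hVj := fun j => Vx_meas (χ := fun ω => pc (a ω) w j) ha (hpm j) hG
  obtain ⟨A, hA⟩ : ∃ A : ℕ → (ℝ × ℝ) → ℝ≥0∞, A = fun n z =>
    ∫⁻ ω, ‖∑ j ∈ Finset.range n, Vx (a ω) (pc (a ω) w j) (G ω) z.1 z.2‖ₑ ^ 2 ∂μ := ⟨_, rfl⟩
  have hAm : ∀ n, Measurable (A n) := by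
    intro n
    rw [hA]
    refine Measurable.lintegral_prod_right' (f := fun p : (ℝ × ℝ) × Ω =>
      ‖∑ j ∈ Finset.range n, Vx (a p.2) (pc (a p.2) w j) (G p.2) p.1.1 p.1.2‖ₑ ^ 2) ?_
    refine (Measurable.enorm ?_).pow_const 2
    refine Finset.measurable_fun_sum _ fun j _ => ?_
    exact (hVj j).comp measurable_swap
  obtain ⟨S, hS⟩ : ∃ S : ℕ → (ℝ × ℝ) → ℝ≥0∞, S = fun j => Sq μ a (fun ω => pc (a ω) w j) G :=
    ⟨_, rfl⟩
  have hSm : ∀ j, Measurable (S j) := fun j => by rw [hS]; exact Sq_meas μ ha (hpm j) hG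
  -- pointwise bound
  have hpt : ∀ n z, A n z ^ 2 ≤ ∑ j ∈ Finset.range n,
      ENNReal.ofReal ((1 - q)⁻¹ ^ 3 * (q⁻¹ ^ 3) ^ j) * S j z ^ 2 := by
    intro n z
    have s1 : A n z ≤ ∑ j ∈ Finset.range n, ENNReal.ofReal ((1 - q)⁻¹ * q⁻¹ ^ j) * S j z := by
      rw [hA, hS]
      simp only
      calc ∫⁻ ω, ‖∑ j ∈ Finset.range n, Vx (a ω) (pc (a ω) w j) (G ω) z.1 z.2‖ₑ ^ 2 ∂μ
          ≤ ∫⁻ ω, ∑ j ∈ Finset.range n, ENNReal.ofReal ((1 - q)⁻¹ * q⁻¹ ^ j) *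
              ‖Vx (a ω) (pc (a ω) w j) (G ω) z.1 z.2‖ₑ ^ 2 ∂μ := by
            refine lintegral_mono fun ω => ?_
            refine le_trans ?_ (geo_sq hq0 hq1 n _)
            exact pow_le_pow_left' (enorm_sum_le _ _) 2
        _ = ∑ j ∈ Finset.range n, ∫⁻ ω, ENNReal.ofReal ((1 - q)⁻¹ * q⁻¹ ^ j) *
              ‖Vx (a ω) (pc (a ω) w j) (G ω) z.1 z.2‖ₑ ^ 2 ∂μ := by
            rw [lintegral_finsetSum]
            intro j _
            refine Measurable.const_mul ?_ _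
            exact (((hVj j).comp (measurable_id.prodMk measurable_const)).enorm).pow_const 2
        _ = _ := by
            refine Finset.sum_congr rfl fun j _ => ?_
            rw [lintegral_const_mul' _ _ ENNReal.ofReal_ne_top]
            rfl
    refine (pow_le_pow_left' s1 2).trans ((geo_sq hq0 hq1 n _).trans (le_of_eq ?_))
    refine Finset.sum_congr rfl fun j _ => ?_
    rw [mul_pow, ← mul_assoc, ← ENNReal.ofReal_pow (by positivity),
      ← ENNReal.ofReal_mul (by positivity)]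
    congr 2
    ring
  have hbd : ∀ n : ℕ, ∫⁻ z, A n z ^ 2 ∂mu ≤ ENNReal.ofReal K * ∫⁻ x : ℝ, Sd μ G x ^ 2 := by
    intro n
    calc ∫⁻ z, A n z ^ 2 ∂mu
        ≤ ∫⁻ z : ℝ × ℝ, ∑ j ∈ Finset.range n,
          ENNReal.ofReal ((1 - q)⁻¹ ^ 3 * (q⁻¹ ^ 3) ^ j) * S j z ^ 2 ∂mu :=
          lintegral_mono fun z => hpt n z
      _ = ∑ j ∈ Finset.range n, ENNReal.ofReal ((1 - q)⁻¹ ^ 3 * (q⁻¹ ^ 3) ^ j) *
            ∫⁻ z : ℝ × ℝ, S j z ^ 2 ∂mu := by
          rw [lintegral_finsetSum _ (fun j _ => ((hSm j).pow_const 2).const_mul _)]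
          refine Finset.sum_congr rfl fun j _ => ?_
          rw [lintegral_const_mul' _ _ ENNReal.ofReal_ne_top]
      _ ≤ ∑ j ∈ Finset.range n, ENNReal.ofReal ((1 - q)⁻¹ ^ 3 * (q⁻¹ ^ 3) ^ j) *
            (ENNReal.ofReal ((5 * ((2 : ℝ) ^ j / 2) ^ (-s)) ^ 4 * (C * (1 + j) ^ 2)) *
              ∫⁻ x : ℝ, Sd μ G x ^ 2) := by
          refine Finset.sum_le_sum fun j _ => ?_
          refine mul_le_mul' le_rfl ?_
          rw [hS]
          exact pieceV hC hVV μ hs ha hwm hG hpos hw hint j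
      _ = ENNReal.ofReal (∑ j ∈ Finset.range n, (1 - q)⁻¹ ^ 3 * (q⁻¹ ^ 3) ^ j *
            ((5 * ((2 : ℝ) ^ j / 2) ^ (-s)) ^ 4 * (C * (1 + j) ^ 2))) *
              ∫⁻ x : ℝ, Sd μ G x ^ 2 := by
          rw [ENNReal.ofReal_sum_of_nonneg (fun i _ => by positivity), Finset.sum_mul]
          refine Finset.sum_congr rfl fun j _ => ?_
          rw [← mul_assoc, ← ENNReal.ofReal_mul (by positivity)]
      _ ≤ ENNReal.ofReal K * ∫⁻ x : ℝ, Sd μ G x ^ 2 := by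
          gcongr
          exact hK n
  have hlim : ∀ z, Sq μ a (fun ω ξ => w (ra (a ω) ξ)) G z ≤ liminf (fun n => A n z) atTop := by
    intro z
    unfold Sq
    calc ∫⁻ ω, ‖Vx (a ω) (fun ξ => w (ra (a ω) ξ)) (G ω) z.1 z.2‖ₑ ^ 2 ∂μ
        = ∫⁻ ω, liminf (fun n : ℕ =>
            ‖∑ j ∈ Finset.range n, Vx (a ω) (pc (a ω) w j) (G ω) z.1 z.2‖ₑ ^ 2) atTop ∂μ := by
          refine lintegral_congr fun ω => ?_
          symm
          apply Tendsto.liminf_eq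
          exact ((ENNReal.continuous_pow 2).tendsto _).comp ((continuous_enorm.tendsto _).comp
            (tendsto_vx (a ω) w (G ω) (hi ω) (hint ω) z.1 z.2))
      _ ≤ liminf (fun n : ℕ => ∫⁻ ω,
            ‖∑ j ∈ Finset.range n, Vx (a ω) (pc (a ω) w j) (G ω) z.1 z.2‖ₑ ^ 2 ∂μ) atTop := by
          refine lintegral_liminf_le fun n => ?_
          refine (Measurable.enorm ?_).pow_const 2
          refine Finset.measurable_fun_sum _ fun j _ => ?_
          exact (hVj j).comp (measurable_id.prodMk measurable_const)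
      _ = _ := by rw [hA]
  calc ∫⁻ z, Sq μ a (fun ω ξ => w (ra (a ω) ξ)) G z ^ 2 ∂mu
      ≤ ∫⁻ z, liminf (fun n => A n z ^ 2) atTop ∂mu := by
        refine lintegral_mono fun z => ?_
        rw [← liminf_sq]
        exact pow_le_pow_left' (hlim z) 2
    _ ≤ liminf (fun n : ℕ => ∫⁻ z, A n z ^ 2 ∂mu) atTop :=
        lintegral_liminf_le fun n => (hAm n).pow_const 2
    _ ≤ ENNReal.ofReal K * ∫⁻ x : ℝ, Sd μ G x ^ 2 := by
        refine liminf_le_of_le (by isBoundedDefault) ?_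
        intro b hb
        obtain ⟨n, hn⟩ := hb.exists
        exact hn.trans (hbd n)

end Pool.Agent.Q167.LS
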