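import Pool.Agent.Q167.LS.Bil
import Pool.Agent.TH986.LS_SUM
import Pool.Agent.TH889.LS_W
set_option autoImplicit false

/-! # The vector valued estimate for one frequency scale -/

open MeasureTheory Set
open scoped ENNReal

namespace Pool.Agent.Q167.LS

open Pool.Agent.TH280.LS
open Pool.Agent.TH986.SUM (mu)

lemma bil_swap {Ω Q : Type*} [MeasurableSpace Ω] [MeasurableSpace Q] (μ : Measure Ω) [SFinite μ]
    (ν : Measure Q) [SFinite ν] {A B : Ω → Q → ℝ≥0∞} (hA : Measurable (Function.uncurry A))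
    (hB : Measurable (Function.uncurry B)) :
    ∫⁻ ω, ∫⁻ ω', ∫⁻ q, A ω q * B ω' q ∂ν ∂μ ∂μ =
      ∫⁻ q, (∫⁻ ω, A ω q ∂μ) * (∫⁻ ω, B ω q ∂μ) ∂ν := by
  have hAq : ∀ q, Measurable (fun ω => A ω q) := fun q =>
    hA.comp (measurable_id.prodMk measurable_const)
  have hBq : ∀ q, Measurable (fun ω => B ω q) := fun q =>
    hB.comp (measurable_id.prodMk measurable_const)
  have hB2 : Measurable (fun q => ∫⁻ ω', B ω' q ∂μ) :=
    Measurable.lintegral_prod_right' (f := fun p : Q × Ω => B p.2 p.1) (hB.comp measurable_swap)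
  have e1 : ∀ q, (∫⁻ ω, A ω q ∂μ) * (∫⁻ ω, B ω q ∂μ) = ∫⁻ ω, A ω q * ∫⁻ ω', B ω' q ∂μ ∂μ :=
    fun q => (lintegral_mul_const _ (hAq q)).symm
  rw [lintegral_congr e1]
  have m1 : Measurable (Function.uncurry fun (q : Q) (ω : Ω) => A ω q * ∫⁻ ω', B ω' q ∂μ) :=
    (hA.comp measurable_swap).mul (hB2.comp measurable_fst)
  rw [lintegral_lintegral_swap m1.aemeasurable]
  refine lintegral_congr fun ω => ?_
  have hAω : Measurable (fun q => A ω q) := hA.comp (measurable_const.prodMk measurable_id)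
  have m2 : Measurable (Function.uncurry fun (ω' : Ω) (q : Q) => A ω q * B ω' q) :=
    (hAω.comp measurable_snd).mul hB
  rw [lintegral_lintegral_swap m2.aemeasurable]
  refine lintegral_congr fun q => ?_
  rw [lintegral_const_mul _ (hBq q)]

section
variable {Ω : Type*} [MeasurableSpace Ω]

lemma ft_meas {G : Ω → ℝ → ℂ} (hG : Measurable (Function.uncurry G)) :
    Measurable (fun p : Ω × ℝ => ft (G p.1) p.2) := by
  have hc : Measurable (fun p : (Ω × ℝ) × ℝ => e (-(p.2 * p.1.2)) * G p.1.1 p.2) := by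
    refine (measurable_e.comp (by fun_prop)).mul ?_
    exact hG.comp (by fun_prop : Measurable fun p : (Ω × ℝ) × ℝ => (p.1.1, p.2))
  have hs := StronglyMeasurable.integral_prod_right' (ν := (volume : Measure ℝ))
    hc.stronglyMeasurable
  exact hs.measurable

lemma Vx_meas {a : Ω → ℝ} {χ G : Ω → ℝ → ℂ} (ha : Measurable a)
    (hχ : Measurable (Function.uncurry χ)) (hG : Measurable (Function.uncurry G)) :
    Measurable (fun p : Ω × (ℝ × ℝ) => Vx (a p.1) (χ p.1) (G p.1) p.2.1 p.2.2) := by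
  have hf := ft_meas hG
  have hr : Measurable (fun p : Ω × ℝ => ra (a p.1) p.2) := by
    unfold ra; fun_prop
  have hc : Measurable (fun p : (Ω × (ℝ × ℝ)) × ℝ => e (p.1.2.2 * p.2) *
      (e (p.1.2.1 * ra (a p.1.1) p.2) * (χ p.1.1 p.2 * ft (G p.1.1) p.2))) := by
    have h0 : Measurable fun p : (Ω × (ℝ × ℝ)) × ℝ => (p.1.1, p.2) := by fun_prop
    refine (measurable_e.comp (by fun_prop)).mul ((measurable_e.comp ?_).mul
      ((hχ.comp h0).mul (hf.comp h0)))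
    exact (by fun_prop : Measurable fun p : (Ω × (ℝ × ℝ)) × ℝ => p.1.2.1).mul (hr.comp h0)
  have hs := StronglyMeasurable.integral_prod_right' (ν := (volume : Measure ℝ))
    hc.stronglyMeasurable
  exact hs.measurable

/-- square function of the propagators -/
noncomputable def Sq (μ : Measure Ω) (a : Ω → ℝ) (χ G : Ω → ℝ → ℂ) (z : ℝ × ℝ) : ℝ≥0∞ :=
  ∫⁻ ω, ‖Vx (a ω) (χ ω) (G ω) z.1 z.2‖ₑ ^ 2 ∂μ

lemma Sq_meas (μ : Measure Ω) [SFinite μ] {a : Ω → ℝ} {χ G : Ω → ℝ → ℂ} (ha : Measurable a)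
    (hχ : Measurable (Function.uncurry χ)) (hG : Measurable (Function.uncurry G)) :
    Measurable (Sq μ a χ G) := by
  unfold Sq
  exact Measurable.lintegral_prod_right'
    (f := fun p : (ℝ × ℝ) × Ω => ‖Vx (a p.2) (χ p.2) (G p.2) p.1.1 p.1.2‖ₑ ^ 2)
    (((Vx_meas ha hχ hG).comp measurable_swap).enorm.pow_const 2)

/-- square function of the data -/
noncomputable def Sd (μ : Measure Ω) (G : Ω → ℝ → ℂ) (x : ℝ) : ℝ≥0∞ :=
  ∫⁻ ω, ‖G ω x‖ₑ ^ 2 ∂μ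

lemma Sd_meas (μ : Measure Ω) [SFinite μ] {G : Ω → ℝ → ℂ} (hG : Measurable (Function.uncurry G)) :
    Measurable (Sd μ G) := by
  unfold Sd
  exact Measurable.lintegral_prod_right'
    (f := fun p : ℝ × Ω => ‖G p.2 p.1‖ₑ ^ 2)
    ((hG.comp measurable_swap).enorm.pow_const 2)

lemma am_gm (x y : ℝ≥0∞) : x * y ≤ x ^ 2 / 2 + y ^ 2 / 2 := by
  rcases eq_or_ne x ⊤ with hx | hx
  · subst hx
    have : (⊤ : ℝ≥0∞) ^ 2 / 2 = ⊤ := by
      rw [ENNReal.top_pow (by norm_num)]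
      exact ENNReal.top_div_of_ne_top (by norm_num)
    rw [this, top_add]; exact le_top
  rcases eq_or_ne y ⊤ with hy | hy
  · subst hy
    have : (⊤ : ℝ≥0∞) ^ 2 / 2 = ⊤ := by
      rw [ENNReal.top_pow (by norm_num)]
      exact ENNReal.top_div_of_ne_top (by norm_num)
    rw [this, add_top]; exact le_top
  lift x to NNReal using hx
  lift y to NNReal using hy
  have h : (x : ℝ) * y ≤ x ^ 2 / 2 + y ^ 2 / 2 := by nlinarith [sq_nonneg ((x : ℝ) - y)]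
  have h2 : x * y ≤ x ^ 2 / 2 + y ^ 2 / 2 := by
    rw [← NNReal.coe_le_coe]; push_cast; exact h
  have h3 : ((x * y : NNReal) : ℝ≥0∞) ≤ ((x ^ 2 / 2 + y ^ 2 / 2 : NNReal) : ℝ≥0∞) :=
    ENNReal.coe_le_coe.2 h2
  rw [ENNReal.coe_mul, ENNReal.coe_add, ENNReal.coe_div (by norm_num), ENNReal.coe_div (by norm_num),
    ENNReal.coe_pow, ENNReal.coe_pow] at h3
  exact_mod_cast h3

lemma corr {S : ℝ → ℝ≥0∞} (hS : Measurable S) (v : ℝ) :
    ∫⁻ z : ℝ, S (z + v / 2) * S (z - v / 2) ≤ ∫⁻ x, S x ^ 2 := by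
  have e1 : ∫⁻ z : ℝ, S (z + v / 2) ^ 2 / 2 = (∫⁻ x : ℝ, S x ^ 2) / 2 := by
    rw [lintegral_add_right_eq_self (fun x => S x ^ 2 / 2) (v / 2)]
    simp only [div_eq_mul_inv]
    exact lintegral_mul_const _ (by fun_prop)
  have e2 : ∫⁻ z : ℝ, S (z - v / 2) ^ 2 / 2 = (∫⁻ x : ℝ, S x ^ 2) / 2 := by
    simp only [sub_eq_add_neg]
    rw [lintegral_add_right_eq_self (fun x => S x ^ 2 / 2) (-(v / 2))]
    simp only [div_eq_mul_inv]
    exact lintegral_mul_const _ (by fun_prop)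
  calc ∫⁻ z : ℝ, S (z + v / 2) * S (z - v / 2) ≤
        ∫⁻ z : ℝ, (S (z + v / 2) ^ 2 / 2 + S (z - v / 2) ^ 2 / 2) :=
        lintegral_mono fun z => am_gm _ _
    _ = (∫⁻ z : ℝ, S (z + v / 2) ^ 2 / 2) + ∫⁻ z : ℝ, S (z - v / 2) ^ 2 / 2 :=
        lintegral_add_left (by fun_prop) _
    _ = ∫⁻ x : ℝ, S x ^ 2 := by rw [e1, e2, ENNReal.add_halves]

end

/-- the vector valued estimate at scale `N` -/
def S_VV (μ0 : ℝ → ℝ) : Prop := ∀ {Ω : Type} [MeasurableSpace Ω] (μ : Measure Ω)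
  [SFinite μ] (N : ℝ) (a : Ω → ℝ) (χ G : Ω → ℝ → ℂ), 1 ≤ N → Measurable a →
  Measurable (Function.uncurry χ) → Measurable (Function.uncurry G) → (∀ᵐ ω ∂μ, 0 < a ω) →
  (∀ ω, Cut 1 N (χ ω)) → (∀ ω, Integrable (G ω)) →
  ∫⁻ z, Sq μ a χ G z ^ 2 ∂mu ≤ ENNReal.ofReal (μ0 N) * ∫⁻ x, Sd μ G x ^ 2

theorem vv_thm : ∃ C : ℝ, 0 < C ∧ S_VV (fun N => C * (1 + Real.log N) ^ 2) := by
  have hW : S_W := Pool.Agent.TH889.W.w_thm
  obtain ⟨C1, hC1, hD⟩ := dual2 mod2 hW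
  obtain ⟨C2, hC2, hW2⟩ := hW
  refine ⟨C1 * C2, by positivity, ?_⟩
  intro Ω _ μ _ N a χ G hN ha hχ hG hpos hcut hint
  have hlog : 0 ≤ Real.log N := Real.log_nonneg hN
  have hVm := Vx_meas ha hχ hG
  have hGω : ∀ ω, Measurable (G ω) := fun ω => hG.comp (measurable_const.prodMk measurable_id)
  obtain ⟨w, hw⟩ : ∃ w : ℝ → ℝ≥0∞, w = fun v => (ENNReal.ofReal (Wt N v))⁻¹ := ⟨_, rfl⟩
  have hwm : Measurable w := by
    rw [hw]; exact ((Pool.Agent.TH73.LS4.Wt_meas N).ennreal_ofReal).inv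
  have hmu : mu = ((volume : Measure ℝ).restrict (Icc (-2 : ℝ) 2)).prod volume := rfl
  have : SFinite mu := by rw [hmu]; infer_instance
  -- the left side
  have L1 : ∫⁻ z, Sq μ a χ G z ^ 2 ∂mu = ∫⁻ ω, ∫⁻ ω', ∫⁻ z,
      ‖Vx (a ω) (χ ω) (G ω) z.1 z.2‖ₑ ^ 2 * ‖Vx (a ω') (χ ω') (G ω') z.1 z.2‖ₑ ^ 2
        ∂mu ∂μ ∂μ := by
    have hA : Measurable (Function.uncurry fun (ω : Ω) (z : ℝ × ℝ) =>
        ‖Vx (a ω) (χ ω) (G ω) z.1 z.2‖ₑ ^ 2) := hVm.enorm.pow_const 2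
    rw [bil_swap μ mu hA hA]
    refine lintegral_congr fun z => ?_
    unfold Sq
    rw [sq]
  have L2 : ∀ᵐ ω ∂μ, ∀ᵐ ω' ∂μ, ∫⁻ z,
      ‖Vx (a ω) (χ ω) (G ω) z.1 z.2‖ₑ ^ 2 * ‖Vx (a ω') (χ ω') (G ω') z.1 z.2‖ₑ ^ 2 ∂mu ≤
      ENNReal.ofReal (C1 * (1 + Real.log N)) * ∫⁻ q : ℝ × ℝ,
        (w q.1 * ‖G ω (q.2 + q.1 / 2)‖ₑ ^ 2) * ‖G ω' (q.2 - q.1 / 2)‖ₑ ^ 2 := by
    filter_upwards [hpos] with ω hω
    filter_upwards [hpos] with ω' hω'
    have h := bil hD (N := N) (a := a ω) (b := a ω') (χ := χ ω) (θ := χ ω') (G := G ω)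
      (H := G ω') hN hω hω' (hcut ω) (hcut ω') (hint ω) (hGω ω) (hint ω') (hGω ω')
    have e1 : ∫⁻ z, ‖Vx (a ω) (χ ω) (G ω) z.1 z.2‖ₑ ^ 2 *
        ‖Vx (a ω') (χ ω') (G ω') z.1 z.2‖ₑ ^ 2 ∂mu =
        ∫⁻ t in Icc (-2 : ℝ) 2, ∫⁻ x : ℝ,
          ‖Vx (a ω) (χ ω) (G ω) t x * Vx (a ω') (χ ω') (G ω') t x‖ₑ ^ 2 := by
      rw [hmu, lintegral_prod]
      · refine lintegral_congr fun t => lintegral_congr fun x => ?_
        rw [enorm_mul, mul_pow]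
      · have m1 : Measurable (fun z : ℝ × ℝ => Vx (a ω) (χ ω) (G ω) z.1 z.2) :=
          hVm.comp (measurable_const.prodMk measurable_id)
        have m2 : Measurable (fun z : ℝ × ℝ => Vx (a ω') (χ ω') (G ω') z.1 z.2) :=
          hVm.comp (measurable_const.prodMk measurable_id)
        exact ((m1.enorm.pow_const 2).mul (m2.enorm.pow_const 2)).aemeasurable
    have e2 : ∫⁻ q : ℝ × ℝ, (w q.1 * ‖G ω (q.2 + q.1 / 2)‖ₑ ^ 2) * ‖G ω' (q.2 - q.1 / 2)‖ₑ ^ 2 =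
        ∫⁻ v : ℝ, (ENNReal.ofReal (Wt N v))⁻¹ *
          ∫⁻ z : ℝ, ‖G ω (z + v / 2) * G ω' (z - v / 2)‖ₑ ^ 2 := by
      rw [Measure.volume_eq_prod, lintegral_prod]
      · refine lintegral_congr fun v => ?_
        rw [← lintegral_const_mul]
        · refine lintegral_congr fun z => ?_
          simp only [hw]
          rw [enorm_mul, mul_pow, mul_assoc]
        · have m1 := hGω ω
          have m2 := hGω ω'
          fun_prop
      · have m1 := hGω ω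
        have m2 := hGω ω'
        refine Measurable.aemeasurable ?_
        refine ((hwm.comp measurable_fst).mul ?_).mul ?_
        · fun_prop
        · fun_prop
    rw [e1, e2]
    exact h
  have R1 : ∫⁻ ω, ∫⁻ ω', ∫⁻ q : ℝ × ℝ,
        (w q.1 * ‖G ω (q.2 + q.1 / 2)‖ₑ ^ 2) * ‖G ω' (q.2 - q.1 / 2)‖ₑ ^ 2 ∂volume ∂μ ∂μ =
      ∫⁻ q : ℝ × ℝ, (w q.1 * Sd μ G (q.2 + q.1 / 2)) * Sd μ G (q.2 - q.1 / 2) := by
    have hA : Measurable (Function.uncurry fun (ω : Ω) (q : ℝ × ℝ) =>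
        w q.1 * ‖G ω (q.2 + q.1 / 2)‖ₑ ^ 2) := by
      refine (hwm.comp (by fun_prop)).mul ((Measurable.enorm ?_).pow_const 2)
      exact hG.comp (by fun_prop : Measurable fun p : Ω × (ℝ × ℝ) => (p.1, p.2.2 + p.2.1 / 2))
    have hB : Measurable (Function.uncurry fun (ω : Ω) (q : ℝ × ℝ) =>
        ‖G ω (q.2 - q.1 / 2)‖ₑ ^ 2) := by
      refine ((Measurable.enorm ?_).pow_const 2)
      exact hG.comp (by fun_prop : Measurable fun p : Ω × (ℝ × ℝ) => (p.1, p.2.2 - p.2.1 / 2))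
    rw [bil_swap μ volume hA hB]
    refine lintegral_congr fun q => ?_
    unfold Sd
    rw [lintegral_const_mul]
    have := hG.comp (by fun_prop : Measurable fun ω : Ω => (ω, q.2 + q.1 / 2))
    exact this.enorm.pow_const 2
  have hS := Sd_meas μ hG
  have R2 : ∫⁻ q : ℝ × ℝ, (w q.1 * Sd μ G (q.2 + q.1 / 2)) * Sd μ G (q.2 - q.1 / 2) ≤
      ENNReal.ofReal (C2 * (1 + Real.log N)) * ∫⁻ x, Sd μ G x ^ 2 := by
    rw [Measure.volume_eq_prod, lintegral_prod]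
    · calc ∫⁻ v : ℝ, ∫⁻ z : ℝ, w v * Sd μ G (z + v / 2) * Sd μ G (z - v / 2)
          = ∫⁻ v : ℝ, w v * ∫⁻ z : ℝ, Sd μ G (z + v / 2) * Sd μ G (z - v / 2) := by
            refine lintegral_congr fun v => ?_
            rw [← lintegral_const_mul]
            · refine lintegral_congr fun z => by rw [mul_assoc]
            · fun_prop
        _ ≤ ∫⁻ v : ℝ, w v * ∫⁻ x, Sd μ G x ^ 2 :=
            lintegral_mono fun v => mul_le_mul' le_rfl (corr hS v)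
        _ = (∫⁻ v : ℝ, w v) * ∫⁻ x, Sd μ G x ^ 2 := lintegral_mul_const _ hwm
        _ ≤ _ := by
            refine mul_le_mul' ?_ le_rfl
            rw [hw]
            exact (hW2 N hN).1
    · refine Measurable.aemeasurable ?_
      refine ((hwm.comp measurable_fst).mul ?_).mul ?_
      · fun_prop
      · fun_prop
  calc ∫⁻ z, Sq μ a χ G z ^ 2 ∂mu ≤ ∫⁻ ω, ∫⁻ ω', ENNReal.ofReal (C1 * (1 + Real.log N)) *
        ∫⁻ q : ℝ × ℝ, (w q.1 * ‖G ω (q.2 + q.1 / 2)‖ₑ ^ 2) * ‖G ω' (q.2 - q.1 / 2)‖ₑ ^ 2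
          ∂volume ∂μ ∂μ := by
        rw [L1]
        refine lintegral_mono_ae ?_
        filter_upwards [L2] with ω hω
        exact lintegral_mono_ae hω
    _ = ENNReal.ofReal (C1 * (1 + Real.log N)) * ∫⁻ ω, ∫⁻ ω', ∫⁻ q : ℝ × ℝ,
        (w q.1 * ‖G ω (q.2 + q.1 / 2)‖ₑ ^ 2) * ‖G ω' (q.2 - q.1 / 2)‖ₑ ^ 2 ∂volume ∂μ ∂μ := by
        rw [← lintegral_const_mul' _ _ ENNReal.ofReal_ne_top]
        refine lintegral_congr fun ω => ?_
        rw [← lintegral_const_mul' _ _ ENNReal.ofReal_ne_top]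
    _ ≤ ENNReal.ofReal (C1 * (1 + Real.log N)) *
          (ENNReal.ofReal (C2 * (1 + Real.log N)) * ∫⁻ x, Sd μ G x ^ 2) := by
        rw [R1]
        exact mul_le_mul' le_rfl R2
    _ = _ := by
        rw [← mul_assoc, ← ENNReal.ofReal_mul (by positivity)]
        congr 2
        ring

end Pool.Agent.Q167.LS
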